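import Mathlib

/-!
# Combinatorial drawings of graphs on the sphere

A drawing of a finite graph on the sphere (equivalently, in the plane) in which arcs meet
finitely often, every common interior point of two arcs is a proper crossing and (after the usual
perturbation) no three arcs cross at one point, is recorded by its planarization.  Each edge `e`
is cut by its `n e` crossing points into `n e + 1` segments.  A directed segment is a pair `(d, i)`
where `d` is a direction of an edge (a `Dart`) and `i` runs over `0, ..., n e`: it is the
`i`-th segment met when travelling along `d`, directed as `d`.  The drawing is given by the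
counterclockwise rotation of the directed segments leaving each vertex and each crossing point.
-/

namespace Pool.Agent.Lib.MP_09e2fc_co

open Equiv

/-- A pair of permutations `σ` (rotation at the vertices) and `ι` (reversal of the edges) of a
finite set `S` of darts describes a cellular map of a surface on each connected component.
`IsSphereMap σ ι` says that each of these surfaces is a sphere: Euler's formula
`V + F = E + 2 C`, where `V`, `F`, `E`, `C` are the numbers of vertices (cycles of `σ`), faces
(cycles of `σ * ι`), edges (cycles of `ι`) and connected components (orbits of the group generated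
by `σ` and `ι`). -/
def IsSphereMap {S : Type} (σ ι : Perm S) : Prop :=
  Nat.card (Quotient (Perm.SameCycle.setoid σ)) + Nat.card (Quotient (Perm.SameCycle.setoid (σ * ι)))
    = Nat.card (Quotient (Perm.SameCycle.setoid ι))
      + 2 * Nat.card (MulAction.orbitRel.Quotient (Subgroup.closure {σ, ι}) S)

variable {V : Type} {H : SimpleGraph V}

/-- The directed segments of a drawing of `H` in which the edge `e` carries `n e` crossing
points: pairs of a dart `d` of `H` and an index `i ≤ n d.edge`. -/
def Seg (H : SimpleGraph V) (n : Sym2 V → ℕ) : Type :=
  {x : H.Dart × ℕ // x.2 ≤ n x.1.edge}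

/-- The dart of `H` along which a directed segment runs. -/
def Seg.dart {n : Sym2 V → ℕ} (x : Seg H n) : H.Dart := x.1.1

/-- The position of a directed segment along its dart; position `0` means that the segment starts
at a vertex of `H`, position `i ≥ 1` that it starts at the `i`-th crossing point of the dart. -/
def Seg.idx {n : Sym2 V → ℕ} (x : Seg H n) : ℕ := x.1.2

theorem Seg.ext' {n : Sym2 V → ℕ} {x y : Seg H n} (h1 : x.dart = y.dart) (h2 : x.idx = y.idx) :
    x = y :=
  Subtype.ext (Prod.ext h1 h2)

/-- Reversal of directed segments. -/
def flip (H : SimpleGraph V) (n : Sym2 V → ℕ) : Perm (Seg H n) where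
  toFun x := ⟨(x.dart.symm, n x.dart.edge - x.idx), by
    show n x.dart.edge - x.idx ≤ n x.dart.symm.edge
    rw [SimpleGraph.Dart.edge_symm]
    exact Nat.sub_le _ _⟩
  invFun x := ⟨(x.dart.symm, n x.dart.edge - x.idx), by
    show n x.dart.edge - x.idx ≤ n x.dart.symm.edge
    rw [SimpleGraph.Dart.edge_symm]
    exact Nat.sub_le _ _⟩
  left_inv x := by
    have hx : x.idx ≤ n x.dart.edge := x.2
    refine Seg.ext' ?_ ?_
    · exact SimpleGraph.Dart.symm_symm _
    · show n x.dart.symm.edge - (n x.dart.edge - x.idx) = x.idx
      rw [SimpleGraph.Dart.edge_symm]
      omega
  right_inv x := by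
    have hx : x.idx ≤ n x.dart.edge := x.2
    refine Seg.ext' ?_ ?_
    · exact SimpleGraph.Dart.symm_symm _
    · show n x.dart.symm.edge - (n x.dart.edge - x.idx) = x.idx
      rw [SimpleGraph.Dart.edge_symm]
      omega

/-- A drawing of the graph `H` on the sphere, given by its planarization. -/
structure Drawing (H : SimpleGraph V) where
  /-- the number of crossing points on each edge -/
  n : Sym2 V → ℕ
  /-- the rotation: `rot x` is the next directed segment after `x`, in counterclockwise order,
  among those leaving the point at which `x` starts -/
  rot : Perm (Seg H n)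
  /-- a directed segment of position `0` starts at a vertex of `H`; the cycle of `rot` through it
  consists of all directed segments starting at that vertex -/
  rot_vertex : ∀ x y : Seg H n, x.idx = 0 →
    (rot.SameCycle x y ↔ y.idx = 0 ∧ y.dart.fst = x.dart.fst)
  /-- a directed segment `x = (d, i)` with `i ≥ 1` starts at a crossing point of two edges, from
  which exactly four directed segments leave; the one opposite to `x` runs along the same edge
  in the other direction, so it is `(d.symm, n d.edge + 1 - i)` -/
  rot_crossing : ∀ x : Seg H n, x.idx ≠ 0 →
    (rot (rot x)).dart = x.dart.symm ∧ (rot (rot x)).idx + x.idx = n x.dart.edge + 1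
  /-- no edge crosses itself -/
  simple : ∀ x : Seg H n, x.idx ≠ 0 → (rot x).dart.edge ≠ x.dart.edge
  /-- the map is a map on the sphere -/
  sphere : IsSphereMap rot (flip H n)

/-- The number of crossing points of the edges underlying the darts `d` and `d'` in a
drawing: the number of positions `i ≥ 1` along `d` at which the crossing edge is that of `d'`. -/
noncomputable def Drawing.crossings (D : Drawing H) (d d' : H.Dart) : ℕ :=
  Nat.card {x : Seg H D.n // x.dart = d ∧ x.idx ≠ 0 ∧ (D.rot x).dart.edge = d'.edge}

/-- The edges of the darts `d`, `d'` of `G₁ ⊔ G₂` are exclusive edges of different graphs: one of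
them is an edge of `G₁` but not of `G₂`, the other one an edge of `G₂` but not of `G₁`. -/
def ExclusivePair (G₁ G₂ : SimpleGraph V) (d d' : (G₁ ⊔ G₂).Dart) : Prop :=
  (d.edge ∉ G₂.edgeSet ∧ d'.edge ∉ G₁.edgeSet) ∨ (d.edge ∉ G₁.edgeSet ∧ d'.edge ∉ G₂.edgeSet)

/-- The edges of the darts `d` and `d'` have no common end vertex. -/
def Independent (d d' : H.Dart) : Prop := ∀ v : V, v ∈ d.edge → v ∉ d'.edge

/-- `G₁` and `G₂` admit a simultaneous embedding with fixed edges: `G₁ ∪ G₂` has a drawing in which
two edges cross only if they are exclusive edges of different graphs.  (The restrictions of such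
a drawing to `G₁` and to `G₂` are planar drawings that coincide on the shared graph; conversely the
superposition of two such planar drawings is, after a perturbation, a drawing of this kind.) -/
def HasSefe (G₁ G₂ : SimpleGraph V) : Prop :=
  ∃ D : Drawing (G₁ ⊔ G₂), ∀ d d', D.crossings d d' ≠ 0 → ExclusivePair G₁ G₂ d d'

end Pool.Agent.Lib.MP_09e2fc_co
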