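import Mathlib
import Pool.Agent.Lib.MP_09e2fc_co.Defs

/-!
# Linear algebra over `ZMod 2` for sphere maps

A map `(σ, ι)` is a sphere map iff every even set of edges is the boundary of a set of faces.
-/

namespace Pool.Agent.Lib.MP_09e2fc_co

open Equiv

/-- The Jordan property of a map: every even set of edges is the boundary of a set of faces. -/
def Jordan {S : Type} (σ ι : Perm S) : Prop :=
  ∀ z : S → ZMod 2, (∀ x, z (ι x) = z x) → (∃ t : S → ZMod 2, ∀ x, z x = t x + t (σ x)) →
    ∃ t : S → ZMod 2, (∀ x, z x = t x + t (σ x)) ∧ ∀ x, t (σ x) = t (ι x)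

section Lin

variable {S : Type}

/-- Functions constant on the classes of a setoid. -/
def InvSub (r : Setoid S) : Submodule (ZMod 2) (S → ZMod 2) where
  carrier := {k | ∀ x y, r x y → k x = k y}
  add_mem' := by
    intro a b ha hb x y h
    simp [ha x y h, hb x y h]
  zero_mem' := by intro x y _; rfl
  smul_mem' := by
    intro c a ha x y h
    simp [ha x y h]

theorem mem_InvSub {r : Setoid S} {k : S → ZMod 2} :
    k ∈ InvSub r ↔ ∀ x y, r x y → k x = k y := Iff.rfl

/-- Functions on the quotient are functions constant on classes. -/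
def invEquiv (r : Setoid S) : (Quotient r → ZMod 2) ≃ₗ[ZMod 2] InvSub r where
  toFun f := ⟨fun x => f (Quotient.mk r x), by
    intro x y h
    have : Quotient.mk r x = Quotient.mk r y := Quotient.sound h
    simp [this]⟩
  map_add' f g := rfl
  map_smul' c f := rfl
  invFun k := Quotient.lift k.1 (fun x y h => k.2 x y h)
  left_inv f := by
    funext q
    induction q using Quotient.inductionOn with
    | h x => rfl
  right_inv k := by
    ext x
    rfl

theorem finrank_InvSub [Finite S] (r : Setoid S) :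
    Module.finrank (ZMod 2) (InvSub r) = Nat.card (Quotient r) := by
  classical
  have := Fintype.ofFinite (Quotient r)
  rw [← LinearEquiv.finrank_eq (invEquiv r), Module.finrank_fintype_fun_eq_card,
    Nat.card_eq_fintype_card]

theorem mem_InvSub_perm {σ : Perm S} {k : S → ZMod 2} :
    k ∈ InvSub (Perm.SameCycle.setoid σ) ↔ ∀ x, k (σ x) = k x := by
  constructor
  · intro h x
    exact (h x (σ x) ⟨1, by simp⟩).symm
  · intro h x y hxy
    obtain ⟨i, hi⟩ := hxy
    have key : ∀ (i : ℤ) (x : S), k ((σ ^ i) x) = k x := by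
      intro i
      induction i with
      | zero => intro x; simp
      | succ n ih => intro x; rw [zpow_add_one, Perm.mul_apply, ih, h]
      | pred n ih =>
        intro x
        rw [zpow_sub_one, Perm.mul_apply, ih]
        have := h (σ⁻¹ x)
        simpa using this.symm
    rw [← hi, key]

theorem mem_InvSub_comp {σ ι : Perm S} {k : S → ZMod 2} :
    k ∈ InvSub (MulAction.orbitRel (Subgroup.closure {σ, ι}) S) ↔
      (∀ x, k (σ x) = k x) ∧ ∀ x, k (ι x) = k x := by
  constructor
  · intro h
    constructor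
    · intro x
      exact h _ _ ⟨⟨σ, Subgroup.subset_closure (by simp)⟩, rfl⟩
    · intro x
      exact h _ _ ⟨⟨ι, Subgroup.subset_closure (by simp)⟩, rfl⟩
  · rintro ⟨h1, h2⟩ x y hxy
    obtain ⟨g, hg⟩ := hxy
    have key : ∀ g ∈ Subgroup.closure ({σ, ι} : Set (Perm S)), ∀ y, k (g y) = k y := by
      intro g hg
      induction hg using Subgroup.closure_induction with
      | mem g hg =>
        rcases hg with rfl | hg
        · exact h1
        · rw [Set.mem_singleton_iff] at hg
          subst hg
          exact h2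
      | one => intro y; rfl
      | mul a b _ _ iha ihb => intro y; rw [Perm.mul_apply, iha, ihb]
      | inv a _ iha =>
        intro y
        have := iha (a⁻¹ y)
        simpa using this.symm
    have hg' : (g : Perm S) y = x := hg
    rw [← hg', key _ g.2]

/-- The standard bilinear form. -/
noncomputable def dotB (S : Type) [Fintype S] : LinearMap.BilinForm (ZMod 2) (S → ZMod 2) :=
  LinearMap.mk₂ (ZMod 2) (fun a b => ∑ x, a x * b x)
    (by intro a b c; simp [add_mul, Finset.sum_add_distrib])
    (by intro c a b; simp [Finset.mul_sum, mul_assoc])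
    (by intro a b c; simp [mul_add, Finset.sum_add_distrib])
    (by intro c a b; simp only [Pi.smul_apply, smul_eq_mul, Finset.mul_sum]
        refine Finset.sum_congr rfl fun x _ => by ring)

theorem dotB_apply [Fintype S] (a b : S → ZMod 2) : dotB S a b = ∑ x, a x * b x := rfl

theorem dotB_comm [Fintype S] (a b : S → ZMod 2) : dotB S a b = dotB S b a := by
  simp [dotB_apply, mul_comm]

theorem dotB_nondeg [Fintype S] : (dotB S).Nondegenerate := by
  classical
  have h1 : ∀ a : S → ZMod 2, (∀ b, dotB S a b = 0) → a = 0 := by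
    intro a h
    funext x
    have := h (Pi.single x 1)
    simpa [dotB_apply, Pi.single_apply] using this
  constructor
  · intro a h
    exact h1 a h
  · intro a h
    refine h1 a fun b => ?_
    rw [dotB_comm]
    exact h b

/-- dimension of an orthogonal complement -/
theorem finrank_orth [Fintype S] (W : Submodule (ZMod 2) (S → ZMod 2)) :
    Module.finrank (ZMod 2) ((dotB S).orthogonal W) + Module.finrank (ZMod 2) W
      = Fintype.card S := by
  have h := LinearMap.BilinForm.finrank_orthogonal (dotB_nondeg (S := S)) W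
  have h2 : Module.finrank (ZMod 2) W ≤ Module.finrank (ZMod 2) (S → ZMod 2) :=
    Submodule.finrank_le W
  rw [Module.finrank_fintype_fun_eq_card] at h h2
  omega

theorem mem_orth [Fintype S] {W : Submodule (ZMod 2) (S → ZMod 2)} {b : S → ZMod 2} :
    b ∈ (dotB S).orthogonal W ↔ ∀ a ∈ W, ∑ x, a x * b x = 0 :=
  LinearMap.BilinForm.mem_orthogonal_iff

theorem mem_orth_sup [Fintype S] {W₁ W₂ : Submodule (ZMod 2) (S → ZMod 2)} {b : S → ZMod 2} :
    b ∈ (dotB S).orthogonal (W₁ ⊔ W₂) ↔ b ∈ (dotB S).orthogonal W₁ ∧ b ∈ (dotB S).orthogonal W₂ := by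
  simp only [mem_orth]
  constructor
  · intro h
    exact ⟨fun a ha => h a (Submodule.mem_sup_left ha), fun a ha => h a (Submodule.mem_sup_right ha)⟩
  · rintro ⟨h1, h2⟩ a ha
    obtain ⟨a1, h3, a2, h4, rfl⟩ := Submodule.mem_sup.1 ha
    simp [add_mul, Finset.sum_add_distrib, h1 a1 h3, h2 a2 h4]

/-- The coboundary-like operator `t ↦ t + t ∘ σ`. -/
def shiftL (σ : Perm S) : (S → ZMod 2) →ₗ[ZMod 2] (S → ZMod 2) where
  toFun t := fun x => t x + t (σ x)
  map_add' a b := by
    funext x
    simp only [Pi.add_apply]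
    ring
  map_smul' c a := by
    funext x
    simp [mul_add]

theorem zmod2_add_self (a : ZMod 2) : a + a = 0 := CharTwo.add_self_eq_zero a

theorem zmod2_eq_of_add_eq_zero {a b : ZMod 2} (h : a + b = 0) : a = b := by
  have : a + b + b = b := by rw [h, zero_add]
  rwa [add_assoc, zmod2_add_self, add_zero] at this

theorem zmod2_add_eq_zero_iff {a b : ZMod 2} : a + b = 0 ↔ a = b :=
  ⟨zmod2_eq_of_add_eq_zero, fun h => by rw [h, zmod2_add_self]⟩

theorem ker_shiftL (σ : Perm S) :
    LinearMap.ker (shiftL σ) = InvSub (Perm.SameCycle.setoid σ) := by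
  ext k
  rw [LinearMap.mem_ker, mem_InvSub_perm]
  constructor
  · intro h x
    have := congrFun h x
    exact (zmod2_eq_of_add_eq_zero this).symm
  · intro h
    funext x
    show k x + k (σ x) = 0
    rw [h, zmod2_add_self]

theorem range_shiftL [Fintype S] (σ : Perm S) :
    LinearMap.range (shiftL σ) = (dotB S).orthogonal (InvSub (Perm.SameCycle.setoid σ)) := by
  have h1 := LinearMap.finrank_range_add_finrank_ker (shiftL σ)
  have h2 := finrank_orth (InvSub (Perm.SameCycle.setoid σ))
  rw [ker_shiftL, Module.finrank_fintype_fun_eq_card] at h1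
  refine Submodule.eq_of_le_of_finrank_le ?_ (by omega)
  rintro _ ⟨t, rfl⟩
  rw [mem_orth]
  intro a ha
  rw [mem_InvSub_perm] at ha
  have h3 : ∑ x, a x * t (σ x) = ∑ x, a x * t x := by
    rw [← Equiv.sum_comp σ (fun x => a x * t x)]
    refine Finset.sum_congr rfl fun x _ => by rw [ha]
  show ∑ x, a x * (t x + t (σ x)) = 0
  simp only [mul_add, Finset.sum_add_distrib]
  rw [h3, zmod2_add_self]

section Invol

variable {ι : Perm S} (hι2 : ∀ x, ι (ι x) = x) (hι1 : ∀ x, ι x ≠ x)

include hι2 hι1 in
theorem orth_C1 [Fintype S] :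
    (dotB S).orthogonal (InvSub (Perm.SameCycle.setoid ι)) = InvSub (Perm.SameCycle.setoid ι) := by
  classical
  ext b
  rw [mem_orth, mem_InvSub_perm]
  constructor
  · intro h x
    have h2 := h (Pi.single x 1 + Pi.single (ι x) 1) (by
      rw [mem_InvSub_perm]
      intro y
      simp only [Pi.add_apply, Pi.single_apply]
      have e1 : (ι y = x) ↔ (y = ι x) := by
        constructor
        · intro h; rw [← h, hι2]
        · intro h; rw [h, hι2]
      have e2 : (ι y = ι x) ↔ (y = x) := ι.injective.eq_iff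
      simp only [e1, e2]
      ring)
    simp only [Pi.add_apply, Pi.single_apply, add_mul, Finset.sum_add_distrib, ite_mul, one_mul,
      zero_mul, Finset.sum_ite_eq', Finset.mem_univ, if_true] at h2
    exact (zmod2_eq_of_add_eq_zero h2).symm
  · intro h a ha
    rw [mem_InvSub_perm] at ha
    refine Finset.sum_involution (fun x _ => ι x) ?_ ?_ ?_ ?_
    · intro x _
      rw [h, ha, zmod2_add_self]
    · intro x _ _
      exact hι1 x
    · intro x _
      exact Finset.mem_univ _
    · intro x _
      exact hι2 x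

include hι2 hι1 in
theorem card_eq_two_mul_C1 [Fintype S] :
    Fintype.card S = 2 * Module.finrank (ZMod 2) (InvSub (Perm.SameCycle.setoid ι)) := by
  have h := finrank_orth (InvSub (Perm.SameCycle.setoid ι))
  rw [orth_C1 hι2 hι1] at h
  omega

theorem inf_eq_comp (σ ι : Perm S) :
    InvSub (Perm.SameCycle.setoid ι) ⊓ InvSub (Perm.SameCycle.setoid σ)
      = InvSub (MulAction.orbitRel (Subgroup.closure {σ, ι}) S) := by
  ext k
  rw [Submodule.mem_inf, mem_InvSub_perm, mem_InvSub_perm, mem_InvSub_comp]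
  exact and_comm

theorem inf_face_eq_comp (σ ι : Perm S) :
    InvSub (Perm.SameCycle.setoid (σ * ι)) ⊓ InvSub (Perm.SameCycle.setoid σ)
      = InvSub (MulAction.orbitRel (Subgroup.closure {σ, ι}) S) := by
  ext k
  rw [Submodule.mem_inf, mem_InvSub_perm, mem_InvSub_perm, mem_InvSub_comp]
  constructor
  · rintro ⟨h1, h2⟩
    refine ⟨h2, fun x => ?_⟩
    rw [← h2, ← Perm.mul_apply, h1]
  · rintro ⟨h1, h2⟩
    refine ⟨fun x => ?_, h1⟩
    rw [Perm.mul_apply, h1, h2]

theorem finrank_map_shiftL [Fintype S] (σ : Perm S) (W : Submodule (ZMod 2) (S → ZMod 2)) :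
    Module.finrank (ZMod 2) (W.map (shiftL σ))
      + Module.finrank (ZMod 2) (W ⊓ InvSub (Perm.SameCycle.setoid σ) : Submodule _ _)
      = Module.finrank (ZMod 2) W := by
  have h := LinearMap.finrank_range_add_finrank_ker ((shiftL σ).domRestrict W)
  have e1 : LinearMap.range ((shiftL σ).domRestrict W) = W.map (shiftL σ) := by
    ext y
    constructor
    · rintro ⟨x, rfl⟩
      exact ⟨x.1, x.2, rfl⟩
    · rintro ⟨x, hx, rfl⟩
      exact ⟨⟨x, hx⟩, rfl⟩
  have e2 : LinearMap.ker ((shiftL σ).domRestrict W)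
      = (W ⊓ InvSub (Perm.SameCycle.setoid σ)).comap W.subtype := by
    ext y
    rw [LinearMap.mem_ker, Submodule.mem_comap, Submodule.mem_inf, ← ker_shiftL,
      LinearMap.mem_ker]
    constructor
    · intro h
      exact ⟨y.2, h⟩
    · intro h
      exact h.2
  rw [e1, e2] at h
  rw [← h]
  congr 1
  exact (LinearEquiv.finrank_eq (Submodule.comapSubtypeEquivOfLe inf_le_left)).symm

include hι2 hι1 in
/-- Euler's formula is equivalent to the Jordan property. -/
theorem isSphereMap_iff_jordan [Finite S] (σ : Perm S) :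
    IsSphereMap σ ι ↔ Jordan σ ι := by
  classical
  have := Fintype.ofFinite S
  -- the spaces
  set A0 := InvSub (Perm.SameCycle.setoid σ) with hA0
  set C1 := InvSub (Perm.SameCycle.setoid ι) with hC1
  set A2 := InvSub (Perm.SameCycle.setoid (σ * ι)) with hA2
  set C0 := InvSub (MulAction.orbitRel (Subgroup.closure {σ, ι}) S) with hC0
  have hmem2 : ∀ t : S → ZMod 2, t ∈ A2 ↔ ∀ x, t (σ x) = t (ι x) := by
    intro t
    rw [hA2, mem_InvSub_perm]
    constructor
    · intro h x
      have := h (ι x)
      rwa [Perm.mul_apply, hι2] at this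
    · intro h x
      rw [Perm.mul_apply, h, hι2]
  have hZ : ∀ z : S → ZMod 2, z ∈ (dotB S).orthogonal (C1 ⊔ A0) ↔
      (∀ x, z (ι x) = z x) ∧ ∃ t : S → ZMod 2, ∀ x, z x = t x + t (σ x) := by
    intro z
    rw [mem_orth_sup, orth_C1 hι2 hι1, ← range_shiftL, mem_InvSub_perm, LinearMap.mem_range]
    refine and_congr Iff.rfl ?_
    constructor
    · rintro ⟨t, ht⟩
      exact ⟨t, fun x => by rw [← ht]; rfl⟩
    · rintro ⟨t, ht⟩
      exact ⟨t, by funext x; rw [ht]; rfl⟩
  have hB : A2.map (shiftL σ) ≤ (dotB S).orthogonal (C1 ⊔ A0) := by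
    rintro _ ⟨t, ht, rfl⟩
    rw [hZ]
    have ht' := (hmem2 t).1 ht
    refine ⟨fun x => ?_, t, fun x => rfl⟩
    show t (ι x) + t (σ (ι x)) = t x + t (σ x)
    rw [ht', hι2, ht', add_comm]
  have hJ : Jordan σ ι ↔ (dotB S).orthogonal (C1 ⊔ A0) ≤ A2.map (shiftL σ) := by
    constructor
    · intro h z hz
      rw [hZ] at hz
      obtain ⟨t, h1, h2⟩ := h z hz.1 hz.2
      refine ⟨t, (hmem2 t).2 h2, ?_⟩
      funext x
      exact (h1 x).symm
    · intro h z h1 h2
      obtain ⟨t, ht, rfl⟩ := h ((hZ z).2 ⟨h1, h2⟩)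
      exact ⟨t, fun x => rfl, (hmem2 t).1 ht⟩
  have d1 : Module.finrank (ZMod 2) ((dotB S).orthogonal (C1 ⊔ A0)) +
      Module.finrank (ZMod 2) (C1 ⊔ A0 : Submodule _ _) = Fintype.card S := finrank_orth _
  have d2 : Module.finrank (ZMod 2) (C1 ⊔ A0 : Submodule _ _)
      + Module.finrank (ZMod 2) (C1 ⊓ A0 : Submodule _ _) =
      Module.finrank (ZMod 2) C1 + Module.finrank (ZMod 2) A0 :=
    Submodule.finrank_sup_add_finrank_inf_eq _ _
  have d3 : Module.finrank (ZMod 2) (A2.map (shiftL σ))
      + Module.finrank (ZMod 2) (A2 ⊓ A0 : Submodule _ _)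
      = Module.finrank (ZMod 2) A2 := finrank_map_shiftL σ A2
  have d4 : Fintype.card S = 2 * Module.finrank (ZMod 2) C1 := card_eq_two_mul_C1 hι2 hι1
  rw [inf_eq_comp σ ι] at d2
  rw [inf_face_eq_comp σ ι] at d3
  rw [← hC0] at d2 d3
  have c0 : Module.finrank (ZMod 2) A0 = Nat.card (Quotient (Perm.SameCycle.setoid σ)) :=
    finrank_InvSub _
  have c1 : Module.finrank (ZMod 2) C1 = Nat.card (Quotient (Perm.SameCycle.setoid ι)) :=
    finrank_InvSub _
  have c2 : Module.finrank (ZMod 2) A2 = Nat.card (Quotient (Perm.SameCycle.setoid (σ * ι))) :=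
    finrank_InvSub _
  have c3 : Module.finrank (ZMod 2) C0
      = Nat.card (MulAction.orbitRel.Quotient (Subgroup.closure {σ, ι}) S) :=
    finrank_InvSub _
  rw [hJ]
  unfold IsSphereMap
  rw [← c0, ← c1, ← c2, ← c3]
  have hle := Submodule.finrank_mono hB
  constructor
  · intro h
    have : A2.map (shiftL σ) = (dotB S).orthogonal (C1 ⊔ A0) :=
      Submodule.eq_of_le_of_finrank_le hB (by omega)
    rw [this]
  · intro h
    have hle2 := Submodule.finrank_mono h
    omega

end Invol

end Lin

end Pool.Agent.Lib.MP_09e2fc_co
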