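import Mathlib
import Pool.Agent.Lib.MP_09e2fc_co.Sphere

/-!
# Telescoping a face function along the drawn edges
-/

namespace Pool.Agent.Lib.MP_09e2fc_co

open Equiv

/-- `(σ, ι)` is a planarization of a graph with dart set `A` and dart reversal `κ`: darts of the
planarization are labelled by darts of the graph, the darts in the range of `inA` start at
vertices, all others start at crossing points. -/
structure IsPlan {S A : Type} (σ ι : Perm S) (L : S → A) (κ : A → A) (inA : A → S)
    (real : S → Prop) : Prop where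
  ι2 : ∀ x, ι (ι x) = x
  ι1 : ∀ x, ι x ≠ x
  κ2 : ∀ a, κ (κ a) = a
  real_in : ∀ a, real (inA a)
  L_in : ∀ a, L (inA a) = a
  in_L : ∀ x, real x → inA (L x) = x
  cross_real : ∀ x, ¬ real x → ¬ real (σ (σ x))
  cross_L : ∀ x, ¬ real x → L (σ (σ x)) = κ (L x)
  cross4 : ∀ x, ¬ real x → σ (σ (σ (σ x))) = x
  L_ι : ∀ x, L (ι x) = κ (L x)

open Classical in
theorem transfer {S A : Type} [Fintype S] {σ ι : Perm S} {L : S → A} {κ : A → A} {inA : A → S}
    {real : S → Prop} (P : IsPlan σ ι L κ inA real) (z : A → ZMod 2) (t : S → ZMod 2)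
    (ht1 : ∀ x, z (L x) = t x + t (σ x)) (ht2 : ∀ x, t (σ x) = t (ι x)) (a : A) :
    t (σ (inA a)) + t (inA (κ a))
      = ∑ x ∈ Finset.univ.filter (fun x => ¬ real x ∧ L x = a), z (L (σ x)) := by
  have e1 : ∀ x, ¬ real x → z (L (σ x)) = t (σ x) + t (σ (ι (σ (σ x)))) := by
    intro x hx
    rw [ht1, ht2 (ι (σ (σ x))), P.ι2]
  have e2 : ∑ x ∈ Finset.univ.filter (fun x => ¬ real x ∧ L x = a), z (L (σ x))
      = ∑ x ∈ Finset.univ.filter (fun x => ¬ real x ∧ L x = a), t (σ x)
        + ∑ x ∈ Finset.univ.filter (fun x => ¬ real x ∧ L x = a), t (σ (ι (σ (σ x)))) := by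
    rw [← Finset.sum_add_distrib]
    refine Finset.sum_congr rfl fun x hx => ?_
    rw [Finset.mem_filter] at hx
    exact e1 x hx.2.1
  have e3 : ∑ x ∈ Finset.univ.filter (fun x => ¬ real x ∧ L x = a), t (σ (ι (σ (σ x))))
      = ∑ y ∈ Finset.univ.filter (fun y => ¬ real (ι y) ∧ L y = a), t (σ y) := by
    refine Finset.sum_nbij' (fun x => ι (σ (σ x))) (fun y => σ (σ (ι y))) ?_ ?_ ?_ ?_ ?_
    · intro x hx
      simp only [Finset.mem_filter, Finset.mem_univ, true_and] at hx ⊢
      rw [P.ι2]
      refine ⟨P.cross_real x hx.1, ?_⟩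
      rw [P.L_ι, P.cross_L x hx.1, P.κ2, hx.2]
    · intro y hy
      simp only [Finset.mem_filter, Finset.mem_univ, true_and] at hy ⊢
      refine ⟨P.cross_real _ hy.1, ?_⟩
      rw [P.cross_L _ hy.1, P.L_ι, P.κ2, hy.2]
    · intro x hx
      simp only [Finset.mem_filter, Finset.mem_univ, true_and] at hx
      rw [P.ι2, P.cross4 x hx.1]
    · intro y hy
      simp only [Finset.mem_filter, Finset.mem_univ, true_and] at hy
      rw [P.cross4 _ hy.1, P.ι2]
    · intro x hx
      rfl
  have e4 : ∑ x ∈ Finset.univ.filter (fun x => L x = a), t (σ x)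
      = ∑ x ∈ Finset.univ.filter (fun x => ¬ real x ∧ L x = a), t (σ x) + t (σ (inA a)) := by
    have : Finset.univ.filter (fun x => L x = a)
        = insert (inA a) (Finset.univ.filter (fun x => ¬ real x ∧ L x = a)) := by
      ext x
      simp only [Finset.mem_filter, Finset.mem_univ, true_and, Finset.mem_insert]
      constructor
      · intro h
        by_cases hr : real x
        · left
          rw [← h, P.in_L x hr]
        · right
          exact ⟨hr, h⟩
      · rintro (h | h)
        · rw [h, P.L_in]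
        · exact h.2
    rw [this, Finset.sum_insert, add_comm]
    simp only [Finset.mem_filter, Finset.mem_univ, true_and, not_and]
    intro h
    exact absurd (P.real_in a) h
  have e5 : ∑ x ∈ Finset.univ.filter (fun x => L x = a), t (σ x)
      = ∑ x ∈ Finset.univ.filter (fun x => ¬ real (ι x) ∧ L x = a), t (σ x)
        + t (σ (ι (inA (κ a)))) := by
    have : Finset.univ.filter (fun x => L x = a)
        = insert (ι (inA (κ a))) (Finset.univ.filter (fun x => ¬ real (ι x) ∧ L x = a)) := by
      ext x
      simp only [Finset.mem_filter, Finset.mem_univ, true_and, Finset.mem_insert]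
      constructor
      · intro h
        by_cases hr : real (ι x)
        · left
          have := P.in_L _ hr
          rw [P.L_ι, h] at this
          rw [this, P.ι2]
        · right
          exact ⟨hr, h⟩
      · rintro (h | h)
        · rw [h, P.L_ι, P.L_in, P.κ2]
        · exact h.2
    rw [this, Finset.sum_insert, add_comm]
    simp only [Finset.mem_filter, Finset.mem_univ, true_and, not_and]
    intro h
    rw [P.ι2] at h
    exact absurd (P.real_in _) h
  rw [e2, e3]
  rw [e4] at e5
  have e6 : t (σ (ι (inA (κ a)))) = t (inA (κ a)) := by rw [ht2, P.ι2]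
  rw [e6] at e5
  generalize (∑ x ∈ Finset.univ.filter (fun x => ¬ real x ∧ L x = a), t (σ x)) = X at *
  generalize (∑ x ∈ Finset.univ.filter (fun x => ¬ real (ι x) ∧ L x = a), t (σ x)) = Y at *
  have : X + Y = (X + t (σ (inA a))) + (Y + t (inA (κ a))) + (t (σ (inA a)) + t (inA (κ a))) := by
    have h1 := zmod2_add_self (t (σ (inA a)))
    have h2 := zmod2_add_self (t (inA (κ a)))
    linear_combination (-1 : ZMod 2) * h1 - h2
  rw [this, e5, zmod2_add_self, zero_add]

end Pool.Agent.Lib.MP_09e2fc_co
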