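import Mathlib
import Pool.Agent.Lib.MP_09e2fc_co.Transfer

/-!
# Face functions of drawings
-/

namespace Pool.Agent.Lib.MP_09e2fc_co

open Equiv

variable {V : Type} {H : SimpleGraph V}

instance [Finite V] : Finite H.Dart := by
  classical
  have : Function.Injective (fun d : H.Dart => d.toProd) := SimpleGraph.Dart.toProd_injective
  exact Finite.of_injective _ this

instance [Finite V] (n : Sym2 V → ℕ) : Finite (Seg H n) := by
  have : Function.Injective
      (fun x : Seg H n => (⟨x.dart, ⟨x.idx, Nat.lt_succ_of_le x.2⟩⟩ :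
        Σ d : H.Dart, Fin (n d.edge + 1))) := by
    intro x y h
    have h1 : x.dart = y.dart := congrArg Sigma.fst h
    refine Seg.ext' h1 ?_
    have h2 : ∀ (p q : Σ d : H.Dart, Fin (n d.edge + 1)), p = q → (p.2 : ℕ) = q.2 := by
      intro p q h
      rw [h]
    exact h2 _ _ h
  exact Finite.of_injective _ this

/-- The first segment of a dart. -/
def inDart {n : Sym2 V → ℕ} (d : H.Dart) : Seg H n := ⟨(d, 0), Nat.zero_le _⟩

@[simp] theorem inDart_dart {n : Sym2 V → ℕ} (d : H.Dart) : (inDart (n := n) d).dart = d := rfl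
@[simp] theorem inDart_idx {n : Sym2 V → ℕ} (d : H.Dart) : (inDart (n := n) d).idx = 0 := rfl

theorem flip_dart {n : Sym2 V → ℕ} (x : Seg H n) : (flip H n x).dart = x.dart.symm := rfl
theorem flip_idx {n : Sym2 V → ℕ} (x : Seg H n) :
    (flip H n x).idx = n x.dart.edge - x.idx := rfl

theorem flip_flip {n : Sym2 V → ℕ} (x : Seg H n) : flip H n (flip H n x) = x :=
  (flip H n).left_inv x

theorem flip_ne {n : Sym2 V → ℕ} (x : Seg H n) : flip H n x ≠ x := by
  intro h
  have := congrArg Seg.dart h
  rw [flip_dart] at this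
  exact SimpleGraph.Dart.symm_ne _ this

theorem Seg.idx_le {n : Sym2 V → ℕ} (x : Seg H n) : x.idx ≤ n x.dart.edge := x.2

namespace Drawing

variable (D : Drawing H)

theorem cross_idx {x : Seg H D.n} (hx : x.idx ≠ 0) : (D.rot (D.rot x)).idx ≠ 0 := by
  have h := (D.rot_crossing x hx).2
  have := x.idx_le
  omega

theorem rot4 {x : Seg H D.n} (hx : x.idx ≠ 0) : D.rot (D.rot (D.rot (D.rot x))) = x := by
  have h1 := D.rot_crossing x hx
  have h2 := D.rot_crossing _ (D.cross_idx hx)
  refine Seg.ext' ?_ ?_
  · rw [h2.1, h1.1, SimpleGraph.Dart.symm_symm]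
  · have h3 := h2.2
    rw [h1.1, SimpleGraph.Dart.edge_symm] at h3
    have := h1.2
    omega

theorem isPlan : IsPlan D.rot (flip H D.n) Seg.dart SimpleGraph.Dart.symm inDart
    (fun x => x.idx = 0) where
  ι2 := flip_flip
  ι1 := flip_ne
  κ2 := SimpleGraph.Dart.symm_symm
  real_in := fun _ => rfl
  L_in := fun _ => rfl
  in_L := fun _ hx => Seg.ext' rfl hx.symm
  cross_real := fun _ hx => D.cross_idx hx
  cross_L := fun x hx => (D.rot_crossing x hx).1
  cross4 := fun _ hx => D.rot4 hx
  L_ι := fun _ => rfl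

theorem rot_in_idx (d : H.Dart) : (D.rot (inDart d)).idx = 0 :=
  ((D.rot_vertex (inDart d) (D.rot (inDart d)) rfl).1 ⟨1, by simp⟩).1

theorem rot_in_fst (d : H.Dart) : (D.rot (inDart d)).dart.fst = d.fst :=
  ((D.rot_vertex (inDart d) (D.rot (inDart d)) rfl).1 ⟨1, by simp⟩).2

/-- The rotation on the darts of `H`, as a function. -/
def rhoFun (d : H.Dart) : H.Dart := (D.rot (inDart d)).dart

theorem rot_in (d : H.Dart) : D.rot (inDart d) = inDart (D.rhoFun d) :=
  Seg.ext' rfl (D.rot_in_idx d)

theorem rhoFun_fst (d : H.Dart) : (D.rhoFun d).fst = d.fst := D.rot_in_fst d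

theorem rhoFun_inj : Function.Injective D.rhoFun := by
  intro d e h
  have h1 := D.rot_in d
  rw [h, ← D.rot_in e] at h1
  have h2 := D.rot.injective h1
  exact congrArg Seg.dart h2

/-- The rotation on the darts of `H`. -/
noncomputable def rho [Finite V] : Perm H.Dart :=
  Equiv.ofBijective D.rhoFun (Finite.injective_iff_bijective.1 D.rhoFun_inj)

theorem rho_apply [Finite V] (d : H.Dart) : D.rho d = D.rhoFun d := rfl

theorem rot_in' [Finite V] (d : H.Dart) : D.rot (inDart d) = inDart (D.rho d) := D.rot_in d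

end Drawing

open Classical in
/-- An even set of edges of `H`, as a function on darts: symmetric, with zero sum at each vertex. -/
def IsCyc [Fintype H.Dart] (z : H.Dart → ZMod 2) : Prop :=
  (∀ d, z d.symm = z d) ∧ ∀ K : V → ZMod 2, ∑ d, K d.fst * z d = 0

open Classical in
theorem Drawing.exists_pre [Fintype H.Dart] [Finite V] (D : Drawing H) {z : H.Dart → ZMod 2}
    (hz : IsCyc z) : ∃ t : Seg H D.n → ZMod 2, ∀ x, z x.dart = t x + t (D.rot x) := by
  have := Fintype.ofFinite (Seg H D.n)
  have key : (fun x : Seg H D.n => z x.dart) ∈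
      (dotB (Seg H D.n)).orthogonal (InvSub (Perm.SameCycle.setoid D.rot)) := by
    rw [mem_orth]
    intro k hk
    have hk' := mem_InvSub_perm.1 hk
    rw [← Finset.sum_filter_add_sum_filter_not Finset.univ (fun x : Seg H D.n => x.idx = 0)]
    have h2 : ∑ x ∈ Finset.univ.filter (fun x : Seg H D.n => ¬ x.idx = 0), k x * z x.dart = 0 := by
      refine Finset.sum_involution (fun x _ => D.rot (D.rot x)) ?_ ?_ ?_ ?_
      · intro x hx
        rw [Finset.mem_filter] at hx
        rw [hk', hk', (D.rot_crossing x hx.2).1, hz.1, zmod2_add_self]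
      · intro x hx _ h
        rw [Finset.mem_filter] at hx
        have h1 := (D.rot_crossing x hx.2).1
        rw [h] at h1
        exact SimpleGraph.Dart.symm_ne _ h1.symm
      · intro x hx
        rw [Finset.mem_filter] at hx ⊢
        exact ⟨Finset.mem_univ _, D.cross_idx hx.2⟩
      · intro x hx
        rw [Finset.mem_filter] at hx
        exact D.rot4 hx.2
    have h1 : ∑ x ∈ Finset.univ.filter (fun x : Seg H D.n => x.idx = 0), k x * z x.dart
        = ∑ d : H.Dart, k (inDart d) * z d := by
      refine Finset.sum_nbij' (fun x => x.dart) (fun d => inDart d) ?_ ?_ ?_ ?_ ?_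
      · intro x _; exact Finset.mem_univ _
      · intro d _; rw [Finset.mem_filter]; exact ⟨Finset.mem_univ _, rfl⟩
      · intro x hx
        rw [Finset.mem_filter] at hx
        exact Seg.ext' rfl hx.2.symm
      · intro d _; rfl
      · intro x hx
        rw [Finset.mem_filter] at hx
        have : x = inDart x.dart := Seg.ext' rfl hx.2
        exact congrArg (fun y => k y * z x.dart) this
    have hK : ∀ d d' : H.Dart, d.fst = d'.fst → k (inDart d) = k (inDart d') := by
      intro d d' h
      exact hk _ _ ((D.rot_vertex (inDart d) (inDart d') rfl).2 ⟨rfl, h.symm⟩)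
    have h3 := hz.2 (fun v => if h : ∃ d : H.Dart, d.fst = v then k (inDart h.choose) else 0)
    have h4 : ∑ d : H.Dart, k (inDart d) * z d = 0 := by
      rw [← h3]
      refine Finset.sum_congr rfl fun d _ => ?_
      have h : ∃ e : H.Dart, e.fst = d.fst := ⟨d, rfl⟩
      simp only [dif_pos h]
      rw [hK d h.choose h.choose_spec.symm]
    rw [h1, h2, h4, zero_add]
  rw [← range_shiftL] at key
  obtain ⟨t, ht⟩ := key
  exact ⟨t, fun x => (congrFun ht x).symm⟩

open Classical in
theorem Drawing.faceFun [Fintype H.Dart] [Finite V] (D : Drawing H) {z : H.Dart → ZMod 2}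
    (hz : IsCyc z) :
    ∃ u : H.Dart → ZMod 2, (∀ d, z d = u d + u (D.rho d)) ∧
      ∀ d, (∀ d', z d' ≠ 0 → Even (D.crossings d d')) → u (D.rho d) = u d.symm := by
  have := Fintype.ofFinite (Seg H D.n)
  have hJ : Jordan D.rot (flip H D.n) :=
    (isSphereMap_iff_jordan flip_flip flip_ne D.rot).1 D.sphere
  obtain ⟨t, ht1, ht2⟩ := hJ (fun x => z x.dart) (fun x => by rw [flip_dart, hz.1])
    (D.exists_pre hz)
  refine ⟨fun d => t (inDart d), ?_, ?_⟩
  · intro d
    have := ht1 (inDart d)
    rwa [D.rot_in'] at this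
  · intro d hd
    have h := transfer D.isPlan z t ht1 ht2 d
    rw [D.rot_in'] at h
    apply zmod2_eq_of_add_eq_zero
    show t (inDart (D.rho d)) + t (inDart d.symm) = 0
    rw [h]
    rw [← Finset.sum_fiberwise_of_maps_to
      (g := fun x : Seg H D.n => (D.rot x).dart.edge)
      (t := Finset.univ.image (fun x : Seg H D.n => (D.rot x).dart.edge))
      (fun x _ => Finset.mem_image_of_mem _ (Finset.mem_univ x))]
    refine Finset.sum_eq_zero fun e he => ?_
    obtain ⟨x0, -, hx0⟩ := Finset.mem_image.1 he
    have hconst : ∀ x : Seg H D.n, (D.rot x).dart.edge = e →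
        z (D.rot x).dart = z (D.rot x0).dart := by
      intro x hx
      rw [← hx0] at hx
      rcases (SimpleGraph.dart_edge_eq_iff _ _).1 hx with h | h
      · rw [h]
      · rw [h, hz.1]
    by_cases hz0 : z (D.rot x0).dart = 0
    · refine Finset.sum_eq_zero fun x hx => ?_
      rw [Finset.mem_filter] at hx
      rw [hconst x hx.2, hz0]
    · have heven := hd _ hz0
      have hcard : ∀ F : Finset (Seg H D.n),
          (∀ x, x ∈ F ↔ (¬ x.idx = 0 ∧ x.dart = d) ∧ (D.rot x).dart.edge = e) →
          F.card = D.crossings d (D.rot x0).dart := by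
        intro F hF
        unfold Drawing.crossings
        have h1 : F.card = Nat.card {x : Seg H D.n // x ∈ F} := by
          rw [Nat.card_eq_fintype_card, Fintype.card_coe]
        rw [h1]
        refine Nat.card_congr (Equiv.subtypeEquivRight fun x => ?_)
        rw [hF, hx0]
        tauto
      rw [Finset.sum_congr rfl (g := fun _ => z (D.rot x0).dart) (by
        intro x hx
        rw [Finset.mem_filter] at hx
        exact hconst x hx.2)]
      rw [Finset.sum_const, hcard _ (by
        intro x
        simp only [Finset.mem_filter, Finset.mem_univ, true_and])]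
      obtain ⟨m, hm⟩ := heven
      rw [hm, add_nsmul, zmod2_add_self]

end Pool.Agent.Lib.MP_09e2fc_co
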