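import Mathlib
import Pool.Agent.Lib.MP_09e2fc_co.Facts

/-!
# Certificates for sphere maps and transport along bijections
-/

namespace Pool.Agent.Lib.MP_09e2fc_co

open Equiv

theorem sameCycle_of_cert {S : Type} {K : Type} (r : Perm S) (L : S → K) (rep : K → S)
    (pos : S → ℕ) (h1 : ∀ x, L (r x) = L x)
    (h3 : ∀ x, x = rep (L x) ∨ pos (r.symm x) < pos x) :
    ∀ x, r.SameCycle (rep (L x)) x := by
  have key : ∀ m x, pos x = m → r.SameCycle (rep (L x)) x := by
    intro m
    induction m using Nat.strong_induction_on with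
    | _ m ih =>
      intro x hx
      rcases h3 x with h | h
      · rw [← h]
      · have h4 := ih (pos (r.symm x)) (by omega) (r.symm x) rfl
        have h5 : L (r.symm x) = L x := by
          rw [← h1 (r.symm x), Equiv.apply_symm_apply]
        rw [h5] at h4
        refine h4.trans ⟨1, ?_⟩
        simp
  exact fun x => key _ x rfl

theorem sameCycle_iff_of_cert {S : Type} {K : Type} (r : Perm S) (L : S → K) (rep : K → S)
    (pos : S → ℕ) (h1 : ∀ x, L (r x) = L x)
    (h3 : ∀ x, x = rep (L x) ∨ pos (r.symm x) < pos x) (x y : S) :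
    r.SameCycle x y ↔ L x = L y := by
  constructor
  · rintro ⟨k, rfl⟩
    have key : ∀ (i : ℤ) (x : S), L ((r ^ i) x) = L x := by
      intro i
      induction i with
      | zero => intro x; simp
      | succ n ih => intro x; rw [zpow_add_one, Perm.mul_apply, ih, h1]
      | pred n ih =>
        intro x
        rw [zpow_sub_one, Perm.mul_apply, ih]
        have := h1 (r⁻¹ x)
        simpa using this.symm
    exact (key k x).symm
  · intro h
    have a := sameCycle_of_cert r L rep pos h1 h3 x
    have b := sameCycle_of_cert r L rep pos h1 h3 y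
    rw [h] at a
    exact a.symm.trans b

theorem card_of_cert {S : Type} {N : ℕ} (r : Perm S) (L : S → Fin N) (rep : Fin N → S)
    (pos : S → ℕ) (h1 : ∀ x, L (r x) = L x) (h2 : ∀ j, L (rep j) = j)
    (h3 : ∀ x, x = rep (L x) ∨ pos (r.symm x) < pos x) :
    Nat.card (Quotient (Perm.SameCycle.setoid r)) = N := by
  have hiff := sameCycle_iff_of_cert r L rep pos h1 h3
  have e : Quotient (Perm.SameCycle.setoid r) ≃ Fin N :=
    { toFun := Quotient.lift L (fun a b h => (hiff a b).1 h)
      invFun := fun j => Quotient.mk _ (rep j)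
      left_inv := by
        intro q
        induction q using Quotient.inductionOn with
        | h x =>
          apply Quotient.sound
          exact sameCycle_of_cert r L rep pos h1 h3 x
      right_inv := h2 }
  rw [Nat.card_congr e, Nat.card_fin]

theorem card_comp_of_cert {S : Type} (σ ι : Perm S) (x0 : S) (pos : S → ℕ)
    (h : ∀ x, x = x0 ∨ pos (σ.symm x) < pos x ∨ pos (ι.symm x) < pos x) :
    Nat.card (MulAction.orbitRel.Quotient (Subgroup.closure {σ, ι}) S) = 1 := by
  have key : ∀ m x, pos x = m → (MulAction.orbitRel (Subgroup.closure {σ, ι}) S) x x0 := by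
    intro m
    induction m using Nat.strong_induction_on with
    | _ m ih =>
      intro x hx
      rcases h x with h | h | h
      · rw [h]
      · have h4 := ih (pos (σ.symm x)) (by omega) (σ.symm x) rfl
        refine (MulAction.orbitRel (Subgroup.closure {σ, ι}) S).trans' ?_ h4
        exact ⟨⟨σ, Subgroup.subset_closure (by simp)⟩, by
          show σ (σ.symm x) = x
          simp⟩
      · have h4 := ih (pos (ι.symm x)) (by omega) (ι.symm x) rfl
        refine (MulAction.orbitRel (Subgroup.closure {σ, ι}) S).trans' ?_ h4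
        exact ⟨⟨ι, Subgroup.subset_closure (by simp)⟩, by
          show ι (ι.symm x) = x
          simp⟩
  rw [Nat.card_eq_one_iff_exists]
  refine ⟨Quotient.mk _ x0, fun q => ?_⟩
  induction q using Quotient.inductionOn with
  | h x => exact Quotient.sound (key _ x rfl)

theorem Jordan.congr {S T : Type} (E : S ≃ T) {σ ι : Perm S} {σ' ι' : Perm T}
    (h1 : ∀ x, σ' (E x) = E (σ x)) (h2 : ∀ x, ι' (E x) = E (ι x)) (h : Jordan σ ι) :
    Jordan σ' ι' := by
  intro z hz hz2
  obtain ⟨t0, ht0⟩ := hz2
  obtain ⟨t, ht1, ht2⟩ := h (fun x => z (E x)) (fun x => by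
      show z (E (ι x)) = z (E x)
      rw [← h2, hz])
    ⟨fun x => t0 (E x), fun x => by
      show z (E x) = t0 (E x) + t0 (E (σ x))
      rw [← h1]
      exact ht0 _⟩
  refine ⟨fun y => t (E.symm y), fun y => ?_, fun y => ?_⟩
  · have e := ht1 (E.symm y)
    have e2 := h1 (E.symm y)
    rw [Equiv.apply_symm_apply] at e2
    show z y = t (E.symm y) + t (E.symm (σ' y))
    rw [e2, Equiv.symm_apply_apply, ← e, Equiv.apply_symm_apply]
  · have e := ht2 (E.symm y)
    have e2 := h1 (E.symm y)
    have e3 := h2 (E.symm y)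
    rw [Equiv.apply_symm_apply] at e2 e3
    show t (E.symm (σ' y)) = t (E.symm (ι' y))
    rw [e2, e3, Equiv.symm_apply_apply, Equiv.symm_apply_apply, e]

theorem sameCycle_congr {S T : Type} (E : S ≃ T) {σ : Perm S} {σ' : Perm T}
    (h1 : ∀ x, σ' (E x) = E (σ x)) (x y : S) : σ'.SameCycle (E x) (E y) ↔ σ.SameCycle x y := by
  have e : σ' = E.permCongr σ := by
    ext y
    rw [Equiv.permCongr_apply, ← h1, Equiv.apply_symm_apply]
  rw [e]
  constructor
  · rintro ⟨k, hk⟩
    refine ⟨k, ?_⟩
    have h2 : (E.permCongr σ) ^ k = E.permCongr (σ ^ k) :=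
      (map_zpow (Equiv.permCongrHom E) σ k).symm
    rw [h2, Equiv.permCongr_apply, Equiv.symm_apply_apply] at hk
    exact E.injective hk
  · rintro ⟨k, hk⟩
    refine ⟨k, ?_⟩
    have h2 : (E.permCongr σ) ^ k = E.permCongr (σ ^ k) :=
      (map_zpow (Equiv.permCongrHom E) σ k).symm
    rw [h2, Equiv.permCongr_apply, Equiv.symm_apply_apply, hk]

end Pool.Agent.Lib.MP_09e2fc_co
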