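import Mathlib
import Pool.Agent.Lib.MP_09e2fc_co.Transfer

/-!
# States of the insertion process

An abstract graph is given by a set `R` of darts with reversal `κ` and rotation `ρ`.  Every edge is
subdivided at its midpoint: the half edge at the start of the dart `r` has the darts `(r, false)`
(starting at the vertex of `r`) and `(r, true)` (starting at the midpoint).
-/

namespace Pool.Agent.Lib.MP_09e2fc_co

open Equiv

/-- Abstract data: darts, reversal, rotation, the exclusive edges `q1`, `q2` of the two graphs, and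
the face functions provided by a drawing with the parity property. -/
structure Setup (R : Type) where
  κ : R → R
  ρ : Perm R
  q1 : R → Prop
  q2 : R → Prop
  κ2 : ∀ r, κ (κ r) = r
  κ1 : ∀ r, κ r ≠ r
  q1κ : ∀ r, q1 r → q1 (κ r)
  q2κ : ∀ r, q2 r → q2 (κ r)
  disj : ∀ r, q1 r → ¬ q2 r
  F0 : ∀ ζ : R → ZMod 2, (∀ r, ζ (κ r) = ζ r) → (∃ u : R → ZMod 2, ∀ r, ζ r = u r + u (ρ r)) →
    (∀ r, ζ r ≠ 0 → ¬ q1 r ∧ ¬ q2 r) →
    ∃ u : R → ZMod 2, (∀ r, ζ r = u r + u (ρ r)) ∧ ∀ r, u (ρ r) = u (κ r)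
  F1 : ∀ ζ : R → ZMod 2, (∀ r, ζ (κ r) = ζ r) → (∃ u : R → ZMod 2, ∀ r, ζ r = u r + u (ρ r)) →
    (∀ r, ζ r ≠ 0 → ¬ q2 r) →
    ∃ u : R → ZMod 2, (∀ r, ζ r = u r + u (ρ r)) ∧ ∀ r, ¬ q2 r → u (ρ r) = u (κ r)
  F2 : ∀ ζ : R → ZMod 2, (∀ r, ζ (κ r) = ζ r) → (∃ u : R → ZMod 2, ∀ r, ζ r = u r + u (ρ r)) →
    (∀ r, ζ r ≠ 0 → ¬ q1 r) →
    ∃ u : R → ZMod 2, (∀ r, ζ r = u r + u (ρ r)) ∧ ∀ r, ¬ q1 r → u (ρ r) = u (κ r)

/-- Reversal of half edge darts. -/
def kA {R : Type} (a : R × Bool) : R × Bool := (a.1, !a.2)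

theorem kA_kA {R : Type} (a : R × Bool) : kA (kA a) = a := by
  simp [kA]

@[simp] theorem kA_fst {R : Type} (a : R × Bool) : (kA a).1 = a.1 := rfl

/-- A planar planarization of the graph in which the edges in `J` are complete while the others
consist of two stubs ending at leaves. -/
structure State {R : Type} (T : Setup R) (J : R → Prop) where
  S : Type
  fin : Finite S
  σ : Perm S
  ι : Perm S
  L : S → R × Bool
  inA : R × Bool → S
  real : S → Prop
  plan : IsPlan σ ι L kA inA real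
  Jκ : ∀ r, J r → J (T.κ r)
  rot_out : ∀ r, σ (inA (r, false)) = inA (T.ρ r, false)
  rot_mid : ∀ r, J r → σ (inA (r, true)) = inA (T.κ r, true)
  rot_leaf : ∀ r, ¬ J r → σ (inA (r, true)) = inA (r, true)
  crossTp : ∀ x, ¬ real x → (T.q1 (L x).1 ∧ T.q2 (L (σ x)).1) ∨ (T.q2 (L x).1 ∧ T.q1 (L (σ x)).1)
  comp : ∀ k : R → ZMod 2, (∀ r, k (T.ρ r) = k r) → (∀ r, J r → k (T.κ r) = k r) →
    ∀ x, ¬ real x → k (L x).1 = k (L (σ x)).1
  pos : S → ℕ
  pos_lt : ∀ x, ¬ real x → pos (ι (σ (σ x))) < pos x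
  jordan : Jordan σ ι

/-- Two corners lie in the same face. -/
def SF {S : Type} (σ ι : Perm S) (x y : S) : Prop :=
  ∀ t : S → ZMod 2, (∀ w, t (σ w) = t (ι w)) → t x = t y

theorem SF.refl {S : Type} {σ ι : Perm S} (x : S) : SF σ ι x x := fun _ _ => rfl
theorem SF.symm {S : Type} {σ ι : Perm S} {x y : S} (h : SF σ ι x y) : SF σ ι y x :=
  fun t ht => (h t ht).symm
theorem SF.trans {S : Type} {σ ι : Perm S} {x y z : S} (h : SF σ ι x y) (h' : SF σ ι y z) :
    SF σ ι x z := fun t ht => (h t ht).trans (h' t ht)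
theorem SF.step {S : Type} {σ ι : Perm S} (w : S) : SF σ ι (σ w) (ι w) := fun _ ht => ht w

section Seg

variable {S : Type}

/-- An initial segment of a cycle of a permutation. -/
theorem exists_segment [Finite S] (φ : Perm S) {m e : S} (h : φ.SameCycle m e) :
    ∃ P : S → Prop, P m ∧ P e ∧ (∀ w, P w → φ.SameCycle m w) ∧ (∀ w, P w → w ≠ e → P (φ w)) ∧
      (∀ w, P (φ w) → φ w ≠ m → P w) ∧ (φ e ≠ m → ¬ P (φ e)) ∧
      (∀ u, φ u = m → u ≠ e → ¬ P u) := by
  classical
  have hex : ∃ n : ℕ, (φ ^ n) m = e := h.exists_nat_pow_eq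
  set n0 := Nat.find hex with hn0
  have hn : (φ ^ n0) m = e := Nat.find_spec hex
  have hmin : ∀ k, k < n0 → (φ ^ k) m ≠ e := fun k hk => Nat.find_min hex hk
  have hper : ∀ p, 0 < p → p ≤ n0 → (φ ^ p) m ≠ m := by
    intro p hp hle hpm
    apply hmin (n0 - p) (by omega)
    have : (φ ^ (n0 - p)) ((φ ^ p) m) = (φ ^ n0) m := by
      rw [← Perm.mul_apply, ← pow_add]
      congr 2
      omega
    rw [hpm] at this
    rw [this, hn]
  refine ⟨fun w => ∃ i, i ≤ n0 ∧ (φ ^ i) m = w, ⟨0, Nat.zero_le _, rfl⟩, ⟨n0, le_rfl, hn⟩, ?_, ?_,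
    ?_, ?_, ?_⟩
  · rintro w ⟨i, -, rfl⟩
    exact ⟨i, by simp⟩
  · rintro w ⟨i, hi, rfl⟩ hne
    have : i ≠ n0 := by
      rintro rfl
      exact hne hn
    exact ⟨i + 1, by omega, by rw [pow_succ', Perm.mul_apply]⟩
  · rintro w ⟨i, hi, hw⟩ hne
    rcases Nat.eq_zero_or_pos i with h0 | hpos
    · subst h0
      exact absurd hw.symm hne
    · refine ⟨i - 1, by omega, ?_⟩
      apply φ.injective
      rw [← hw, ← Perm.mul_apply, ← pow_succ']
      congr 2
      omega
  · rintro hne ⟨i, hi, hw⟩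
    rcases Nat.eq_zero_or_pos i with h0 | hpos
    · subst h0
      exact hne hw.symm
    · apply hmin (i - 1) (by omega)
      apply φ.injective
      rw [← hw, ← Perm.mul_apply, ← pow_succ']
      congr 2
      omega
  · rintro u hu hne ⟨i, hi, hw⟩
    have h1 : (φ ^ (i + 1)) m = m := by rw [pow_succ', Perm.mul_apply, hw, hu]
    by_cases h2 : i + 1 ≤ n0
    · exact hper (i + 1) (by omega) h2 h1
    · have : i = n0 := by omega
      subst this
      exact hne (hw.symm.trans hn)

/-- The face permutation. -/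
def faceP (σ ι : Perm S) : Perm S := ι * σ⁻¹

theorem faceP_σ (σ ι : Perm S) (x : S) : faceP σ ι (σ x) = ι x := by
  simp [faceP]

theorem faceInv_iff (σ ι : Perm S) {α : Type} (t : S → α) :
    (∀ w, t (σ w) = t (ι w)) ↔ ∀ w, t (faceP σ ι w) = t w := by
  constructor
  · intro h w
    have := h (σ⁻¹ w)
    rw [← faceP_σ σ ι] at this
    simpa using this.symm
  · intro h w
    rw [← faceP_σ σ ι, h]

theorem const_of_sameCycle {φ : Perm S} {α : Type} {t : S → α} (h : ∀ w, t (φ w) = t w) {x y : S}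
    (hxy : φ.SameCycle x y) : t x = t y := by
  obtain ⟨k, rfl⟩ := hxy
  have key : ∀ (i : ℤ) (x : S), t ((φ ^ i) x) = t x := by
    intro i
    induction i with
    | zero => intro x; simp
    | succ n ih => intro x; rw [zpow_add_one, Perm.mul_apply, ih, h]
    | pred n ih =>
      intro x
      rw [zpow_sub_one, Perm.mul_apply, ih]
      have := h (φ⁻¹ x)
      simpa using this.symm
  exact (key k x).symm

open Classical in
theorem SF_iff_sameCycle {σ ι : Perm S} {x y : S} :
    SF σ ι x y ↔ (faceP σ ι).SameCycle x y := by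
  constructor
  · intro h
    have h1 := h (fun w => if (faceP σ ι).SameCycle x w then 1 else 0) (by
      refine (faceInv_iff σ ι (fun w => if (faceP σ ι).SameCycle x w then (1 : ZMod 2) else 0)).2 ?_
      intro w
      have : (faceP σ ι).SameCycle x (faceP σ ι w) ↔ (faceP σ ι).SameCycle x w :=
        Equiv.Perm.sameCycle_apply_right
      simp only [this])
    by_contra hne
    simp only [Equiv.Perm.SameCycle.refl, if_true, if_neg hne] at h1
    exact absurd h1 (by decide)
  · intro h t ht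
    rw [faceInv_iff] at ht
    exact const_of_sameCycle ht h

end Seg

namespace State

variable {R : Type} {T : Setup R} {J : R → Prop} (M : State T J)

theorem real_σ {x : M.S} (hx : ¬ M.real x) : ¬ M.real (M.σ x) := by
  intro h
  apply hx
  have h1 := M.plan.in_L _ h
  rcases hL : M.L (M.σ x) with ⟨r, b⟩
  rw [hL] at h1
  cases b with
  | false =>
    have h2 := M.rot_out (T.ρ.symm r)
    rw [Equiv.apply_symm_apply, h1] at h2
    rw [← M.σ.injective h2]
    exact M.plan.real_in _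
  | true =>
    by_cases hr : J r
    · have h2 := M.rot_mid (T.κ r) (M.Jκ r hr)
      rw [T.κ2, h1] at h2
      rw [← M.σ.injective h2]
      exact M.plan.real_in _
    · have h2 := M.rot_leaf r hr
      rw [h1] at h2
      rw [← M.σ.injective h2]
      exact h

theorem inA_inj : Function.Injective M.inA := by
  intro a b h
  rw [← M.plan.L_in a, h, M.plan.L_in]

theorem L_ι_fst (x : M.S) : (M.L (M.ι x)).1 = (M.L x).1 := by
  rw [M.plan.L_ι]
  rfl

/-- Component functions of the graph of complete edges are component functions of the map. -/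
theorem comp_inv (k : R → ZMod 2) (h1 : ∀ r, k (T.ρ r) = k r) (h2 : ∀ r, J r → k (T.κ r) = k r)
    (x : M.S) : k (M.L (M.σ x)).1 = k (M.L x).1 := by
  by_cases hx : M.real x
  · have h3 := M.plan.in_L x hx
    rcases hL : M.L x with ⟨r, b⟩
    rw [hL] at h3
    rw [← h3]
    cases b with
    | false => rw [M.rot_out, M.plan.L_in]; exact h1 r
    | true =>
      by_cases hr : J r
      · rw [M.rot_mid r hr, M.plan.L_in]; exact h2 r hr
      · rw [M.rot_leaf r hr, M.plan.L_in]
  · exact (M.comp k h1 h2 x hx).symm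

theorem comp_SF (k : R → ZMod 2) (h1 : ∀ r, k (T.ρ r) = k r) (h2 : ∀ r, J r → k (T.κ r) = k r)
    {x y : M.S} (h : SF M.σ M.ι x y) : k (M.L x).1 = k (M.L y).1 := by
  refine h (fun x => k (M.L x).1) fun w => ?_
  show k (M.L (M.σ w)).1 = k (M.L (M.ι w)).1
  rw [M.comp_inv k h1 h2, M.L_ι_fst]

end State

end Pool.Agent.Lib.MP_09e2fc_co
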