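import Mathlib
import Pool.Agent.Lib.MP_09e2fc_co.State

/-!
# Joining two leaves
-/

namespace Pool.Agent.Lib.MP_09e2fc_co

open Equiv

section

variable {S : Type} {σ ι : Perm S}

theorem one_of_ne {a b : ZMod 2} (h : a ≠ b) : a + b = 1 := by
  rcases zmod2_cases' a with rfl | rfl <;> rcases zmod2_cases' b with rfl | rfl <;>
    first | (exact absurd rfl h) | decide
where
  zmod2_cases' (a : ZMod 2) : a = 0 ∨ a = 1 := by revert a; decide

theorem zcases (a : ZMod 2) : a = 0 ∨ a = 1 := by revert a; decide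

open Classical in
/-- The permutation `σ` with the fixed points `p`, `q` exchanged. -/
theorem swap_apply_of {p q : S} (w : S) (hp : w ≠ p) (hq : w ≠ q) :
    (σ * swap p q) w = σ w := by
  rw [Perm.mul_apply, swap_apply_of_ne_of_ne hp hq]

open Classical in
theorem exists_B_join [Finite S] {p q : S} (hpq : p ≠ q) (hp : σ p = p)
    (hq : σ q = q) (hSF : SF σ ι p q) :
    ∃ B : S → ZMod 2, (∀ w, B ((σ * swap p q) w) = B (ι w)) ∧ B p + B ((σ * swap p q) p) = 1 := by
  set φ := faceP σ ι with hφ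
  have f1 : φ p = ι p := by
    conv_lhs => rw [← hp]
    exact faceP_σ σ ι p
  have f2 : φ q = ι q := by
    conv_lhs => rw [← hq]
    exact faceP_σ σ ι q
  have hcyc : φ.SameCycle (φ p) q := by
    rw [Equiv.Perm.sameCycle_apply_left]
    exact SF_iff_sameCycle.1 hSF
  obtain ⟨P, Pm, Pe, -, P3, P4, P5, P6⟩ := exists_segment φ hcyc
  have hmne : ι q ≠ φ p := by
    rw [f1]
    intro h
    exact hpq (ι.injective h).symm
  have notp : ¬ P p := P6 p rfl hpq
  have notιq : ¬ P (ι q) := by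
    rw [← f2]
    exact P5 (by rw [f2]; exact hmne)
  have hswp : (σ * swap p q) p = q := by rw [Perm.mul_apply, swap_apply_left, hq]
  have hswq : (σ * swap p q) q = p := by rw [Perm.mul_apply, swap_apply_right, hp]
  refine ⟨fun w => if P w then 1 else 0, ?_, ?_⟩
  · intro w
    by_cases h1 : w = p
    · subst h1
      show (if P ((σ * swap w q) w) then (1 : ZMod 2) else 0) = if P (ι w) then 1 else 0
      rw [hswp, if_pos Pe, ← f1, if_pos Pm]
    · by_cases h2 : w = q
      · subst h2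
        show (if P ((σ * swap p w) w) then (1 : ZMod 2) else 0) = if P (ι w) then 1 else 0
        rw [hswq, if_neg notp, if_neg notιq]
      · show (if P ((σ * swap p q) w) then (1 : ZMod 2) else 0) = if P (ι w) then 1 else 0
        rw [swap_apply_of w h1 h2]
        have hne : σ w ≠ q := by
          intro h
          rw [← hq] at h
          exact h2 (σ.injective h)
        have hιne : ι w ≠ φ p := by
          rw [f1]
          intro h
          exact h1 (ι.injective h)
        have hiff : P (σ w) ↔ P (ι w) := by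
          constructor
          · intro h
            have := P3 _ h hne
            rwa [hφ, faceP_σ] at this
          · intro h
            apply P4
            · rw [hφ, faceP_σ]; exact h
            · rw [hφ, faceP_σ]; exact hιne
        simp only [hiff]
  · show (if P p then (1 : ZMod 2) else 0) + (if P ((σ * swap p q) p) then 1 else 0) = 1
    rw [hswp, if_neg notp, if_pos Pe, zero_add]

open Classical in
theorem jordan_join_aux [Finite S] (hJ : Jordan σ ι) {p q : S} (hp : σ p = p)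
    (hq : σ q = q) (z t : S → ZMod 2) (hz : ∀ x, z (ι x) = z x)
    (ht : ∀ x, z x = t x + t ((σ * swap p q) x)) (hzp : z p = 0)
    (hadj : ∀ t0 : S → ZMod 2, (∀ x, z x = t0 x + t0 (σ x)) → (∀ x, t0 (σ x) = t0 (ι x)) →
      ∃ t1 : S → ZMod 2, (∀ x, z x = t1 x + t1 (σ x)) ∧ (∀ x, t1 (σ x) = t1 (ι x)) ∧
        t1 p = t1 q) :
    ∃ t0 : S → ZMod 2, (∀ x, z x = t0 x + t0 ((σ * swap p q) x)) ∧
      ∀ x, t0 ((σ * swap p q) x) = t0 (ι x) := by
  have hswp : (σ * swap p q) p = q := by rw [Perm.mul_apply, swap_apply_left, hq]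
  have hswq : (σ * swap p q) q = p := by rw [Perm.mul_apply, swap_apply_right, hp]
  have hzq : z q = 0 := by
    have h1 := ht p
    have h2 := ht q
    rw [hswp] at h1
    rw [hswq] at h2
    rw [h2, add_comm, ← h1, hzp]
  obtain ⟨t0, h1, h2⟩ := hJ z hz ⟨t, fun x => by
    by_cases hx1 : x = p
    · rw [hx1, hp, hzp, zmod2_add_self]
    · by_cases hx2 : x = q
      · rw [hx2, hq, hzq, zmod2_add_self]
      · rw [ht x, swap_apply_of x hx1 hx2]⟩
  obtain ⟨t1, h3, h4, h5⟩ := hadj t0 h1 h2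
  refine ⟨t1, fun x => ?_, fun x => ?_⟩
  · by_cases hx1 : x = p
    · rw [hx1, hswp, h5, zmod2_add_self, hzp]
    · by_cases hx2 : x = q
      · rw [hx2, hswq, h5, zmod2_add_self, hzq]
      · rw [h3 x, swap_apply_of x hx1 hx2]
  · by_cases hx1 : x = p
    · rw [hx1, hswp, ← h5, ← h4 p, hp]
    · by_cases hx2 : x = q
      · rw [hx2, hswq, h5, ← h4 q, hq]
      · rw [swap_apply_of x hx1 hx2, h4]

open Classical in
theorem jordan_add_B {σ' ι : Perm S} (hι2 : ∀ x, ι (ι x) = x) {B : S → ZMod 2}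
    (B1 : ∀ w, B (σ' w) = B (ι w)) (z t : S → ZMod 2) (hz : ∀ x, z (ι x) = z x)
    (ht : ∀ x, z x = t x + t (σ' x))
    (h : ∀ z₁ t₁ : S → ZMod 2, (∀ x, z₁ (ι x) = z₁ x) → (∀ x, z₁ x = t₁ x + t₁ (σ' x)) →
      (∀ x, z₁ x = z x + (B x + B (σ' x))) →
      ∃ t0 : S → ZMod 2, (∀ x, z₁ x = t0 x + t0 (σ' x)) ∧ ∀ x, t0 (σ' x) = t0 (ι x)) :
    ∃ t0 : S → ZMod 2, (∀ x, z x = t0 x + t0 (σ' x)) ∧ ∀ x, t0 (σ' x) = t0 (ι x) := by
  obtain ⟨t0, h1, h2⟩ := h (fun x => z x + (B x + B (σ' x))) (fun x => t x + B x)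
    (fun x => by
      show z (ι x) + (B (ι x) + B (σ' (ι x))) = z x + (B x + B (σ' x))
      rw [B1 (ι x), hι2, B1 x, hz, add_comm (B (ι x))])
    (fun x => by
      show z x + (B x + B (σ' x)) = t x + B x + (t (σ' x) + B (σ' x))
      rw [ht x]
      ring)
    (fun x => rfl)
  refine ⟨fun x => t0 x + B x, fun x => ?_, fun x => ?_⟩
  · have := h1 x
    have e1 := zmod2_add_self (B x)
    have e2 := zmod2_add_self (B (σ' x))
    show z x = t0 x + B x + (t0 (σ' x) + B (σ' x))
    have e3 : z x = (z x + (B x + B (σ' x))) + (B x + B (σ' x)) := by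
      linear_combination - e1 - e2
    rw [e3, this]
    ring
  · show t0 (σ' x) + B (σ' x) = t0 (ι x) + B (ι x)
    rw [h2, B1]

open Classical in
theorem jordan_join_same [Finite S] (hι2 : ∀ x, ι (ι x) = x) (hJ : Jordan σ ι) {p q : S}
    (hpq : p ≠ q) (hp : σ p = p) (hq : σ q = q) (hSF : SF σ ι p q) :
    Jordan (σ * swap p q) ι := by
  obtain ⟨B, B1, B2⟩ := exists_B_join hpq hp hq hSF
  have hadj : ∀ z : S → ZMod 2, ∀ t0 : S → ZMod 2, (∀ x, z x = t0 x + t0 (σ x)) →
      (∀ x, t0 (σ x) = t0 (ι x)) →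
      ∃ t1 : S → ZMod 2, (∀ x, z x = t1 x + t1 (σ x)) ∧ (∀ x, t1 (σ x) = t1 (ι x)) ∧
        t1 p = t1 q := fun z t0 h1 h2 => ⟨t0, h1, h2, hSF t0 h2⟩
  intro z hz hz2
  obtain ⟨t, ht⟩ := hz2
  rcases zcases (z p) with h0 | h1
  · exact jordan_join_aux hJ hp hq z t hz ht h0 (hadj z)
  · refine jordan_add_B hι2 B1 z t hz ht fun z₁ t₁ hz₁ ht₁ hzz => ?_
    refine jordan_join_aux hJ hp hq z₁ t₁ hz₁ ht₁ ?_ (hadj z₁)
    rw [hzz, h1, B2]
    decide

open Classical in
theorem jordan_join_diff [Finite S] (hι2 : ∀ x, ι (ι x) = x) (hι1 : ∀ x, ι x ≠ x)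
    (hJ : Jordan σ ι) {p q : S} (hp : σ p = p) (hq : σ q = q) {k : S → ZMod 2}
    (k1 : ∀ x, k (σ x) = k x) (k2 : ∀ x, k (ι x) = k x) (k3 : k p ≠ k q) :
    Jordan (σ * swap p q) ι := by
  have := Fintype.ofFinite S
  have hswp : (σ * swap p q) p = q := by rw [Perm.mul_apply, swap_apply_left, hq]
  have hswq : (σ * swap p q) q = p := by rw [Perm.mul_apply, swap_apply_right, hp]
  have hadj : ∀ z : S → ZMod 2, ∀ t0 : S → ZMod 2, (∀ x, z x = t0 x + t0 (σ x)) →
      (∀ x, t0 (σ x) = t0 (ι x)) →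
      ∃ t1 : S → ZMod 2, (∀ x, z x = t1 x + t1 (σ x)) ∧ (∀ x, t1 (σ x) = t1 (ι x)) ∧
        t1 p = t1 q := by
    intro z t0 h1 h2
    by_cases h : t0 p = t0 q
    · exact ⟨t0, h1, h2, h⟩
    · refine ⟨fun x => t0 x + k x, fun x => ?_, fun x => ?_, ?_⟩
      · show z x = t0 x + k x + (t0 (σ x) + k (σ x))
        rw [k1, h1 x]
        linear_combination - zmod2_add_self (k x)
      · show t0 (σ x) + k (σ x) = t0 (ι x) + k (ι x)
        rw [k1, k2, h2]
      · show t0 p + k p = t0 q + k q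
        have e1 := one_of_ne h
        have e2 := one_of_ne k3
        apply zmod2_eq_of_add_eq_zero
        have : t0 p + k p + (t0 q + k q) = (t0 p + t0 q) + (k p + k q) := by ring
        rw [this, e1, e2]
        decide
  intro z hz hz2
  obtain ⟨t, ht⟩ := hz2
  refine jordan_join_aux hJ hp hq z t hz ht ?_ (hadj z)
  -- sum of `k * z`
  have hA : ∑ x, k x * z x = 0 := by
    refine Finset.sum_involution (fun x _ => ι x) ?_ ?_ ?_ ?_
    · intro x _
      rw [k2, hz, zmod2_add_self]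
    · intro x _ _
      exact hι1 x
    · intro x _
      exact Finset.mem_univ _
    · intro x _
      exact hι2 x
  have hB : ∑ x, k x * z x = ∑ x, (k x + k ((σ * swap p q) x)) * t ((σ * swap p q) x) := by
    have e1 : ∑ x, k x * z x = ∑ x, k x * t x + ∑ x, k x * t ((σ * swap p q) x) := by
      rw [← Finset.sum_add_distrib]
      refine Finset.sum_congr rfl fun x _ => ?_
      rw [ht x, mul_add]
    have e2 : ∑ x, k x * t x = ∑ x, k ((σ * swap p q) x) * t ((σ * swap p q) x) :=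
      (Equiv.sum_comp (σ * swap p q) (fun x => k x * t x)).symm
    rw [e1, e2, ← Finset.sum_add_distrib]
    refine Finset.sum_congr rfl fun x _ => ?_
    ring
  have hpq : p ≠ q := fun h => k3 (by rw [h])
  have hC : ∑ x, (k x + k ((σ * swap p q) x)) * t ((σ * swap p q) x) = t q + t p := by
    rw [← Finset.sum_subset (Finset.subset_univ ({p, q} : Finset S))]
    · rw [Finset.sum_pair hpq, hswp, hswq, one_of_ne k3, one_of_ne (Ne.symm k3)]
      ring
    · intro x _ hx
      simp only [Finset.mem_insert, Finset.mem_singleton, not_or] at hx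
      rw [swap_apply_of x hx.1 hx.2, k1, zmod2_add_self, zero_mul]
  rw [ht p, hswp, add_comm, ← hC, ← hB, hA]

end

end Pool.Agent.Lib.MP_09e2fc_co
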