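import Mathlib
import Pool.Agent.Lib.MP_09e2fc_co.Join

/-!
# Joining the two leaves of an edge
-/

namespace Pool.Agent.Lib.MP_09e2fc_co

open Equiv

namespace State

variable {R : Type} {T : Setup R} {J : R → Prop} (M : State T J)

include M in
theorem notJκ {r : R} (hr : ¬ J r) : ¬ J (T.κ r) := by
  intro h
  have := M.Jκ _ h
  rw [T.κ2] at this
  exact hr this

open Classical in
/-- The state after joining the two leaves of the edge of `r`. -/
noncomputable def join (r : R) (hr : ¬ J r)
    (hJ : Jordan (M.σ * swap (M.inA (r, true)) (M.inA (T.κ r, true))) M.ι) :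
    State T (fun s => J s ∨ s = r ∨ s = T.κ r) where
  S := M.S
  fin := M.fin
  σ := M.σ * swap (M.inA (r, true)) (M.inA (T.κ r, true))
  ι := M.ι
  L := M.L
  inA := M.inA
  real := M.real
  plan := by
    have key : ∀ x, ¬ M.real x →
        (M.σ * swap (M.inA (r, true)) (M.inA (T.κ r, true))) x = M.σ x := by
      intro x hx
      refine swap_apply_of x ?_ ?_
      · rintro rfl
        exact hx (M.plan.real_in _)
      · rintro rfl
        exact hx (M.plan.real_in _)
    refine
      { ι2 := M.plan.ι2
        ι1 := M.plan.ι1
        κ2 := M.plan.κ2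
        real_in := M.plan.real_in
        L_in := M.plan.L_in
        in_L := M.plan.in_L
        cross_real := ?_
        cross_L := ?_
        cross4 := ?_
        L_ι := M.plan.L_ι }
    · intro x hx
      rw [key x hx, key _ (M.real_σ hx)]
      exact M.plan.cross_real x hx
    · intro x hx
      rw [key x hx, key _ (M.real_σ hx)]
      exact M.plan.cross_L x hx
    · intro x hx
      rw [key x hx, key _ (M.real_σ hx), key _ (M.plan.cross_real x hx),
        key _ (M.real_σ (M.plan.cross_real x hx))]
      exact M.plan.cross4 x hx
  Jκ := by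
    rintro s (h | rfl | rfl)
    · exact Or.inl (M.Jκ s h)
    · exact Or.inr (Or.inr rfl)
    · rw [T.κ2]
      exact Or.inr (Or.inl rfl)
  rot_out := by
    intro s
    rw [swap_apply_of]
    · exact M.rot_out s
    · intro h
      have := M.inA_inj h
      simp at this
    · intro h
      have := M.inA_inj h
      simp at this
  rot_mid := by
    have hr' := M.notJκ hr
    rintro s (h | rfl | rfl)
    · rw [swap_apply_of]
      · exact M.rot_mid s h
      · intro h2
        have := M.inA_inj h2
        simp only [Prod.mk.injEq, and_true] at this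
        subst this
        exact hr h
      · intro h2
        have := M.inA_inj h2
        simp only [Prod.mk.injEq, and_true] at this
        subst this
        exact hr' h
    · rw [Perm.mul_apply, swap_apply_left, M.rot_leaf _ hr']
    · rw [Perm.mul_apply, swap_apply_right, M.rot_leaf _ hr, T.κ2]
  rot_leaf := by
    intro s hs
    rw [not_or, not_or] at hs
    rw [swap_apply_of]
    · exact M.rot_leaf s hs.1
    · intro h2
      have := M.inA_inj h2
      simp only [Prod.mk.injEq, and_true] at this
      exact hs.2.1 this
    · intro h2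
      have := M.inA_inj h2
      simp only [Prod.mk.injEq, and_true] at this
      exact hs.2.2 this
  crossTp := by
    intro x hx
    rw [swap_apply_of]
    · exact M.crossTp x hx
    · rintro rfl
      exact hx (M.plan.real_in _)
    · rintro rfl
      exact hx (M.plan.real_in _)
  comp := by
    intro k h1 h2 x hx
    rw [swap_apply_of]
    · exact M.comp k h1 (fun s hs => h2 s (Or.inl hs)) x hx
    · rintro rfl
      exact hx (M.plan.real_in _)
    · rintro rfl
      exact hx (M.plan.real_in _)
  pos := M.pos
  pos_lt := by
    intro x hx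
    rw [swap_apply_of x, swap_apply_of (M.σ x)]
    · exact M.pos_lt x hx
    · intro h
      apply M.real_σ hx
      rw [h]
      exact M.plan.real_in _
    · intro h
      apply M.real_σ hx
      rw [h]
      exact M.plan.real_in _
    · rintro rfl
      exact hx (M.plan.real_in _)
    · rintro rfl
      exact hx (M.plan.real_in _)
  jordan := hJ

theorem leaf_ne (r : R) : M.inA (r, true) ≠ M.inA (T.κ r, true) := by
  intro h
  have := M.inA_inj h
  simp only [Prod.mk.injEq, and_true] at this
  exact T.κ1 r this.symm

/-- Joining leaves of the same face. -/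
theorem join_same (r : R) (hr : ¬ J r)
    (h : SF M.σ M.ι (M.inA (r, true)) (M.inA (T.κ r, true))) :
    Nonempty (State T (fun s => J s ∨ s = r ∨ s = T.κ r)) := by
  classical
  have := M.fin
  refine ⟨M.join r hr ?_⟩
  exact jordan_join_same M.plan.ι2 M.jordan (M.leaf_ne r) (M.rot_leaf r hr)
    (M.rot_leaf _ (M.notJκ hr)) h

include M in
/-- Joining leaves of different components. -/
theorem join_diff (r : R) (hr : ¬ J r) {k : R → ZMod 2} (k1 : ∀ s, k (T.ρ s) = k s)
    (k2 : ∀ s, J s → k (T.κ s) = k s) (k3 : k (T.κ r) ≠ k r) :
    Nonempty (State T (fun s => J s ∨ s = r ∨ s = T.κ r)) := by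
  classical
  have := M.fin
  refine ⟨M.join r hr ?_⟩
  refine jordan_join_diff M.plan.ι2 M.plan.ι1 M.jordan (M.rot_leaf r hr)
    (M.rot_leaf _ (M.notJκ hr)) (k := fun x => k (M.L x).1) ?_ ?_ ?_
  · intro x
    exact M.comp_inv k k1 k2 x
  · intro x
    show k (M.L (M.ι x)).1 = k (M.L x).1
    rw [M.L_ι_fst]
  · show k (M.L (M.inA (r, true))).1 ≠ k (M.L (M.inA (T.κ r, true))).1
    rw [M.plan.L_in, M.plan.L_in]
    exact Ne.symm k3

end State

end Pool.Agent.Lib.MP_09e2fc_co
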