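import Mathlib
import Pool.Agent.Lib.MP_09e2fc_co.JoinState

/-!
# Extending a stub across an edge
-/

namespace Pool.Agent.Lib.MP_09e2fc_co

open Equiv

section

variable {S : Type}

/-- Hypotheses for extending the stub with leaf `ℓ` across the edge of `y`. -/
structure XH (σ ι : Perm S) (ℓ y : S) : Prop where
  ι2 : ∀ x, ι (ι x) = x
  ι1 : ∀ x, ι x ≠ x
  leaf : σ ℓ = ℓ
  yℓ : y ≠ ℓ
  yιℓ : y ≠ ι ℓ

/-- The rotation with a new crossing point. -/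
def sX (σ : Perm S) : Perm (S ⊕ Fin 4) := Perm.sumCongr σ (Equiv.addRight (1 : Fin 4))

@[simp] theorem sX_inl (σ : Perm S) (x : S) : sX σ (Sum.inl x) = Sum.inl (σ x) := rfl
theorem sX_inr (σ : Perm S) (i : Fin 4) : sX σ (Sum.inr i) = Sum.inr (i + 1) := rfl
@[simp] theorem sX_0 (σ : Perm S) : sX σ (Sum.inr 0) = Sum.inr 1 := rfl
@[simp] theorem sX_1 (σ : Perm S) : sX σ (Sum.inr 1) = Sum.inr 2 := rfl
@[simp] theorem sX_2 (σ : Perm S) : sX σ (Sum.inr 2) = Sum.inr 3 := rfl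
@[simp] theorem sX_3 (σ : Perm S) : sX σ (Sum.inr 3) = Sum.inr 0 := rfl

open Classical in
/-- The reversal with a new crossing point, as a function. -/
noncomputable def iXf (ι : Perm S) (ℓ y : S) : S ⊕ Fin 4 → S ⊕ Fin 4
  | Sum.inl x => if x = ℓ then Sum.inr 2 else if x = ι ℓ then Sum.inr 0 else
      if x = ι y then Sum.inr 1 else if x = y then Sum.inr 3 else Sum.inl (ι x)
  | Sum.inr i => if i = 0 then Sum.inl (ι ℓ) else if i = 1 then Sum.inl (ι y) else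
      if i = 2 then Sum.inl ℓ else Sum.inl y

theorem fin4_cases (i : Fin 4) : i = 0 ∨ i = 1 ∨ i = 2 ∨ i = 3 := by
  revert i; decide

namespace XH

variable {σ ι : Perm S} {ℓ y : S} (X : XH σ ι ℓ y)

include X

theorem aℓ : ι y ≠ ℓ := by
  intro h
  exact X.yιℓ (by rw [← h, X.ι2])

theorem am : ι y ≠ ι ℓ := fun h => X.yℓ (ι.injective h)

theorem mℓ : ι ℓ ≠ ℓ := X.ι1 ℓ

theorem ay : ι y ≠ y := X.ι1 y

omit X in
theorem f_ℓ : iXf ι ℓ y (Sum.inl ℓ) = Sum.inr 2 := by simp [iXf]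
theorem f_m : iXf ι ℓ y (Sum.inl (ι ℓ)) = Sum.inr 0 := by simp [iXf, X.mℓ]
theorem f_a : iXf ι ℓ y (Sum.inl (ι y)) = Sum.inr 1 := by simp [iXf, X.aℓ, X.yℓ]
theorem f_y : iXf ι ℓ y (Sum.inl y) = Sum.inr 3 := by simp [iXf, X.yℓ, X.yιℓ, X.ay.symm]
omit X in
theorem f_other {x : S} (h1 : x ≠ ℓ) (h2 : x ≠ ι ℓ) (h3 : x ≠ ι y) (h4 : x ≠ y) :
    iXf ι ℓ y (Sum.inl x) = Sum.inl (ι x) := by simp [iXf, h1, h2, h3, h4]
omit X in
theorem f_0 : iXf ι ℓ y (Sum.inr 0) = Sum.inl (ι ℓ) := by simp [iXf]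
omit X in
theorem f_1 : iXf ι ℓ y (Sum.inr 1) = Sum.inl (ι y) := by simp [iXf]
omit X in
theorem f_2 : iXf ι ℓ y (Sum.inr 2) = Sum.inl ℓ := by simp [iXf]
omit X in
theorem f_3 : iXf ι ℓ y (Sum.inr 3) = Sum.inl y := by simp [iXf]

omit X in
theorem xcases (ι : Perm S) (ℓ y x : S) : x = ℓ ∨ x = ι ℓ ∨ x = ι y ∨ x = y ∨
    (x ≠ ℓ ∧ x ≠ ι ℓ ∧ x ≠ ι y ∧ x ≠ y) := by tauto

theorem other_ι {x : S} (h : x ≠ ℓ ∧ x ≠ ι ℓ ∧ x ≠ ι y ∧ x ≠ y) :
    ι x ≠ ℓ ∧ ι x ≠ ι ℓ ∧ ι x ≠ ι y ∧ ι x ≠ y := by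
  obtain ⟨h1, h2, h3, h4⟩ := h
  refine ⟨?_, ?_, ?_, ?_⟩
  · intro e
    exact h2 (by rw [← e, X.ι2])
  · intro e
    exact h1 (ι.injective e)
  · intro e
    exact h4 (ι.injective e)
  · intro e
    exact h3 (by rw [← e, X.ι2])

theorem invol : Function.Involutive (iXf ι ℓ y) := by
  rintro (x | i)
  · rcases xcases ι ℓ y x with rfl | rfl | rfl | rfl | h
    · rw [f_ℓ, f_2]
    · rw [X.f_m, f_0]
    · rw [X.f_a, f_1]
    · rw [X.f_y, f_3]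
    · rw [f_other h.1 h.2.1 h.2.2.1 h.2.2.2]
      have h' := X.other_ι h
      rw [f_other h'.1 h'.2.1 h'.2.2.1 h'.2.2.2, X.ι2]
  · rcases fin4_cases i with rfl | rfl | rfl | rfl
    · rw [f_0, X.f_m]
    · rw [f_1, X.f_a]
    · rw [f_2, f_ℓ]
    · rw [f_3, X.f_y]

/-- The reversal with a new crossing point. -/
noncomputable def iX : Perm (S ⊕ Fin 4) := Function.Involutive.toPerm (iXf ι ℓ y) X.invol

theorem i_ℓ : X.iX (Sum.inl ℓ) = Sum.inr 2 := f_ℓ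
theorem i_m : X.iX (Sum.inl (ι ℓ)) = Sum.inr 0 := X.f_m
theorem i_a : X.iX (Sum.inl (ι y)) = Sum.inr 1 := X.f_a
theorem i_y : X.iX (Sum.inl y) = Sum.inr 3 := X.f_y
theorem i_other {x : S} (h : x ≠ ℓ ∧ x ≠ ι ℓ ∧ x ≠ ι y ∧ x ≠ y) :
    X.iX (Sum.inl x) = Sum.inl (ι x) := f_other h.1 h.2.1 h.2.2.1 h.2.2.2
theorem i_0 : X.iX (Sum.inr 0) = Sum.inl (ι ℓ) := f_0 (y := y)
theorem i_1 : X.iX (Sum.inr 1) = Sum.inl (ι y) := f_1 (ℓ := ℓ)
theorem i_2 : X.iX (Sum.inr 2) = Sum.inl ℓ := f_2 (ι := ι) (y := y)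
theorem i_3 : X.iX (Sum.inr 3) = Sum.inl y := f_3 (ι := ι) (ℓ := ℓ)

theorem i2 (w : S ⊕ Fin 4) : X.iX (X.iX w) = w := X.invol w

theorem i1 (w : S ⊕ Fin 4) : X.iX w ≠ w := by
  rcases w with x | i
  · rcases xcases ι ℓ y x with h | h | h | h | h
    · rw [h, X.i_ℓ]; simp
    · rw [h, X.i_m]; simp
    · rw [h, X.i_a]; simp
    · rw [h, X.i_y]; simp
    · rw [X.i_other h]
      intro e
      exact X.ι1 x (Sum.inl_injective e)
  · rcases fin4_cases i with rfl | rfl | rfl | rfl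
    · rw [X.i_0]; simp
    · rw [X.i_1]; simp
    · rw [X.i_2]; simp
    · rw [X.i_3]; simp

theorem σ_ne_ℓ {x : S} (h : x ≠ ℓ) : σ x ≠ ℓ := by
  intro e
  rw [← X.leaf] at e
  exact h (σ.injective e)

open Classical in
/-- The set of corners on one side of the extended stub. -/
theorem exists_B [Finite S] (hSF : SF σ ι ℓ y) (hne : ¬ SF σ ι ℓ (ι y)) :
    ∃ B : S ⊕ Fin 4 → ZMod 2, (∀ w, B (sX σ w) = B (X.iX w)) ∧
      B (Sum.inl (ι ℓ)) + B (Sum.inl (σ (ι ℓ))) = 1 := by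
  set φ := faceP σ ι with hφ
  have f1 : φ ℓ = ι ℓ := by
    conv_lhs => rw [← X.leaf]
    exact faceP_σ σ ι ℓ
  have f2 : φ (σ (ι y)) = y := by
    rw [hφ, faceP_σ, X.ι2]
  have f3 : φ (σ (ι ℓ)) = ℓ := by
    rw [hφ, faceP_σ, X.ι2]
  have hcyc : φ.SameCycle (ι ℓ) (σ (ι y)) := by
    have h1 : φ.SameCycle ℓ y := SF_iff_sameCycle.1 hSF
    rw [← f2, Equiv.Perm.sameCycle_apply_right] at h1
    rw [← f1, Equiv.Perm.sameCycle_apply_left]
    exact h1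
  obtain ⟨P, Pm, Pe, P2, P3, P4, P5, P6⟩ := exists_segment φ hcyc
  have hPS : ∀ w, P w → SF σ ι ℓ w := by
    intro w hw
    have h1 : SF σ ι (ι ℓ) w := SF_iff_sameCycle.2 (P2 w hw)
    refine SF.trans ?_ h1
    have := SF.step (σ := σ) (ι := ι) ℓ
    rwa [X.leaf] at this
  have nota : ¬ P (ι y) := fun h => hne (hPS _ h)
  have notσy : ¬ P (σ y) := fun h => hne ((hPS _ h).trans (SF.step y))
  have notℓ : ¬ P ℓ := P6 ℓ f1 (X.σ_ne_ℓ X.aℓ).symm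
  have noty : ¬ P y := by
    rw [← f2]
    refine P5 ?_
    rw [f2]
    exact X.yιℓ
  have notσm : ¬ P (σ (ι ℓ)) := by
    intro h
    apply notℓ
    rw [← f3]
    refine P3 _ h ?_
    intro e
    exact X.am (σ.injective e).symm
  have hiff : ∀ w, w ≠ ℓ → w ≠ ι ℓ → w ≠ ι y → (P (σ w) ↔ P (ι w)) := by
    intro w h1 h2 h3
    constructor
    · intro h
      have := P3 _ h (fun e => h3 (σ.injective e))
      rwa [hφ, faceP_σ] at this
    · intro h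
      apply P4
      · rw [hφ, faceP_σ]; exact h
      · rw [hφ, faceP_σ]
        intro e
        exact h1 (ι.injective e)
  refine ⟨Sum.elim (fun w => if P w then 1 else 0) (fun i => if i = 1 then 1 else 0), ?_, ?_⟩
  · rintro (w | i)
    · rcases xcases ι ℓ y w with h | h | h | h | h
      · rw [h, X.i_ℓ, sX_inl, X.leaf]
        simp [notℓ]
      · rw [h, X.i_m, sX_inl]
        simp [notσm]
      · rw [h, X.i_a, sX_inl]
        simp [Pe]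
      · rw [h, X.i_y, sX_inl]
        simp [notσy]
      · rw [X.i_other h, sX_inl]
        simp [hiff w h.1 h.2.1 h.2.2.1]
    · rcases fin4_cases i with rfl | rfl | rfl | rfl
      · rw [X.i_0, sX_0]
        simp [Pm]
      · rw [X.i_1, sX_1]
        simp [nota]
      · rw [X.i_2, sX_2]
        simp [notℓ]
      · rw [X.i_3, sX_3]
        simp [noty]
  · simp [Pm, notσm]

open Classical in
/-- Extension of a function of the faces which is equal at `ℓ` and `y`. -/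
noncomputable def ext {α : Type} (ι : Perm S) (ℓ y : S) (t0 : S → α) : S ⊕ Fin 4 → α :=
  Sum.elim (fun x => if x = ℓ then t0 (ι y) else t0 x)
    (fun i => if i = 0 ∨ i = 1 then t0 ℓ else t0 (ι y))

section ext

variable {α : Type} (t0 : S → α)

omit X in
theorem ext_ℓ : ext ι ℓ y t0 (Sum.inl ℓ) = t0 (ι y) := by simp [ext]
omit X in
theorem ext_ne {x : S} (h : x ≠ ℓ) : ext ι ℓ y t0 (Sum.inl x) = t0 x := by simp [ext, h]
omit X in
theorem ext_0 : ext ι ℓ y t0 (Sum.inr 0) = t0 ℓ := by simp [ext]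
omit X in
theorem ext_1 : ext ι ℓ y t0 (Sum.inr 1) = t0 ℓ := by simp [ext]
omit X in
theorem ext_2 : ext ι ℓ y t0 (Sum.inr 2) = t0 (ι y) := by simp [ext]
omit X in
theorem ext_3 : ext ι ℓ y t0 (Sum.inr 3) = t0 (ι y) := by simp [ext]

theorem ext_inv (h2 : ∀ x, t0 (σ x) = t0 (ι x)) (hℓy : t0 ℓ = t0 y) (w : S ⊕ Fin 4) :
    ext ι ℓ y t0 (sX σ w) = ext ι ℓ y t0 (X.iX w) := by
  rcases w with x | i
  · rcases xcases ι ℓ y x with h | h | h | h | h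
    · rw [h, X.i_ℓ, sX_inl, X.leaf, ext_ℓ, ext_2]
    · rw [h, X.i_m, sX_inl, ext_ne t0 (X.σ_ne_ℓ X.mℓ), ext_0, h2, X.ι2]
    · rw [h, X.i_a, sX_inl, ext_ne t0 (X.σ_ne_ℓ X.aℓ), ext_1, h2, X.ι2, hℓy]
    · rw [h, X.i_y, sX_inl, ext_ne t0 (X.σ_ne_ℓ X.yℓ), ext_3, h2]
    · rw [X.i_other h, sX_inl, ext_ne t0 (X.σ_ne_ℓ h.1), ext_ne t0 (X.other_ι h).1, h2]
  · rcases fin4_cases i with rfl | rfl | rfl | rfl
    · rw [X.i_0, sX_0, ext_1, ext_ne t0 X.mℓ, ← h2, X.leaf]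
    · rw [X.i_1, sX_1, ext_2, ext_ne t0 X.aℓ]
    · rw [X.i_2, sX_2, ext_3, ext_ℓ]
    · rw [X.i_3, sX_3, ext_0, ext_ne t0 X.yℓ, hℓy]

end ext

open Classical in
/-- The Jordan property is preserved: the case in which the stub is not in the even set. -/
theorem jordan_aux (hJ : Jordan σ ι) (hSF : SF σ ι ℓ y) (z t : S ⊕ Fin 4 → ZMod 2)
    (hz : ∀ w, z (X.iX w) = z w) (ht : ∀ w, z w = t w + t (sX σ w))
    (hm : z (Sum.inl (ι ℓ)) = 0) :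
    ∃ t0 : S ⊕ Fin 4 → ZMod 2, (∀ w, z w = t0 w + t0 (sX σ w)) ∧
      ∀ w, t0 (sX σ w) = t0 (X.iX w) := by
  have zℓ : z (Sum.inl ℓ) = 0 := by
    rw [ht, sX_inl, X.leaf, zmod2_add_self]
  have z2 : z (Sum.inr 2) = 0 := by rw [← zℓ, ← hz (Sum.inl ℓ), X.i_ℓ]
  have z0 : z (Sum.inr 0) = 0 := by rw [← hm, ← hz (Sum.inl (ι ℓ)), X.i_m]
  have z1 : z (Sum.inr 1) = z (Sum.inl (ι y)) := by rw [← hz (Sum.inl (ι y)), X.i_a]
  have z3 : z (Sum.inr 3) = z (Sum.inl y) := by rw [← hz (Sum.inl y), X.i_y]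
  have zay : z (Sum.inl (ι y)) = z (Sum.inl y) := by
    rw [← z1, ← z3]
    have e0 := ht (Sum.inr 0)
    have e1 := ht (Sum.inr 1)
    have e2 := ht (Sum.inr 2)
    have e3 := ht (Sum.inr 3)
    rw [z0, sX_0] at e0
    rw [sX_1] at e1
    rw [z2, sX_2] at e2
    rw [sX_3] at e3
    rw [e1, e3, zmod2_eq_of_add_eq_zero e0.symm, zmod2_eq_of_add_eq_zero e2.symm]
    ring
  obtain ⟨t0, h1, h2⟩ := hJ (fun x => z (Sum.inl x)) (by
    intro x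
    rcases xcases ι ℓ y x with h | h | h | h | h
    · rw [h, hm, zℓ]
    · rw [h, X.ι2, hm, zℓ]
    · rw [h, X.ι2, zay]
    · rw [h, zay]
    · rw [← X.i_other h, hz]) ⟨fun x => t (Sum.inl x), fun x => ht (Sum.inl x)⟩
  have hℓy : t0 ℓ = t0 y := hSF t0 h2
  refine ⟨ext ι ℓ y t0, ?_, X.ext_inv t0 h2 hℓy⟩
  rintro (x | i)
  · by_cases hx : x = ℓ
    · rw [hx, sX_inl, X.leaf, zℓ, zmod2_add_self]
    · rw [sX_inl, ext_ne t0 hx, ext_ne t0 (X.σ_ne_ℓ hx)]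
      exact h1 x
  · rcases fin4_cases i with rfl | rfl | rfl | rfl
    · rw [sX_0, z0, ext_0, ext_1, zmod2_add_self]
    · have := h1 y
      rw [sX_1, z1, zay, ext_1, ext_2, this, h2 y, ← hℓy]
    · rw [sX_2, z2, ext_2, ext_3, zmod2_add_self]
    · have := h1 y
      rw [sX_3, z3, ext_3, ext_0, this, h2 y, ← hℓy, add_comm]

theorem jordan [Finite S] (hJ : Jordan σ ι) (hSF : SF σ ι ℓ y) (hne : ¬ SF σ ι ℓ (ι y)) :
    Jordan (sX σ) X.iX := by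
  classical
  obtain ⟨B, B1, B2⟩ := X.exists_B hSF hne
  intro z hz hz2
  obtain ⟨t, ht⟩ := hz2
  rcases zcases (z (Sum.inl (ι ℓ))) with h0 | h1
  · exact X.jordan_aux hJ hSF z t hz ht h0
  · refine jordan_add_B X.i2 B1 z t hz ht fun z₁ t₁ hz₁ ht₁ hzz => ?_
    refine X.jordan_aux hJ hSF z₁ t₁ hz₁ ht₁ ?_
    rw [hzz, h1, sX_inl, B2]
    decide

end XH

end

end Pool.Agent.Lib.MP_09e2fc_co
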