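import Mathlib
import Pool.Agent.Lib.MP_09e2fc_co.Cross

/-!
# Levels of faces
-/

namespace Pool.Agent.Lib.MP_09e2fc_co

open Equiv

section

variable {S : Type}

/-- `h` counts how many edges of `q` separate a face from the face of `b`, correctly up to level
`n`. -/
structure Lev (σ ι : Perm S) (q : S → Prop) (b : S) (h : S → ℕ) (n : ℕ) : Prop where
  inv : ∀ w, h (σ w) = h (ι w)
  zero : ∀ x, h x = 0 → SF σ ι x b
  step : ∀ x, 0 < h x → h x ≤ n → ∃ y, q y ∧ SF σ ι x y ∧ h (σ y) + 1 = h x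

theorem SF.const {σ ι : Perm S} {α : Type} {t : S → α} (ht : ∀ w, t (σ w) = t (ι w)) {x y : S}
    (h : SF σ ι x y) : t x = t y :=
  const_of_sameCycle ((faceInv_iff σ ι t).1 ht) (SF_iff_sameCycle.1 h)

/-- Reaching `b` in a given number of steps. -/
def Reach (σ ι : Perm S) (q : S → Prop) (b : S) : ℕ → S → Prop
  | 0, x => SF σ ι x b
  | i + 1, x => ∃ y, q y ∧ SF σ ι x y ∧ Reach σ ι q b i (σ y)

theorem Reach.congr {σ ι : Perm S} {q : S → Prop} {b : S} {i : ℕ} {x x' : S}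
    (h : SF σ ι x x') : Reach σ ι q b i x ↔ Reach σ ι q b i x' := by
  cases i with
  | zero => exact ⟨fun h2 => h.symm.trans h2, fun h2 => h.trans h2⟩
  | succ i =>
    constructor
    · rintro ⟨y, h1, h2, h3⟩
      exact ⟨y, h1, h.symm.trans h2, h3⟩
    · rintro ⟨y, h1, h2, h3⟩
      exact ⟨y, h1, h.trans h2, h3⟩

open Classical in
theorem exists_lev {σ ι : Perm S} (hι2 : ∀ x, ι (ι x) = x) {q : S → Prop}
    (hq : ∀ y, q y → q (ι y)) {a b : S}
    (H : ∀ t : S → ZMod 2, (∀ w, t (σ w) = t (ι w)) → (∀ y, q y → t (σ y) = t y) → t a = t b) :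
    ∃ h : S → ℕ, Lev σ ι q b h (h a) := by
  have hstep : ∀ y, q y → ∀ i, Reach σ ι q b i (σ y) → Reach σ ι q b (i + 1) y :=
    fun y hy i h => ⟨y, hy, SF.refl y, h⟩
  have hstep2 : ∀ y, q y → ∀ i, Reach σ ι q b i y → Reach σ ι q b (i + 1) (σ y) := by
    intro y hy i h
    refine ⟨ι y, hq y hy, SF.step y, ?_⟩
    refine (Reach.congr ?_).1 h
    have := (SF.step (σ := σ) (ι := ι) (ι y)).symm
    rwa [hι2] at this
  have ha : ∃ i, Reach σ ι q b i a := by
    have h1 := H (fun x => if ∃ i, Reach σ ι q b i x then 1 else 0) (by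
      intro w
      have : (∃ i, Reach σ ι q b i (σ w)) ↔ (∃ i, Reach σ ι q b i (ι w)) :=
        exists_congr fun i => Reach.congr (SF.step w)
      simp only [this]) (by
      intro y hy
      have : (∃ i, Reach σ ι q b i (σ y)) ↔ (∃ i, Reach σ ι q b i y) := by
        constructor
        · rintro ⟨i, hi⟩
          exact ⟨i + 1, hstep y hy i hi⟩
        · rintro ⟨i, hi⟩
          exact ⟨i + 1, hstep2 y hy i hi⟩
      simp only [this])
    have hb : ∃ i, Reach σ ι q b i b := ⟨0, SF.refl b⟩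
    by_contra hne
    simp only [if_neg hne, if_pos hb] at h1
    exact absurd h1 (by decide)
  refine ⟨fun x => if hx : ∃ i, Reach σ ι q b i x then Nat.find hx else Nat.find ha + 1, ?_, ?_, ?_⟩
  · intro w
    have e1 : ∀ i, Reach σ ι q b i (σ w) ↔ Reach σ ι q b i (ι w) :=
      fun i => Reach.congr (SF.step w)
    by_cases hx : ∃ i, Reach σ ι q b i (σ w)
    · have hx' : ∃ i, Reach σ ι q b i (ι w) := by
        obtain ⟨i, hi⟩ := hx
        exact ⟨i, (e1 i).1 hi⟩
      simp only [dif_pos hx, dif_pos hx']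
      exact Nat.find_congr' (fun {n} => e1 n)
    · have hx' : ¬ ∃ i, Reach σ ι q b i (ι w) := by
        rintro ⟨i, hi⟩
        exact hx ⟨i, (e1 i).2 hi⟩
      simp only [dif_neg hx, dif_neg hx']
  · intro x hx
    by_cases h : ∃ i, Reach σ ι q b i x
    · simp only [dif_pos h] at hx
      have := Nat.find_spec h
      rw [hx] at this
      exact this
    · simp only [dif_neg h] at hx
      omega
  · intro x hx1 hx2
    simp only [dif_pos ha] at hx2
    by_cases h : ∃ i, Reach σ ι q b i x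
    · simp only [dif_pos h] at hx1 hx2 ⊢
      have hs := Nat.find_spec h
      have hmin : ∀ i, i < Nat.find h → ¬ Reach σ ι q b i x := fun i hi => Nat.find_min h hi
      generalize Nat.find h = m at *
      obtain ⟨j, rfl⟩ : ∃ j, m = j + 1 := ⟨m - 1, by omega⟩
      obtain ⟨y, hy, hxy, hr⟩ := hs
      refine ⟨y, hy, hxy, ?_⟩
      have hσ : ∃ i, Reach σ ι q b i (σ y) := ⟨j, hr⟩
      simp only [dif_pos hσ]
      have h1 : Nat.find hσ ≤ j := Nat.find_min' hσ hr
      have h2 : j ≤ Nat.find hσ := by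
        by_contra hlt
        exact hmin (Nat.find hσ + 1) (by omega) ⟨y, hy, hxy, Nat.find_spec hσ⟩
      omega
    · simp only [dif_neg h] at hx2
      omega

namespace XH

variable {σ ι : Perm S} {ℓ y : S} (X : XH σ ι ℓ y)

include X

/-- Faces at a level below that of `ℓ` are not changed. -/
theorem SF_of_lt {h : S → ℕ} (hinv : ∀ w, h (σ w) = h (ι w)) {n : ℕ} (hℓ : h ℓ = n + 1)
    (hy : h y = n + 1) {x x' : S} (hx : h x ≤ n) (hSF : SF σ ι x x') :
    SF (sX σ) X.iX (Sum.inl x) (Sum.inl x') := by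
  intro t ht
  have hx' : h x' ≤ n := by rw [← SF.const hinv hSF]; exact hx
  have key := hSF (fun w => if h w ≤ n then t (Sum.inl w) else 0) (by
    intro w
    show (if h (σ w) ≤ n then t (Sum.inl (σ w)) else 0) = if h (ι w) ≤ n then t (Sum.inl (ι w)) else 0
    by_cases hle : h (σ w) ≤ n
    · have hle2 : h (ι w) ≤ n := by rw [← hinv]; exact hle
      rw [if_pos hle, if_pos hle2, ← sX_inl, ht]
      rcases xcases ι ℓ y w with e | e | e | e | e
      · rw [e, X.leaf, hℓ] at hle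
        omega
      · rw [e, hinv, X.ι2, hℓ] at hle
        omega
      · rw [e, hinv, X.ι2, hy] at hle
        omega
      · rw [e, X.i_y]
        have e1 : t (Sum.inr 3) = t (Sum.inl ℓ) := by rw [← sX_2, ht, X.i_2]
        have e2 : t (Sum.inr 2) = t (Sum.inl (ι y)) := by rw [← sX_1, ht, X.i_1]
        have e3 : t (Sum.inr 2) = t (Sum.inl ℓ) := by rw [← X.i_ℓ, ← ht, sX_inl, X.leaf]
        rw [e1, ← e3, e2]
      · rw [X.i_other e]
    · have hle2 : ¬ h (ι w) ≤ n := by rw [← hinv]; exact hle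
      rw [if_neg hle, if_neg hle2])
  simp only [if_pos hx, if_pos hx'] at key
  exact key

theorem SF_ℓ : SF (sX σ) X.iX (Sum.inl ℓ) (Sum.inl (ι y)) := by
  intro t ht
  have e2 : t (Sum.inr 2) = t (Sum.inl (ι y)) := by rw [← sX_1, ht, X.i_1]
  have e3 : t (Sum.inr 2) = t (Sum.inl ℓ) := by rw [← X.i_ℓ, ← ht, sX_inl, X.leaf]
  rw [← e3, e2]

theorem SF_2 : SF (sX σ) X.iX (Sum.inr 2) (Sum.inl (ι y)) := by
  intro t ht
  rw [← sX_1, ht, X.i_1]

theorem SF_3 : SF (sX σ) X.iX (Sum.inr 3) (Sum.inl (ι y)) := by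
  intro t ht
  have e1 : t (Sum.inr 3) = t (Sum.inl ℓ) := by rw [← sX_2, ht, X.i_2]
  rw [e1]
  exact X.SF_ℓ t ht

/-- Levels after extending the stub. -/
theorem lev {q : S → Prop} {b : S} {h : S → ℕ} {n : ℕ} (hL : Lev σ ι q b h (n + 1))
    (hℓ : h ℓ = n + 1) (hSF : SF σ ι ℓ y) (hσy : h (σ y) = n) {q' : S ⊕ Fin 4 → Prop}
    (hq' : ∀ x, q x → q' (Sum.inl x)) :
    Lev (sX σ) X.iX q' (Sum.inl b) (ext ι ℓ y h) n := by
  have hy : h y = n + 1 := by rw [← SF.const hL.inv hSF, hℓ]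
  have ha : h (ι y) = n := by rw [← hL.inv, hσy]
  have base : ∀ w, ext ι ℓ y h w ≤ n →
      ∃ x, h x = ext ι ℓ y h w ∧ SF (sX σ) X.iX w (Sum.inl x) := by
    rintro (x | i) hw
    · by_cases hx : x = ℓ
      · subst hx
        refine ⟨ι y, ?_, X.SF_ℓ⟩
        rw [ext_ℓ]
      · refine ⟨x, ?_, SF.refl _⟩
        rw [ext_ne h hx]
    · rcases fin4_cases i with rfl | rfl | rfl | rfl
      · rw [ext_0] at hw
        omega
      · rw [ext_1] at hw
        omega
      · exact ⟨ι y, by rw [ext_2], X.SF_2⟩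
      · exact ⟨ι y, by rw [ext_3], X.SF_3⟩
  refine ⟨X.ext_inv h hL.inv (by rw [hℓ, hy]), ?_, ?_⟩
  · intro w hw
    obtain ⟨x, hx1, hx2⟩ := base w (by omega)
    refine hx2.trans ?_
    refine X.SF_of_lt hL.inv hℓ hy (by omega) ?_
    exact hL.zero x (by omega)
  · intro w hw1 hw2
    obtain ⟨x, hx1, hx2⟩ := base w hw2
    obtain ⟨y2, h1, h2, h3⟩ := hL.step x (by omega) (by omega)
    refine ⟨Sum.inl y2, hq' _ h1, ?_, ?_⟩
    · exact hx2.trans (X.SF_of_lt hL.inv hℓ hy (by omega) h2)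
    · have e1 := SF.const hL.inv h2
      have hne : y2 ≠ ℓ := by
        rintro rfl
        omega
      rw [sX_inl, ext_ne h (X.σ_ne_ℓ hne), h3, hx1]

end XH

end

end Pool.Agent.Lib.MP_09e2fc_co
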