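import Mathlib
import Pool.Agent.Lib.MP_09e2fc_co.Level

/-!
# Inserting an edge that crosses edges of the other graph
-/

namespace Pool.Agent.Lib.MP_09e2fc_co

open Equiv

namespace State

variable {R : Type} {T : Setup R} {J : R → Prop} (M : State T J)

theorem xh (r : R) (hr : ¬ J r) (hq : T.q2 r) {y : M.S} (hy : T.q1 (M.L y).1) :
    XH M.σ M.ι (M.inA (r, true)) y where
  ι2 := M.plan.ι2
  ι1 := M.plan.ι1
  leaf := M.rot_leaf r hr
  yℓ := by
    rintro rfl
    rw [M.plan.L_in] at hy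
    exact T.disj r hy hq
  yιℓ := by
    rintro rfl
    rw [M.L_ι_fst, M.plan.L_in] at hy
    exact T.disj r hy hq

/-- Labels after extending a stub. -/
def Lx (ℓ y : M.S) : M.S ⊕ Fin 4 → R × Bool :=
  Sum.elim M.L (fun i => if i = 0 then M.L ℓ else if i = 1 then M.L y else
    if i = 2 then M.L (M.ι ℓ) else M.L (M.ι y))

/-- Positions after extending a stub. -/
def posx (ℓ y : M.S) : M.S ⊕ Fin 4 → ℕ :=
  Sum.elim (fun x => 2 * M.pos x) (fun i => if i = 0 then 2 * M.pos ℓ + 1 else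
    if i = 1 then 2 * M.pos y + 1 else
    if i = 2 then 2 * M.pos (M.ι ℓ) + 1 else 2 * M.pos (M.ι y) + 1)

@[simp] theorem Lx_inl (ℓ y x : M.S) : M.Lx ℓ y (Sum.inl x) = M.L x := rfl
@[simp] theorem Lx_0 (ℓ y : M.S) : M.Lx ℓ y (Sum.inr 0) = M.L ℓ := by simp [Lx]
@[simp] theorem Lx_1 (ℓ y : M.S) : M.Lx ℓ y (Sum.inr 1) = M.L y := by simp [Lx]
@[simp] theorem Lx_2 (ℓ y : M.S) : M.Lx ℓ y (Sum.inr 2) = M.L (M.ι ℓ) := by simp [Lx]
@[simp] theorem Lx_3 (ℓ y : M.S) : M.Lx ℓ y (Sum.inr 3) = M.L (M.ι y) := by simp [Lx]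
@[simp] theorem posx_inl (ℓ y x : M.S) : M.posx ℓ y (Sum.inl x) = 2 * M.pos x := rfl
@[simp] theorem posx_0 (ℓ y : M.S) : M.posx ℓ y (Sum.inr 0) = 2 * M.pos ℓ + 1 := by simp [posx]
@[simp] theorem posx_1 (ℓ y : M.S) : M.posx ℓ y (Sum.inr 1) = 2 * M.pos y + 1 := by simp [posx]
@[simp] theorem posx_2 (ℓ y : M.S) : M.posx ℓ y (Sum.inr 2) = 2 * M.pos (M.ι ℓ) + 1 := by
  simp [posx]
@[simp] theorem posx_3 (ℓ y : M.S) : M.posx ℓ y (Sum.inr 3) = 2 * M.pos (M.ι y) + 1 := by
  simp [posx]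

/-- The state after extending a stub across an edge. -/
noncomputable def xState (r : R) (hr : ¬ J r) (hq : T.q2 r) (y : M.S) (hy : T.q1 (M.L y).1)
    (hSF : SF M.σ M.ι (M.inA (r, true)) y) (hne : ¬ SF M.σ M.ι (M.inA (r, true)) (M.ι y)) :
    State T J where
  S := M.S ⊕ Fin 4
  fin := by
    have := M.fin
    infer_instance
  σ := sX M.σ
  ι := (M.xh r hr hq hy).iX
  L := M.Lx (M.inA (r, true)) y
  inA := fun a => Sum.inl (M.inA a)
  real := Sum.elim M.real (fun _ => False)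
  plan :=
    { ι2 := (M.xh r hr hq hy).i2
      ι1 := (M.xh r hr hq hy).i1
      κ2 := kA_kA
      real_in := fun a => M.plan.real_in a
      L_in := fun a => M.plan.L_in a
      in_L := by
        rintro (x | i) h
        · show Sum.inl (M.inA (M.L x)) = Sum.inl x
          rw [M.plan.in_L x h]
        · exact h.elim
      cross_real := by
        rintro (x | i) h
        · exact M.plan.cross_real x h
        · exact h
      cross_L := by
        rintro (x | i) h
        · exact M.plan.cross_L x h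
        · rcases fin4_cases i with rfl | rfl | rfl | rfl
          · rw [sX_0, sX_1, Lx_2, Lx_0, M.plan.L_ι]
          · rw [sX_1, sX_2, Lx_3, Lx_1, M.plan.L_ι]
          · rw [sX_2, sX_3, Lx_2, Lx_0, M.plan.L_ι, kA_kA]
          · rw [sX_3, sX_0, Lx_3, Lx_1, M.plan.L_ι, kA_kA]
      cross4 := by
        rintro (x | i) h
        · show Sum.inl (M.σ (M.σ (M.σ (M.σ x)))) = Sum.inl x
          rw [M.plan.cross4 x h]
        · rcases fin4_cases i with rfl | rfl | rfl | rfl <;> rfl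
      L_ι := by
        have X := M.xh r hr hq hy
        rintro (x | i)
        · rcases XH.xcases M.ι (M.inA (r, true)) y x with h | h | h | h | h
          · rw [h, X.i_ℓ, Lx_2, Lx_inl, M.plan.L_ι]
          · rw [h, X.i_m, Lx_0, Lx_inl, M.plan.L_ι, kA_kA]
          · rw [h, X.i_a, Lx_1, Lx_inl, M.plan.L_ι, kA_kA]
          · rw [h, X.i_y, Lx_3, Lx_inl, M.plan.L_ι]
          · rw [X.i_other h, Lx_inl, Lx_inl, M.plan.L_ι]
        · rcases fin4_cases i with rfl | rfl | rfl | rfl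
          · rw [X.i_0, Lx_inl, Lx_0, M.plan.L_ι]
          · rw [X.i_1, Lx_inl, Lx_1, M.plan.L_ι]
          · rw [X.i_2, Lx_inl, Lx_2, M.plan.L_ι, kA_kA]
          · rw [X.i_3, Lx_inl, Lx_3, M.plan.L_ι, kA_kA] }
  Jκ := M.Jκ
  rot_out := fun s => by
    rw [sX_inl, M.rot_out]
  rot_mid := fun s hs => by
    rw [sX_inl, M.rot_mid s hs]
  rot_leaf := fun s hs => by
    rw [sX_inl, M.rot_leaf s hs]
  crossTp := by
    rintro (x | i) h
    · exact M.crossTp x h
    · rcases fin4_cases i with rfl | rfl | rfl | rfl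
      · rw [sX_0, Lx_0, Lx_1, M.plan.L_in]
        exact Or.inr ⟨hq, hy⟩
      · rw [sX_1, Lx_1, Lx_2, M.L_ι_fst, M.plan.L_in]
        exact Or.inl ⟨hy, hq⟩
      · rw [sX_2, Lx_2, Lx_3, M.L_ι_fst, M.L_ι_fst, M.plan.L_in]
        exact Or.inr ⟨hq, hy⟩
      · rw [sX_3, Lx_3, Lx_0, M.L_ι_fst, M.plan.L_in]
        exact Or.inl ⟨hy, hq⟩
  comp := by
    intro k h1 h2
    have key := M.comp_SF k h1 h2 hSF
    rintro (x | i) h
    · exact M.comp k h1 h2 x h
    · rcases fin4_cases i with rfl | rfl | rfl | rfl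
      · rw [sX_0, Lx_0, Lx_1, key]
      · rw [sX_1, Lx_1, Lx_2, M.L_ι_fst, key]
      · rw [sX_2, Lx_2, Lx_3, M.L_ι_fst, M.L_ι_fst, key]
      · rw [sX_3, Lx_3, Lx_0, M.L_ι_fst, key]
  pos := M.posx (M.inA (r, true)) y
  pos_lt := by
    have X := M.xh r hr hq hy
    rintro (x | i) h
    · have hp := M.pos_lt x h
      have hreal := M.plan.cross_real x h
      rw [sX_inl, sX_inl]
      generalize M.σ (M.σ x) = w at *
      rcases XH.xcases M.ι (M.inA (r, true)) y w with e | e | e | e | e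
      · rw [e] at hreal
        exact absurd (M.plan.real_in _) hreal
      · rw [e, X.i_m, posx_0, posx_inl]
        rw [e, M.plan.ι2] at hp
        omega
      · rw [e, X.i_a, posx_1, posx_inl]
        rw [e, M.plan.ι2] at hp
        omega
      · rw [e, X.i_y, posx_3, posx_inl]
        rw [e] at hp
        omega
      · rw [X.i_other e, posx_inl, posx_inl]
        omega
    · rcases fin4_cases i with rfl | rfl | rfl | rfl
      · rw [sX_0, sX_1, X.i_2, posx_inl, posx_0]
        omega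
      · rw [sX_1, sX_2, X.i_3, posx_inl, posx_1]
        omega
      · rw [sX_2, sX_3, X.i_0, posx_inl, posx_2]
        omega
      · rw [sX_3, sX_0, X.i_1, posx_inl, posx_3]
        omega
  jordan := by
    have := M.fin
    exact (M.xh r hr hq hy).jordan M.jordan hSF hne

theorem insert_lev (r : R) (hr : ¬ J r) (hq : T.q2 r) (n : ℕ) : ∀ (M : State T J) (h : M.S → ℕ),
    Lev M.σ M.ι (fun y => T.q1 (M.L y).1) (M.inA (T.κ r, true)) h n →
    h (M.inA (r, true)) = n →
    Nonempty (State T (fun s => J s ∨ s = r ∨ s = T.κ r)) := by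
  induction n with
  | zero =>
    intro M h hL hn
    exact M.join_same r hr (hL.zero _ hn)
  | succ n ih =>
    intro M h hL hn
    obtain ⟨y, h1, h2, h3⟩ := hL.step (M.inA (r, true)) (by omega) (by omega)
    have hσy : h (M.σ y) = n := by omega
    have hne : ¬ SF M.σ M.ι (M.inA (r, true)) (M.ι y) := by
      intro h4
      have := SF.const hL.inv h4
      rw [← hL.inv] at this
      omega
    have hℓ : (M.xState r hr hq y h1 h2 hne).inA (r, true) = Sum.inl (M.inA (r, true)) := rfl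
    refine ih (M.xState r hr hq y h1 h2 hne) (XH.ext M.ι (M.inA (r, true)) y h) ?_ ?_
    · exact (M.xh r hr hq h1).lev hL hn h2 hσy (fun x hx => hx)
    · rw [hℓ, XH.ext_ℓ, ← hL.inv, hσy]

/-- Inserting the edge of `r`: it can be done if no face function separates its leaves. -/
theorem insert_edge (r : R) (hr : ¬ J r) (hq : T.q2 r)
    (H : ∀ t : M.S → ZMod 2, (∀ w, t (M.σ w) = t (M.ι w)) →
      (∀ y, T.q1 (M.L y).1 → t (M.σ y) = t y) →
      t (M.inA (r, true)) = t (M.inA (T.κ r, true))) :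
    Nonempty (State T (fun s => J s ∨ s = r ∨ s = T.κ r)) := by
  obtain ⟨h, hL⟩ := exists_lev M.plan.ι2 (q := fun y => T.q1 (M.L y).1)
    (fun y hy => by
      show T.q1 (M.L (M.ι y)).1
      rw [M.L_ι_fst]
      exact hy) H
  exact insert_lev r hr hq _ M h hL rfl

end State

end Pool.Agent.Lib.MP_09e2fc_co
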