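import Mathlib
import Pool.Agent.Lib.MP_09e2fc_co.Facts

/-!
# Local facts about the rotation at a vertex
-/

namespace Pool.Agent.Lib.MP_09e2fc_co

open Equiv

variable {V : Type} {H : SimpleGraph V} [Finite V]

namespace Drawing

variable (D : Drawing H)

theorem rho_fst (d : H.Dart) : (D.rho d).fst = d.fst := D.rhoFun_fst d

theorem rot_pow_in (k : ℕ) (d : H.Dart) : (D.rot ^ k) (inDart d) = inDart ((D.rho ^ k) d) := by
  induction k with
  | zero => rfl
  | succ k ih => rw [pow_succ', Perm.mul_apply, ih, D.rot_in', pow_succ', Perm.mul_apply]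

theorem rho_sameCycle {d d' : H.Dart} (h : d.fst = d'.fst) : D.rho.SameCycle d d' := by
  have h1 : D.rot.SameCycle (inDart d) (inDart d') :=
    (D.rot_vertex (inDart d) (inDart d') rfl).2 ⟨rfl, h.symm⟩
  obtain ⟨k, hk⟩ := h1.exists_nat_pow_eq
  rw [D.rot_pow_in] at hk
  exact ⟨k, by rw [zpow_natCast]; exact congrArg Seg.dart hk⟩

end Drawing

theorem sameCycle_const {A : Type} {ρ : Perm A} {u : A → ZMod 2} {P : A → Prop}
    (hP : ∀ d, P d → P (ρ d)) (hu : ∀ d, P d → u (ρ d) = u d) {d d' : A} [Finite A]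
    (h : ρ.SameCycle d d') (hd : P d) : u d' = u d := by
  obtain ⟨k, hk⟩ := h.exists_nat_pow_eq
  rw [← hk]
  clear hk h
  have : P ((ρ ^ k) d) ∧ u ((ρ ^ k) d) = u d := by
    induction k with
    | zero => exact ⟨hd, rfl⟩
    | succ k ih =>
      rw [pow_succ', Perm.mul_apply]
      exact ⟨hP _ ih.1, by rw [hu _ ih.1, ih.2]⟩
  exact this.2

/-- lift of `ZMod 2` to integers -/
def liftZ (a : ZMod 2) : ℤ := if a = 0 then 0 else 1

theorem zmod2_cases (a : ZMod 2) : a = 0 ∨ a = 1 := by
  revert a; decide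

open Classical in
/-- If exactly two darts of a vertex are in the even set `z`, then the face function takes
different values before these two darts. -/
theorem two_flip {A : Type} [Fintype A] {ρ : Perm A} {u z : A → ZMod 2} {P : A → Prop}
    (hP : ∀ d, P (ρ d) ↔ P d) (hu : ∀ d, z d = u d + u (ρ d)) {d₁ d₂ : A} (h1 : P d₁) (h2 : P d₂)
    (hne : d₁ ≠ d₂) (hz1 : z d₁ = 1) (hz2 : z d₂ = 1)
    (hz : ∀ d, P d → d ≠ d₁ → d ≠ d₂ → z d = 0) : u d₁ ≠ u d₂ := by
  have hsum : ∑ d ∈ Finset.univ.filter P, liftZ (u (ρ d)) = ∑ d ∈ Finset.univ.filter P, liftZ (u d) := by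
    refine Finset.sum_nbij' (fun d => ρ d) (fun d => ρ.symm d) ?_ ?_ ?_ ?_ ?_
    · intro d hd
      simp only [Finset.mem_filter, Finset.mem_univ, true_and] at hd ⊢
      exact (hP d).2 hd
    · intro d hd
      simp only [Finset.mem_filter, Finset.mem_univ, true_and] at hd ⊢
      rw [← hP]
      simpa using hd
    · intro d _
      simp
    · intro d _
      simp
    · intro d _
      rfl
  have hsum2 : ∑ d ∈ Finset.univ.filter P, (liftZ (u (ρ d)) - liftZ (u d)) = 0 := by
    rw [Finset.sum_sub_distrib, hsum, sub_self]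
  have h3 : ∑ d ∈ Finset.univ.filter P, (liftZ (u (ρ d)) - liftZ (u d))
      = (liftZ (u (ρ d₁)) - liftZ (u d₁)) + (liftZ (u (ρ d₂)) - liftZ (u d₂)) := by
    have hsub : ({d₁, d₂} : Finset A) ⊆ Finset.univ.filter P := by
      intro d hd
      simp only [Finset.mem_insert, Finset.mem_singleton] at hd
      simp only [Finset.mem_filter, Finset.mem_univ, true_and]
      rcases hd with rfl | rfl
      · exact h1
      · exact h2
    rw [← Finset.sum_subset hsub, Finset.sum_pair hne]
    intro d hd hd2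
    simp only [Finset.mem_insert, Finset.mem_singleton, not_or] at hd2
    simp only [Finset.mem_filter, Finset.mem_univ, true_and] at hd
    have := hz d hd hd2.1 hd2.2
    rw [hu d] at this
    rw [zmod2_eq_of_add_eq_zero this, sub_self]
  rw [h3] at hsum2
  intro heq
  have e1 : u (ρ d₁) = 1 + u d₁ := by
    have := hu d₁
    rw [hz1] at this
    rw [this]
    have h5 := zmod2_add_self (u d₁)
    linear_combination (-1 : ZMod 2) * h5
  have e2 : u (ρ d₂) = 1 + u d₂ := by
    have := hu d₂
    rw [hz2] at this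
    rw [this]
    have h5 := zmod2_add_self (u d₂)
    linear_combination (-1 : ZMod 2) * h5
  rw [e1, e2, heq] at hsum2
  rcases zmod2_cases (u d₂) with h | h
  · rw [h] at hsum2
    exact absurd hsum2 (by decide)
  · rw [h] at hsum2
    exact absurd hsum2 (by decide)

/-- Passing through a vertex. -/
theorem Drawing.pass [Fintype H.Dart] (D : Drawing H) {u z : H.Dart → ZMod 2}
    (hu : ∀ d, z d = u d + u (D.rho d)) {d₁ d₂ : H.Dart} (hfst : d₁.fst = d₂.fst)
    (hne : d₁ ≠ d₂) (hzz : z d₁ = z d₂)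
    (hz : ∀ d : H.Dart, d.fst = d₁.fst → d ≠ d₁ → d ≠ d₂ → z d = 0) : u (D.rho d₂) = u d₁ := by
  rcases zmod2_cases (z d₁) with h0 | h1
  · -- constant
    have hall : ∀ d : H.Dart, d.fst = d₁.fst → u (D.rho d) = u d := by
      intro d hd
      have hzd : z d = 0 := by
        by_cases h1 : d = d₁
        · rw [h1, h0]
        · by_cases h2 : d = d₂
          · rw [h2, ← hzz, h0]
          · exact hz d hd h1 h2
      rw [hu d] at hzd
      exact (zmod2_eq_of_add_eq_zero hzd).symm
    have h3 := sameCycle_const (P := fun d => d.fst = d₁.fst)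
      (fun d hd => by rw [D.rho_fst]; exact hd) hall
      (D.rho_sameCycle (d := d₁) (d' := D.rho d₂) (by rw [D.rho_fst, hfst])) rfl
    exact h3
  · have h2 : z d₂ = 1 := by rw [← hzz, h1]
    have h3 := two_flip (P := fun d : H.Dart => d.fst = d₁.fst) (fun d => by rw [D.rho_fst]) hu
      rfl hfst.symm hne h1 h2 hz
    have h4 := hu d₂
    rw [h2] at h4
    rcases zmod2_cases (u d₁) with a | a <;> rcases zmod2_cases (u d₂) with b | b <;>
      rcases zmod2_cases (u (D.rho d₂)) with c | c <;> rw [a, b] at h3 <;> rw [b, c] at h4 <;>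
      rw [a, c] <;> revert h3 h4 <;> decide

end Pool.Agent.Lib.MP_09e2fc_co
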