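import Mathlib
import Pool.Agent.Lib.MP_09e2fc_co.Rot

/-!
# Two graphs on eight vertices without a simultaneous embedding with fixed edges
-/

namespace Pool.Agent.Lib.MP_09e2fc_co

open Equiv

section General

variable {V : Type} {H : SimpleGraph V}

/-- The dart from `u` to `v`. -/
def mkD (u v : V) (h : H.Adj u v) : H.Dart := ⟨(u, v), h⟩

theorem mkD_symm (u v : V) (h : H.Adj u v) : (mkD u v h).symm = mkD v u h.symm := rfl

theorem mkD_ext {d : H.Dart} {u v : V} {h : H.Adj u v} (h1 : d.fst = u) (h2 : d.snd = v) :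
    d = mkD u v h := by
  apply SimpleGraph.Dart.ext
  exact Prod.ext h1 h2

open Classical in
theorem isCyc_of_pair [Fintype V] [Fintype H.Dart] (ζ : V → V → ZMod 2)
    (hsymm : ∀ u v, ζ u v = ζ v u) (hsupp : ∀ u v, ζ u v ≠ 0 → H.Adj u v)
    (hsum : ∀ u, ∑ v, ζ u v = 0) : IsCyc (fun d : H.Dart => ζ d.fst d.snd) := by
  refine ⟨fun d => hsymm _ _, fun K => ?_⟩
  have h1 : ∑ d : H.Dart, K d.fst * ζ d.fst d.snd = ∑ p : V × V, K p.1 * ζ p.1 p.2 := by
    refine Finset.sum_of_injOn (fun d : H.Dart => d.toProd) ?_ ?_ ?_ ?_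
    · intro d _ e _ h
      exact SimpleGraph.Dart.ext _ _ h
    · intro d _
      exact Finset.mem_coe.2 (Finset.mem_univ _)
    · intro p _ hp
      by_contra hne
      have hz : ζ p.1 p.2 ≠ 0 := by
        intro h0
        rw [h0, mul_zero] at hne
        exact hne rfl
      exact hp ⟨⟨p, hsupp _ _ hz⟩, Finset.mem_coe.2 (Finset.mem_univ _), rfl⟩
    · intro d _
      rfl
  rw [h1, Fintype.sum_prod_type]
  refine Finset.sum_eq_zero fun u _ => ?_
  show ∑ y : V, K u * ζ u y = 0
  rw [← Finset.mul_sum, hsum, mul_zero]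

/-- Along a strand `0 – a – b – 1` of an uncrossed subgraph the face function is transported. -/
theorem strand [Finite V] [Fintype H.Dart] (D : Drawing H) {u z : H.Dart → ZMod 2}
    (hu : ∀ d, z d = u d + u (D.rho d)) {o a b e : V} (hoa : H.Adj o a) (hab : H.Adj a b)
    (hbe : H.Adj b e) (hne1 : o ≠ b) (hne2 : a ≠ e)
    (r1 : u (D.rho (mkD o a hoa)) = u (mkD o a hoa).symm)
    (r2 : u (D.rho (mkD a b hab)) = u (mkD a b hab).symm)
    (r3 : u (D.rho (mkD b e hbe)) = u (mkD b e hbe).symm)
    (z1 : z (mkD a o hoa.symm) = z (mkD a b hab)) (z2 : z (mkD b a hab.symm) = z (mkD b e hbe))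
    (z3 : ∀ (v : V) (h : H.Adj a v), v ≠ o → v ≠ b → z (mkD a v h) = 0)
    (z4 : ∀ (v : V) (h : H.Adj b v), v ≠ a → v ≠ e → z (mkD b v h) = 0) :
    u (mkD e b hbe.symm) = u (D.rho (mkD o a hoa)) := by
  have p1 : u (D.rho (mkD a b hab)) = u (mkD a o hoa.symm) := by
    refine D.pass hu rfl ?_ z1 ?_
    · intro h
      exact hne1 (congrArg (fun d : H.Dart => d.snd) h)
    · intro d hd h1 h2
      have e1 : d = mkD a d.snd (by have := d.adj; rw [hd] at this; exact this) := mkD_ext hd rfl
      rw [e1]
      refine z3 _ _ ?_ ?_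
      · intro h
        exact h1 (mkD_ext hd h)
      · intro h
        exact h2 (mkD_ext hd h)
  have p2 : u (D.rho (mkD b e hbe)) = u (mkD b a hab.symm) := by
    refine D.pass hu rfl ?_ z2 ?_
    · intro h
      exact hne2 (congrArg (fun d : H.Dart => d.snd) h)
    · intro d hd h1 h2
      have e1 : d = mkD b d.snd (by have := d.adj; rw [hd] at this; exact this) := mkD_ext hd rfl
      rw [e1]
      refine z4 _ _ ?_ ?_
      · intro h
        exact h1 (mkD_ext hd h)
      · intro h
        exact h2 (mkD_ext hd h)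
  rw [mkD_symm] at r1 r2 r3
  rw [← r3, p2, ← r2, p1, r1]

end General

/-- The shared edges. -/
def edS : List (Fin 8 × Fin 8) := [(0, 1), (0, 2), (0, 3), (0, 4), (1, 5), (1, 6), (1, 7)]
/-- The exclusive edges of the first graph. -/
def ed1 : List (Fin 8 × Fin 8) := [(2, 5), (3, 6), (4, 7)]
/-- The exclusive edges of the second graph. -/
def ed2 : List (Fin 8 × Fin 8) := [(2, 6), (3, 7), (4, 5)]

/-- Membership of a pair, in either order. -/
def memL (l : List (Fin 8 × Fin 8)) (u v : Fin 8) : Bool := l.contains (u, v) || l.contains (v, u)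

/-- The first graph. -/
def exG1 : SimpleGraph (Fin 8) where
  Adj u v := memL (edS ++ ed1) u v = true
  symm := ⟨by decide⟩
  loopless := ⟨by decide⟩

/-- The second graph. -/
def exG2 : SimpleGraph (Fin 8) where
  Adj u v := memL (edS ++ ed2) u v = true
  symm := ⟨by decide⟩
  loopless := ⟨by decide⟩

/-- Indicator of a list of edges. -/
def zetaL (l : List (Fin 8 × Fin 8)) (u v : Fin 8) : ZMod 2 := if memL l u v then 1 else 0

theorem zetaL_symm (l : List (Fin 8 × Fin 8)) (u v : Fin 8) : zetaL l u v = zetaL l v u := by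
  unfold zetaL memL
  rw [Bool.or_comm]

theorem adj_sup_of {G : SimpleGraph (Fin 8)} (hG : G = exG1 ∨ G = exG2) {u v : Fin 8}
    (h : G.Adj u v) : (exG1 ⊔ exG2).Adj u v := by
  rcases hG with rfl | rfl
  · exact Or.inl h
  · exact Or.inr h

theorem not_exclusive {G : SimpleGraph (Fin 8)} (hG : G = exG1 ∨ G = exG2)
    {d d' : (exG1 ⊔ exG2).Dart} (h1 : G.Adj d.fst d.snd) (h2 : G.Adj d'.fst d'.snd) :
    ¬ ExclusivePair exG1 exG2 d d' := by
  have e1 : d.edge ∈ G.edgeSet := h1
  have e2 : d'.edge ∈ G.edgeSet := h2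
  rintro (⟨a, b⟩ | ⟨a, b⟩) <;> rcases hG with rfl | rfl
  · exact b e2
  · exact a e1
  · exact a e1
  · exact b e2

section Core

open Classical in
theorem faceL (D : Drawing (exG1 ⊔ exG2))
    (hD : ∀ d d', D.crossings d d' ≠ 0 → ExclusivePair exG1 exG2 d d')
    {G : SimpleGraph (Fin 8)} (hG : G = exG1 ∨ G = exG2) (l : List (Fin 8 × Fin 8))
    (hl : ∀ u v, memL l u v = true → G.Adj u v) (hs : ∀ u, ∑ v, zetaL l u v = 0) :
    ∃ u : (exG1 ⊔ exG2).Dart → ZMod 2, (∀ d, zetaL l d.fst d.snd = u d + u (D.rho d)) ∧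
      ∀ d, G.Adj d.fst d.snd → u (D.rho d) = u d.symm := by
  have hz : IsCyc (fun d : (exG1 ⊔ exG2).Dart => zetaL l d.fst d.snd) := by
    refine isCyc_of_pair (zetaL l) (zetaL_symm l) ?_ hs
    intro u v h
    refine adj_sup_of hG (hl u v ?_)
    by_contra hne
    apply h
    unfold zetaL
    rw [if_neg hne]
  obtain ⟨u, hu1, hu2⟩ := D.faceFun hz
  refine ⟨u, hu1, fun d hd => hu2 d fun d' hd' => ?_⟩
  have h2 : G.Adj d'.fst d'.snd := by
    apply hl
    by_contra hne
    apply hd'
    show zetaL l d'.fst d'.snd = 0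
    unfold zetaL
    rw [if_neg hne]
  have h3 : D.crossings d d' = 0 := by
    by_contra hne
    exact not_exclusive hG hd h2 (hD d d' hne)
  rw [h3]
  exact ⟨0, rfl⟩

theorem claim (D : Drawing (exG1 ⊔ exG2))
    (hD : ∀ d d', D.crossings d d' ≠ 0 → ExclusivePair exG1 exG2 d d')
    {G : SimpleGraph (Fin 8)} (hG : G = exG1 ∨ G = exG2) (a b k c : Fin 8)
    (h01 : G.Adj 0 1) (h0a : G.Adj 0 a) (hab : G.Adj a b) (hb1 : G.Adj b 1)
    (h0k : G.Adj 0 k) (hk1 : (1 : Fin 8) ≠ k)
    (hl : ∀ u v, memL [(0, 1), (1, c), (k, c), (0, k)] u v = true → G.Adj u v)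
    (hs : ∀ u, ∑ v, zetaL [(0, 1), (1, c), (k, c), (0, k)] u v = 0)
    (s0 : ∀ v, v ≠ 1 → v ≠ k → zetaL [(0, 1), (1, c), (k, c), (0, k)] 0 v = 0)
    (s1 : zetaL [(0, 1), (1, c), (k, c), (0, k)] 0 1 = 1)
    (s2 : zetaL [(0, 1), (1, c), (k, c), (0, k)] 0 k = 1)
    (z1 : zetaL [(0, 1), (1, c), (k, c), (0, k)] a 0 = zetaL [(0, 1), (1, c), (k, c), (0, k)] a b)
    (z2 : zetaL [(0, 1), (1, c), (k, c), (0, k)] b a = zetaL [(0, 1), (1, c), (k, c), (0, k)] b 1)
    (z3 : ∀ v, v ≠ 0 → v ≠ b → zetaL [(0, 1), (1, c), (k, c), (0, k)] a v = 0)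
    (z4 : ∀ v, v ≠ a → v ≠ 1 → zetaL [(0, 1), (1, c), (k, c), (0, k)] b v = 0)
    (hne1 : (0 : Fin 8) ≠ b) (hne2 : a ≠ 1)
    (hq : (D.rho (mkD 1 0 (adj_sup_of hG h01).symm)).snd = b)
    (hy : (D.rho (mkD 0 a (adj_sup_of hG h0a))).snd = k) : False := by
  classical
  obtain ⟨u, hu, hr⟩ := faceL D hD hG _ hl hs
  have H01 := adj_sup_of hG h01
  have H0a := adj_sup_of hG h0a
  have Hab := adj_sup_of hG hab
  have Hb1 := adj_sup_of hG hb1
  have H0k := adj_sup_of hG h0k
  have eq1 : D.rho (mkD 1 0 H01.symm) = mkD 1 b Hb1.symm := mkD_ext (D.rho_fst _) hq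
  have ey : D.rho (mkD 0 a H0a) = mkD 0 k H0k := mkD_ext (D.rho_fst _) hy
  -- strand
  have hst := strand D hu H0a Hab Hb1 hne1 hne2 (hr _ h0a) (hr _ hab) (hr _ hb1) z1 z2
    (fun v _ h1 h2 => z3 v h1 h2) (fun v _ h1 h2 => z4 v h1 h2)
  -- two flips at 0
  have hfl := two_flip (P := fun d : (exG1 ⊔ exG2).Dart => d.fst = 0)
    (fun d => by rw [D.rho_fst]) hu (d₁ := mkD 0 1 H01) (d₂ := mkD 0 k H0k) rfl rfl
    (fun h => hk1 (congrArg (fun d : (exG1 ⊔ exG2).Dart => d.snd) h)) s1 s2 (by
      intro d hd h1 h2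
      have h1' : d.snd ≠ 1 := fun h => h1 (mkD_ext hd h)
      have h2' : d.snd ≠ k := fun h => h2 (mkD_ext hd h)
      show zetaL _ d.fst d.snd = 0
      rw [hd]
      exact s0 _ h1' h2')
  have a1 := hu (mkD 1 0 H01.symm)
  have a2 := hu (mkD 0 1 H01)
  have a3 := hr (mkD 0 1 H01) h01
  have b1 : zetaL [(0, 1), (1, c), (k, c), (0, k)] (mkD 1 0 H01.symm : (exG1 ⊔ exG2).Dart).fst
      (mkD 1 0 H01.symm : (exG1 ⊔ exG2).Dart).snd = 1 := by
    show zetaL _ 1 0 = 1
    rw [zetaL_symm]
    exact s1
  have b2 : zetaL [(0, 1), (1, c), (k, c), (0, k)] (mkD 0 1 H01 : (exG1 ⊔ exG2).Dart).fst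
      (mkD 0 1 H01 : (exG1 ⊔ exG2).Dart).snd = 1 := s1
  rw [b1, eq1] at a1
  rw [b2] at a2
  rw [mkD_symm] at a3
  rw [ey] at hst
  rw [hst] at a1
  rw [a3] at a2
  apply hfl
  generalize u (mkD 0 1 H01) = p1 at *
  generalize u (mkD 1 0 H01.symm) = p2 at *
  generalize u (mkD 0 k H0k) = p3 at *
  revert a1 a2
  clear * -
  revert p1 p2 p3
  decide

theorem adj_zero : ∀ v, (exG1 ⊔ exG2).Adj 0 v → v = 1 ∨ v = 2 ∨ v = 3 ∨ v = 4 := by
  intro v hv
  have h : memL (edS ++ ed1) 0 v = true ∨ memL (edS ++ ed2) 0 v = true := hv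
  clear hv
  revert v
  decide

theorem adj_one : ∀ v, (exG1 ⊔ exG2).Adj 1 v → v = 0 ∨ v = 5 ∨ v = 6 ∨ v = 7 := by
  intro v hv
  have h : memL (edS ++ ed1) 1 v = true ∨ memL (edS ++ ed2) 1 v = true := hv
  clear hv
  revert v
  decide

theorem rho_snd_one (D : Drawing (exG1 ⊔ exG2))
    (G : SimpleGraph (Fin 8)) (hG : G = exG1 ∨ G = exG2) (a b : Fin 8)
    (h01 : G.Adj 0 1) (h0a : G.Adj 0 a)
    (hcase : ∀ k, k = 2 ∨ k = 3 ∨ k = 4 →
      (D.rho (mkD 1 0 (adj_sup_of hG h01).symm)).snd = b →
      (D.rho (mkD 0 a (adj_sup_of hG h0a))).snd = k → False)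
    (hq : (D.rho (mkD 1 0 (adj_sup_of hG h01).symm)).snd = b) :
    (D.rho (mkD 0 a (adj_sup_of hG h0a))).snd = 1 := by
  have h := (D.rho (mkD 0 a (adj_sup_of hG h0a))).adj
  rw [D.rho_fst] at h
  rcases adj_zero _ h with h | h | h | h
  · exact h
  · exact (hcase 2 (Or.inl rfl) hq h).elim
  · exact (hcase 3 (Or.inr (Or.inl rfl)) hq h).elim
  · exact (hcase 4 (Or.inr (Or.inr rfl)) hq h).elim

theorem strandG1 (D : Drawing (exG1 ⊔ exG2))
    (hD : ∀ d d', D.crossings d d' ≠ 0 → ExclusivePair exG1 exG2 d d') (a b : Fin 8)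
    (hab : (a = 2 ∧ b = 5) ∨ (a = 3 ∧ b = 6) ∨ (a = 4 ∧ b = 7))
    (h10 : (exG1 ⊔ exG2).Adj 1 0) (h0a : (exG1 ⊔ exG2).Adj 0 a)
    (hq : (D.rho (mkD 1 0 h10)).snd = b) : (D.rho (mkD 0 a h0a)).snd = 1 := by
  have hG : exG1 = exG1 ∨ exG1 = exG2 := Or.inl rfl
  have h01 : exG1.Adj 0 1 := by show memL _ _ _ = true; decide
  rcases hab with ⟨rfl, rfl⟩ | ⟨rfl, rfl⟩ | ⟨rfl, rfl⟩
  · refine rho_snd_one D exG1 hG 2 5 h01 (by show memL _ _ _ = true; decide) ?_ hq
    rintro k (rfl | rfl | rfl) hq hy
    · exact claim D hD hG 2 5 2 5 h01 (by show memL _ _ _ = true; decide)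
        (by show memL _ _ _ = true; decide) (by show memL _ _ _ = true; decide)
        (by show memL _ _ _ = true; decide) (by decide)
        (by show ∀ u v, _ → memL _ _ _ = true; decide) (by decide) (by decide) (by decide)
        (by decide) (by decide) (by decide) (by decide) (by decide) (by decide) (by decide) hq hy
    · exact claim D hD hG 2 5 3 6 h01 (by show memL _ _ _ = true; decide)
        (by show memL _ _ _ = true; decide) (by show memL _ _ _ = true; decide)
        (by show memL _ _ _ = true; decide) (by decide)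
        (by show ∀ u v, _ → memL _ _ _ = true; decide) (by decide) (by decide) (by decide)
        (by decide) (by decide) (by decide) (by decide) (by decide) (by decide) (by decide) hq hy
    · exact claim D hD hG 2 5 4 7 h01 (by show memL _ _ _ = true; decide)
        (by show memL _ _ _ = true; decide) (by show memL _ _ _ = true; decide)
        (by show memL _ _ _ = true; decide) (by decide)
        (by show ∀ u v, _ → memL _ _ _ = true; decide) (by decide) (by decide) (by decide)
        (by decide) (by decide) (by decide) (by decide) (by decide) (by decide) (by decide) hq hy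
  · refine rho_snd_one D exG1 hG 3 6 h01 (by show memL _ _ _ = true; decide) ?_ hq
    rintro k (rfl | rfl | rfl) hq hy
    · exact claim D hD hG 3 6 2 5 h01 (by show memL _ _ _ = true; decide)
        (by show memL _ _ _ = true; decide) (by show memL _ _ _ = true; decide)
        (by show memL _ _ _ = true; decide) (by decide)
        (by show ∀ u v, _ → memL _ _ _ = true; decide) (by decide) (by decide) (by decide)
        (by decide) (by decide) (by decide) (by decide) (by decide) (by decide) (by decide) hq hy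
    · exact claim D hD hG 3 6 3 6 h01 (by show memL _ _ _ = true; decide)
        (by show memL _ _ _ = true; decide) (by show memL _ _ _ = true; decide)
        (by show memL _ _ _ = true; decide) (by decide)
        (by show ∀ u v, _ → memL _ _ _ = true; decide) (by decide) (by decide) (by decide)
        (by decide) (by decide) (by decide) (by decide) (by decide) (by decide) (by decide) hq hy
    · exact claim D hD hG 3 6 4 7 h01 (by show memL _ _ _ = true; decide)
        (by show memL _ _ _ = true; decide) (by show memL _ _ _ = true; decide)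
        (by show memL _ _ _ = true; decide) (by decide)
        (by show ∀ u v, _ → memL _ _ _ = true; decide) (by decide) (by decide) (by decide)
        (by decide) (by decide) (by decide) (by decide) (by decide) (by decide) (by decide) hq hy
  · refine rho_snd_one D exG1 hG 4 7 h01 (by show memL _ _ _ = true; decide) ?_ hq
    rintro k (rfl | rfl | rfl) hq hy
    · exact claim D hD hG 4 7 2 5 h01 (by show memL _ _ _ = true; decide)
        (by show memL _ _ _ = true; decide) (by show memL _ _ _ = true; decide)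
        (by show memL _ _ _ = true; decide) (by decide)
        (by show ∀ u v, _ → memL _ _ _ = true; decide) (by decide) (by decide) (by decide)
        (by decide) (by decide) (by decide) (by decide) (by decide) (by decide) (by decide) hq hy
    · exact claim D hD hG 4 7 3 6 h01 (by show memL _ _ _ = true; decide)
        (by show memL _ _ _ = true; decide) (by show memL _ _ _ = true; decide)
        (by show memL _ _ _ = true; decide) (by decide)
        (by show ∀ u v, _ → memL _ _ _ = true; decide) (by decide) (by decide) (by decide)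
        (by decide) (by decide) (by decide) (by decide) (by decide) (by decide) (by decide) hq hy
    · exact claim D hD hG 4 7 4 7 h01 (by show memL _ _ _ = true; decide)
        (by show memL _ _ _ = true; decide) (by show memL _ _ _ = true; decide)
        (by show memL _ _ _ = true; decide) (by decide)
        (by show ∀ u v, _ → memL _ _ _ = true; decide) (by decide) (by decide) (by decide)
        (by decide) (by decide) (by decide) (by decide) (by decide) (by decide) (by decide) hq hy

theorem strandG2 (D : Drawing (exG1 ⊔ exG2))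
    (hD : ∀ d d', D.crossings d d' ≠ 0 → ExclusivePair exG1 exG2 d d') (a b : Fin 8)
    (hab : (a = 2 ∧ b = 6) ∨ (a = 3 ∧ b = 7) ∨ (a = 4 ∧ b = 5))
    (h10 : (exG1 ⊔ exG2).Adj 1 0) (h0a : (exG1 ⊔ exG2).Adj 0 a)
    (hq : (D.rho (mkD 1 0 h10)).snd = b) : (D.rho (mkD 0 a h0a)).snd = 1 := by
  have hG : exG2 = exG1 ∨ exG2 = exG2 := Or.inr rfl
  have h01 : exG2.Adj 0 1 := by show memL _ _ _ = true; decide
  rcases hab with ⟨rfl, rfl⟩ | ⟨rfl, rfl⟩ | ⟨rfl, rfl⟩
  · refine rho_snd_one D exG2 hG 2 6 h01 (by show memL _ _ _ = true; decide) ?_ hq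
    rintro k (rfl | rfl | rfl) hq hy
    · exact claim D hD hG 2 6 2 6 h01 (by show memL _ _ _ = true; decide)
        (by show memL _ _ _ = true; decide) (by show memL _ _ _ = true; decide)
        (by show memL _ _ _ = true; decide) (by decide)
        (by show ∀ u v, _ → memL _ _ _ = true; decide) (by decide) (by decide) (by decide)
        (by decide) (by decide) (by decide) (by decide) (by decide) (by decide) (by decide) hq hy
    · exact claim D hD hG 2 6 3 7 h01 (by show memL _ _ _ = true; decide)
        (by show memL _ _ _ = true; decide) (by show memL _ _ _ = true; decide)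
        (by show memL _ _ _ = true; decide) (by decide)
        (by show ∀ u v, _ → memL _ _ _ = true; decide) (by decide) (by decide) (by decide)
        (by decide) (by decide) (by decide) (by decide) (by decide) (by decide) (by decide) hq hy
    · exact claim D hD hG 2 6 4 5 h01 (by show memL _ _ _ = true; decide)
        (by show memL _ _ _ = true; decide) (by show memL _ _ _ = true; decide)
        (by show memL _ _ _ = true; decide) (by decide)
        (by show ∀ u v, _ → memL _ _ _ = true; decide) (by decide) (by decide) (by decide)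
        (by decide) (by decide) (by decide) (by decide) (by decide) (by decide) (by decide) hq hy
  · refine rho_snd_one D exG2 hG 3 7 h01 (by show memL _ _ _ = true; decide) ?_ hq
    rintro k (rfl | rfl | rfl) hq hy
    · exact claim D hD hG 3 7 2 6 h01 (by show memL _ _ _ = true; decide)
        (by show memL _ _ _ = true; decide) (by show memL _ _ _ = true; decide)
        (by show memL _ _ _ = true; decide) (by decide)
        (by show ∀ u v, _ → memL _ _ _ = true; decide) (by decide) (by decide) (by decide)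
        (by decide) (by decide) (by decide) (by decide) (by decide) (by decide) (by decide) hq hy
    · exact claim D hD hG 3 7 3 7 h01 (by show memL _ _ _ = true; decide)
        (by show memL _ _ _ = true; decide) (by show memL _ _ _ = true; decide)
        (by show memL _ _ _ = true; decide) (by decide)
        (by show ∀ u v, _ → memL _ _ _ = true; decide) (by decide) (by decide) (by decide)
        (by decide) (by decide) (by decide) (by decide) (by decide) (by decide) (by decide) hq hy
    · exact claim D hD hG 3 7 4 5 h01 (by show memL _ _ _ = true; decide)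
        (by show memL _ _ _ = true; decide) (by show memL _ _ _ = true; decide)
        (by show memL _ _ _ = true; decide) (by decide)
        (by show ∀ u v, _ → memL _ _ _ = true; decide) (by decide) (by decide) (by decide)
        (by decide) (by decide) (by decide) (by decide) (by decide) (by decide) (by decide) hq hy
  · refine rho_snd_one D exG2 hG 4 5 h01 (by show memL _ _ _ = true; decide) ?_ hq
    rintro k (rfl | rfl | rfl) hq hy
    · exact claim D hD hG 4 5 2 6 h01 (by show memL _ _ _ = true; decide)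
        (by show memL _ _ _ = true; decide) (by show memL _ _ _ = true; decide)
        (by show memL _ _ _ = true; decide) (by decide)
        (by show ∀ u v, _ → memL _ _ _ = true; decide) (by decide) (by decide) (by decide)
        (by decide) (by decide) (by decide) (by decide) (by decide) (by decide) (by decide) hq hy
    · exact claim D hD hG 4 5 3 7 h01 (by show memL _ _ _ = true; decide)
        (by show memL _ _ _ = true; decide) (by show memL _ _ _ = true; decide)
        (by show memL _ _ _ = true; decide) (by decide)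
        (by show ∀ u v, _ → memL _ _ _ = true; decide) (by decide) (by decide) (by decide)
        (by decide) (by decide) (by decide) (by decide) (by decide) (by decide) (by decide) hq hy
    · exact claim D hD hG 4 5 4 5 h01 (by show memL _ _ _ = true; decide)
        (by show memL _ _ _ = true; decide) (by show memL _ _ _ = true; decide)
        (by show memL _ _ _ = true; decide) (by decide)
        (by show ∀ u v, _ → memL _ _ _ = true; decide) (by decide) (by decide) (by decide)
        (by decide) (by decide) (by decide) (by decide) (by decide) (by decide) (by decide) hq hy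

theorem not_hasSefe : ¬ HasSefe exG1 exG2 := by
  rintro ⟨D, hD⟩
  have h10 : (exG1 ⊔ exG2).Adj 1 0 := Or.inl (by show memL _ _ _ = true; decide)
  have h15 : (exG1 ⊔ exG2).Adj 1 5 := Or.inl (by show memL _ _ _ = true; decide)
  have h02 : (exG1 ⊔ exG2).Adj 0 2 := Or.inl (by show memL _ _ _ = true; decide)
  have h03 : (exG1 ⊔ exG2).Adj 0 3 := Or.inl (by show memL _ _ _ = true; decide)
  have h04 : (exG1 ⊔ exG2).Adj 0 4 := Or.inl (by show memL _ _ _ = true; decide)
  have key : ∀ (a a' : Fin 8) (ha : (exG1 ⊔ exG2).Adj 0 a) (ha' : (exG1 ⊔ exG2).Adj 0 a'),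
      a ≠ a' → (D.rho (mkD 0 a ha)).snd = 1 → (D.rho (mkD 0 a' ha')).snd = 1 → False := by
    intro a a' ha ha' hne h1 h2
    have h3 : D.rho (mkD 0 a ha) = D.rho (mkD 0 a' ha') := by
      apply SimpleGraph.Dart.ext
      refine Prod.ext ?_ (h1.trans h2.symm)
      exact (D.rho_fst _).trans (D.rho_fst (mkD 0 a' ha')).symm
    have h4 := D.rho.injective h3
    exact hne (congrArg (fun d : (exG1 ⊔ exG2).Dart => d.snd) h4)
  have hadj := (D.rho (mkD 1 0 h10)).adj
  rw [D.rho_fst] at hadj
  rcases adj_one _ hadj with h | h | h | h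
  · -- fixed point of the rotation
    have h1 : D.rho (mkD 1 0 h10) = mkD 1 0 h10 := mkD_ext (D.rho_fst _) h
    have h2 := D.rho_sameCycle (d := mkD 1 0 h10) (d' := mkD 1 5 h15) rfl
    have h3 : mkD 1 0 h10 = mkD 1 5 h15 := (Equiv.Perm.SameCycle.eq_of_left h2 h1)
    have h4 : (0 : Fin 8) = 5 := congrArg (fun d : (exG1 ⊔ exG2).Dart => d.snd) h3
    exact absurd h4 (by decide)
  · exact key 2 4 h02 h04 (by decide)
      (strandG1 D hD 2 5 (by decide) h10 h02 h) (strandG2 D hD 4 5 (by decide) h10 h04 h)
  · exact key 3 2 h03 h02 (by decide)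
      (strandG1 D hD 3 6 (by decide) h10 h03 h) (strandG2 D hD 2 6 (by decide) h10 h02 h)
  · exact key 4 3 h04 h03 (by decide)
      (strandG1 D hD 4 7 (by decide) h10 h04 h) (strandG2 D hD 3 7 (by decide) h10 h03 h)

end Core

end Pool.Agent.Lib.MP_09e2fc_co
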