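import Mathlib
import Pool.Agent.Lib.MP_09e2fc_co.Count
import Pool.Agent.Lib.MP_09e2fc_co.NoSefe

/-!
# A drawing with thirteen crossings in which independent edges of one graph cross evenly
-/

namespace Pool.Agent.Lib.MP_09e2fc_co

open Equiv

def tabU : ℕ := 12696147275309303807866944030474497233871893008852765245161430517944453658220500918433314319687319260360293574623344098779902859502139436095945929218654638134263808
def tabVt : ℕ := 7254941293420054372364734326946944967652467740867572272762286409879563249566404670624857292898274079366925625254801720289793362950547969297565560850961908428193921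
def tabI : ℕ := 5426924621647162319691796178717505131093067785431249815845198072560230131217807655707564039994390393302287048630513089392503630054938246519921052210269751068360832
def tabR : ℕ := 9520159768953886912939666834686676076064326988946378319863473374349457658863163834856011175238437012071140017674098490888165406611701564833499119320534945878378379
def tabRi : ℕ := 40477103969091536919455813770865281157853436131453536401563710959941662155159532511600649027414379142587085394648868921800979514011736343559005260930998359752235022
def tabFl : ℕ := 92514782876685370366261397682222407203497064522772903408511361907559849932223132654002871391266215595246813807915154074360337194783161567600116632892512190685645978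
def tabAL : ℕ := 9195550944488628544782639406841947917712775888514854331042181278653194124400501095536512099149041968802820055027968123726882964900589887651699215222312808464023680
def tabAR : ℕ := 95436219572083861425832198154798927546712192
def tabAP : ℕ := 5440985443402153787984685298215171846039494857141985300497124041928069866634049196178443683548837610596347744118681439139160981109064141136633285377292810263199744
def tabBL : ℕ := 63495017689491771530227425256768782594688898804461320804847155883454312424922485213737279362383785125310492301655130577844480971808056871498067555682396397897810048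
def tabBR : ℕ := 6452314442343620208798077641439314518741051790394356693007721484202311047220068480
def tabBP : ℕ := 1813735325044186258266925760578915521056129861865978957498944206898943607167102915316025564610628950172597924206149945200574679232601413910495830713163621335040000
def tabCL : ℕ := 7340397721230385492216338622902051390096851067667043310584767555296230285117069691521456510752377884588967972013471314512943471911055672705921874017048811316215936
def tabCR : ℕ := 263307542921447442785126797777869656326272
def tabCP : ℕ := 1827795288908967209334074593869520754996232500108485369314049454736517647570992822068781283239611505681108103914352252521533809089487898130274258121445103871459328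
def tabDist : ℕ := 9111520685676708386256132183839528767816230421824830696902660685968383973811736887951527271451639035745679613221218557307842284227503340748372109163830608897606016
def tabN : ℕ := 8186518408623377693757828887751538034657789937202995982068241512679099304774706472023990095681292029228905425675753225661203712

/-- table lookup, base `128` -/
def tab (B k : ℕ) : ℕ := (B >>> (7 * k)) % 128

def uF (k : Fin 78) : Fin 8 := Fin.ofNat 8 (tab tabU k)
def vF (k : Fin 78) : Fin 8 := Fin.ofNat 8 (tab tabVt k)
def iF (k : Fin 78) : ℕ := tab tabI k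

def rP : Perm (Fin 78) where
  toFun k := Fin.ofNat 78 (tab tabR k)
  invFun k := Fin.ofNat 78 (tab tabRi k)
  left_inv := by decide +kernel
  right_inv := by decide +kernel

def fP : Perm (Fin 78) where
  toFun k := Fin.ofNat 78 (tab tabFl k)
  invFun k := Fin.ofNat 78 (tab tabFl k)
  left_inv := by decide +kernel
  right_inv := by decide +kernel

def nT (u v : Fin 8) : ℕ := tab tabN (8 * u + v)

theorem nT_symm : ∀ u v, nT u v = nT v u := by decide +kernel

def nF : Sym2 (Fin 8) → ℕ := Sym2.lift ⟨nT, nT_symm⟩

theorem exAdj_iff (u v : Fin 8) :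
    (exG1 ⊔ exG2).Adj u v ↔ memL (edS ++ ed1) u v = true ∨ memL (edS ++ ed2) u v = true := Iff.rfl

theorem exAdj (k : Fin 78) : (exG1 ⊔ exG2).Adj (uF k) (vF k) := by
  rw [exAdj_iff]
  revert k
  decide +kernel

theorem exLe : ∀ k : Fin 78, iF k ≤ nT (uF k) (vF k) := by decide +kernel

/-- The darts of the drawing. -/
def exSeg (k : Fin 78) : Seg (exG1 ⊔ exG2) nF := ⟨(mkD (uF k) (vF k) (exAdj k), iF k), exLe k⟩

theorem exSeg_inj : Function.Injective exSeg := by
  intro k l h
  have h1 : uF k = uF l := congrArg (fun x : Seg (exG1 ⊔ exG2) nF => x.dart.fst) h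
  have h2 : vF k = vF l := congrArg (fun x : Seg (exG1 ⊔ exG2) nF => x.dart.snd) h
  have h3 : iF k = iF l := congrArg (fun x : Seg (exG1 ⊔ exG2) nF => x.idx) h
  revert h1 h2 h3
  clear h
  revert k l
  decide +kernel

theorem exSeg_surj : Function.Surjective exSeg := by
  intro x
  have h1 : (exG1 ⊔ exG2).Adj x.dart.fst x.dart.snd := x.dart.adj
  have h2 : x.idx ≤ nT x.dart.fst x.dart.snd := x.idx_le
  rw [exAdj_iff] at h1
  have key : ∀ u v : Fin 8, (memL (edS ++ ed1) u v = true ∨ memL (edS ++ ed2) u v = true) →
      ∀ i, i ≤ nT u v → ∃ k : Fin 78, uF k = u ∧ vF k = v ∧ iF k = i := by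
    decide +kernel
  obtain ⟨k, a, b, c⟩ := key _ _ h1 _ h2
  refine ⟨k, Seg.ext' ?_ c⟩
  exact (mkD_ext a.symm b.symm).symm

/-- The parametrization of the directed segments. -/
noncomputable def exE : Fin 78 ≃ Seg (exG1 ⊔ exG2) nF := Equiv.ofBijective exSeg ⟨exSeg_inj, exSeg_surj⟩

theorem exE_apply (k : Fin 78) : exE k = exSeg k := rfl

theorem ex_flip (k : Fin 78) : flip (exG1 ⊔ exG2) nF (exE k) = exE (fP k) := by
  have key : ∀ k : Fin 78, uF (fP k) = vF k ∧ vF (fP k) = uF k ∧
      nT (uF k) (vF k) - iF k = iF (fP k) := by decide +kernel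
  obtain ⟨a, b, c⟩ := key k
  refine Seg.ext' ?_ c
  exact mkD_ext a.symm b.symm

def LA (k : Fin 78) : Fin 21 := Fin.ofNat 21 (tab tabAL k)
def RA (k : Fin 21) : Fin 78 := Fin.ofNat 78 (tab tabAR k)
def LB (k : Fin 78) : Fin 39 := Fin.ofNat 39 (tab tabBL k)
def RB (k : Fin 39) : Fin 78 := Fin.ofNat 78 (tab tabBR k)
def LC (k : Fin 78) : Fin 20 := Fin.ofNat 20 (tab tabCL k)
def RC (k : Fin 20) : Fin 78 := Fin.ofNat 78 (tab tabCR k)

theorem exSphere0 : IsSphereMap rP fP := by
  unfold IsSphereMap
  rw [card_of_cert rP LA RA (fun k => tab tabAP k) (by decide +kernel) (by decide +kernel)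
      (by decide +kernel),
    card_of_cert fP LB RB (fun k => tab tabBP k) (by decide +kernel) (by decide +kernel)
      (by decide +kernel),
    card_of_cert (rP * fP) LC RC (fun k => tab tabCP k) (by decide +kernel) (by decide +kernel)
      (by decide +kernel),
    card_comp_of_cert rP fP 0 (fun k => tab tabDist k) (by decide +kernel)]

/-- The rotation of the drawing. -/
noncomputable def exRot : Perm (Seg (exG1 ⊔ exG2) nF) := exE.permCongr rP

theorem exRot_apply (k : Fin 78) : exRot (exE k) = exE (rP k) := by
  show exE (rP (exE.symm (exE k))) = exE (rP k)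
  rw [Equiv.symm_apply_apply]

theorem exSphere : IsSphereMap exRot (flip (exG1 ⊔ exG2) nF) := by
  rw [isSphereMap_iff_jordan flip_flip flip_ne]
  refine Jordan.congr exE exRot_apply ex_flip ?_
  rw [← isSphereMap_iff_jordan (ι := fP) (by decide +kernel) (by decide +kernel)]
  exact exSphere0

/-- The drawing. -/
noncomputable def exDrawing : Drawing (exG1 ⊔ exG2) where
  n := nF
  rot := exRot
  rot_vertex := by
    intro x y hx
    obtain ⟨k, rfl⟩ := exE.surjective x
    obtain ⟨l, rfl⟩ := exE.surjective y
    rw [sameCycle_congr exE exRot_apply, sameCycle_iff_of_cert rP LA RA (fun k => tab tabAP k)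
      (by decide +kernel) (by decide +kernel)]
    have key : ∀ k l : Fin 78, iF k = 0 → (LA k = LA l ↔ iF l = 0 ∧ uF l = uF k) := by
      decide +kernel
    exact key k l hx
  rot_crossing := by
    intro x hx
    obtain ⟨k, rfl⟩ := exE.surjective x
    rw [exRot_apply, exRot_apply]
    have key : ∀ k : Fin 78, iF k ≠ 0 → uF (rP (rP k)) = vF k ∧ vF (rP (rP k)) = uF k ∧
        iF (rP (rP k)) + iF k = nT (uF k) (vF k) + 1 := by
      decide +kernel
    obtain ⟨a, b, c⟩ := key k hx
    exact ⟨mkD_ext a b, c⟩
  simple := by
    intro x hx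
    obtain ⟨k, rfl⟩ := exE.surjective x
    rw [exRot_apply]
    have key : ∀ k : Fin 78, iF k ≠ 0 →
        ¬ ((uF (rP k) = uF k ∧ vF (rP k) = vF k) ∨ (uF (rP k) = vF k ∧ vF (rP k) = uF k)) := by
      decide +kernel
    intro h
    exact key k hx (Sym2.eq_iff.1 h)
  sphere := exSphere

/-- Number of crossing points, computed. -/
def cnt (a b a' b' : Fin 8) : ℕ :=
  (Finset.univ.filter (fun k : Fin 78 => (decide (uF k = a) && decide (vF k = b) &&
    decide (iF k ≠ 0) && ((decide (uF (rP k) = a') && decide (vF (rP k) = b')) ||
      (decide (uF (rP k) = b') && decide (vF (rP k) = a')))) = true)).card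

theorem crossings_eq (d d' : (exG1 ⊔ exG2).Dart) :
    exDrawing.crossings d d' = cnt d.fst d.snd d'.fst d'.snd := by
  classical
  unfold Drawing.crossings cnt
  rw [← Fintype.card_subtype, ← Nat.card_eq_fintype_card]
  symm
  refine Nat.card_congr (Equiv.subtypeEquiv exE fun k => ?_)
  have e1 : ∀ k, (exE k).dart = mkD (uF k) (vF k) (exAdj k) := fun k => rfl
  show _ ↔ (exE k).dart = d ∧ (exE k).idx ≠ 0 ∧ (exRot (exE k)).dart.edge = d'.edge
  rw [exRot_apply, e1, e1]
  have e2 : mkD (uF k) (vF k) (exAdj k) = d ↔ uF k = d.fst ∧ vF k = d.snd := by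
    constructor
    · rintro rfl
      exact ⟨rfl, rfl⟩
    · rintro ⟨a, b⟩
      exact (mkD_ext a.symm b.symm).symm
  have e3 : (mkD (uF (rP k)) (vF (rP k)) (exAdj (rP k)) : (exG1 ⊔ exG2).Dart).edge = d'.edge ↔
      ((uF (rP k) = d'.fst ∧ vF (rP k) = d'.snd) ∨ (uF (rP k) = d'.snd ∧ vF (rP k) = d'.fst)) := by
    rw [show (mkD (uF (rP k)) (vF (rP k)) (exAdj (rP k)) : (exG1 ⊔ exG2).Dart).edge
      = s(uF (rP k), vF (rP k)) from rfl, show d'.edge = s(d'.fst, d'.snd) from rfl]
    exact Sym2.eq_iff
  rw [e2, e3]
  have e4 : (exE k).idx = iF k := rfl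
  rw [e4]
  simp only [Bool.and_eq_true, Bool.or_eq_true, decide_eq_true_eq]
  tauto

set_option maxRecDepth 100000 in
theorem cnt_parity : ∀ a b : Fin 8, (memL (edS ++ ed1) a b || memL (edS ++ ed2) a b) = true →
    ∀ a' b' : Fin 8, (memL (edS ++ ed1) a' b' || memL (edS ++ ed2) a' b') = true →
    a ≠ a' → a ≠ b' → b ≠ a' → b ≠ b' → cnt a b a' b' % 2 = 1 →
    ((memL (edS ++ ed2) a b = false ∧ memL (edS ++ ed1) a' b' = false) ∨
      (memL (edS ++ ed1) a b = false ∧ memL (edS ++ ed2) a' b' = false)) := by
  decide +kernel

theorem exDrawing_parity (d d' : (exG1 ⊔ exG2).Dart) (hind : Independent d d')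
    (hodd : Odd (exDrawing.crossings d d')) : ExclusivePair exG1 exG2 d d' := by
  rw [crossings_eq, Nat.odd_iff] at hodd
  have h1 : d.fst ∈ d.edge := Sym2.mem_mk_left _ _
  have h2 : d.snd ∈ d.edge := Sym2.mem_mk_right _ _
  have h3 : d'.fst ∈ d'.edge := Sym2.mem_mk_left _ _
  have h4 : d'.snd ∈ d'.edge := Sym2.mem_mk_right _ _
  have a1 := d.adj
  have a2 := d'.adj
  rw [exAdj_iff, ← Bool.or_eq_true] at a1 a2
  have key := cnt_parity d.fst d.snd a1 d'.fst d'.snd a2
    (fun h => hind _ h1 (h ▸ h3)) (fun h => hind _ h1 (h ▸ h4))
    (fun h => hind _ h2 (h ▸ h3)) (fun h => hind _ h2 (h ▸ h4)) hodd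
  rcases key with ⟨a, b⟩ | ⟨a, b⟩
  · left
    constructor
    · intro h
      have h' : memL (edS ++ ed2) d.fst d.snd = true := h
      rw [a] at h'
      exact Bool.false_ne_true h'
    · intro h
      have h' : memL (edS ++ ed1) d'.fst d'.snd = true := h
      rw [b] at h'
      exact Bool.false_ne_true h'
  · right
    constructor
    · intro h
      have h' : memL (edS ++ ed1) d.fst d.snd = true := h
      rw [a] at h'
      exact Bool.false_ne_true h'
    · intro h
      have h' : memL (edS ++ ed2) d'.fst d'.snd = true := h
      rw [b] at h'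
      exact Bool.false_ne_true h'

end Pool.Agent.Lib.MP_09e2fc_co
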