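import Mathlib
import Pool.Agent.Lib.MP_09e2fc_co.CrossState

/-!
# Inserting all edges
-/

namespace Pool.Agent.Lib.MP_09e2fc_co

open Equiv

theorem transfer_zero {S A : Type} [Fintype S] {σ ι : Perm S} {L : S → A} {κ : A → A} {inA : A → S}
    {real : S → Prop} (P : IsPlan σ ι L κ inA real) (z : A → ZMod 2) (t : S → ZMod 2)
    (ht1 : ∀ x, z (L x) = t x + t (σ x)) (ht2 : ∀ x, t (σ x) = t (ι x)) (a : A)
    (h : ∀ x, ¬ real x → L x = a → z (L (σ x)) = 0) : t (σ (inA a)) = t (inA (κ a)) := by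
  classical
  apply zmod2_eq_of_add_eq_zero
  rw [transfer P z t ht1 ht2 a]
  refine Finset.sum_eq_zero fun x hx => ?_
  rw [Finset.mem_filter] at hx
  exact h x hx.2.1 hx.2.2

namespace State

variable {R : Type} {T : Setup R} {J : R → Prop} (M : State T J)

/-- No face function separates the two leaves of a new edge. -/
theorem hstar {Q : R → Prop} (hQκ : ∀ s, Q s → Q (T.κ s)) {r : R} (hr : ¬ J r) (hQr : Q r)
    (hFQ : ∀ ζ : R → ZMod 2, (∀ s, ζ (T.κ s) = ζ s) →
      (∃ u : R → ZMod 2, ∀ s, ζ s = u s + u (T.ρ s)) → (∀ s, ζ s ≠ 0 → J s ∧ ¬ T.q1 s) →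
      (∀ s s', Q s → (T.q1 s ∧ T.q2 s') ∨ (T.q2 s ∧ T.q1 s') → ζ s' = 0) ∧
      ∃ u : R → ZMod 2, (∀ s, ζ s = u s + u (T.ρ s)) ∧ ∀ s, Q s → u (T.ρ s) = u (T.κ s))
    (hconn : ∀ k : R → ZMod 2, (∀ s, k (T.ρ s) = k s) → (∀ s, J s → Q s → k (T.κ s) = k s) →
      k (T.κ r) = k r)
    (t : M.S → ZMod 2) (h1 : ∀ w, t (M.σ w) = t (M.ι w))
    (h2 : ∀ y, T.q1 (M.L y).1 → t (M.σ y) = t y) :
    t (M.inA (r, true)) = t (M.inA (T.κ r, true)) := by
  classical
  have := M.fin
  have := Fintype.ofFinite M.S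
  -- the boundary of `t`
  set z1 : M.S → ZMod 2 := fun x => t x + t (M.σ x) with hz1
  have z1ι : ∀ x, z1 (M.ι x) = z1 x := by
    intro x
    show t (M.ι x) + t (M.σ (M.ι x)) = t x + t (M.σ x)
    rw [h1 (M.ι x), M.plan.ι2, h1 x, add_comm]
  have z1q : ∀ x, T.q1 (M.L x).1 → z1 x = 0 := by
    intro x hx
    show t x + t (M.σ x) = 0
    rw [h2 x hx, zmod2_add_self]
  have z1c : ∀ x, ¬ M.real x → z1 (M.σ (M.σ x)) = z1 x := by
    intro x hx
    have hx2 := M.plan.cross_real x hx
    have e1 : M.σ (M.σ (M.σ (M.σ x))) = x := M.plan.cross4 x hx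
    rcases M.crossTp x hx with hc | hc
    · rw [z1q x hc.1, z1q]
      rw [M.plan.cross_L x hx]
      exact hc.1
    · -- σ x and σ σ σ x are in q1
      have a1 : t (M.σ (M.σ x)) = t (M.σ x) := h2 _ hc.2
      have a2 : t (M.σ (M.σ (M.σ (M.σ x)))) = t (M.σ (M.σ (M.σ x))) := by
        refine h2 _ ?_
        have := M.plan.cross_L (M.σ x) (M.real_σ hx)
        rw [this]
        exact hc.2
      rw [e1] at a2
      show t (M.σ (M.σ x)) + t (M.σ (M.σ (M.σ x))) = t x + t (M.σ x)
      rw [a1, ← a2, add_comm]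
  have z1L : ∀ n, ∀ x, M.pos x ≤ n → z1 x = z1 (M.inA (M.L x)) := by
    intro n
    induction n with
    | zero =>
      intro x hx
      by_cases hreal : M.real x
      · rw [M.plan.in_L x hreal]
      · have := M.pos_lt x hreal
        omega
    | succ n ih =>
      intro x hx
      by_cases hreal : M.real x
      · rw [M.plan.in_L x hreal]
      · have hp := M.pos_lt x hreal
        have e1 := ih (M.ι (M.σ (M.σ x))) (by omega)
        rw [z1ι, z1c x hreal, M.plan.L_ι, M.plan.cross_L x hreal, kA_kA] at e1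
        exact e1
  have z1L' : ∀ x, z1 x = z1 (M.inA (M.L x)) := fun x => z1L _ x le_rfl
  set ζ : R → ZMod 2 := fun s => z1 (M.inA (s, false)) with hζ
  have ζt : ∀ s, z1 (M.inA (s, true)) = ζ s := by
    intro s
    have e1 := z1L' (M.ι (M.inA (s, false)))
    rw [z1ι, M.plan.L_ι, M.plan.L_in] at e1
    exact e1.symm
  have z1ζ : ∀ x, z1 x = ζ (M.L x).1 := by
    intro x
    rw [z1L' x]
    rcases hL : M.L x with ⟨s, b⟩
    cases b with
    | false => rfl
    | true => exact ζt s
  have ζJ : ∀ s, ¬ J s → ζ s = 0 := by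
    intro s hs
    rw [← ζt]
    show t _ + t (M.σ (M.inA (s, true))) = 0
    rw [M.rot_leaf s hs, zmod2_add_self]
  have ζκ : ∀ s, ζ (T.κ s) = ζ s := by
    intro s
    by_cases hs : J s
    · rw [← ζt, ← ζt]
      show t (M.inA (T.κ s, true)) + t (M.σ (M.inA (T.κ s, true)))
        = t (M.inA (s, true)) + t (M.σ (M.inA (s, true)))
      rw [M.rot_mid s hs, M.rot_mid _ (M.Jκ s hs), T.κ2, add_comm]
    · rw [ζJ s hs, ζJ _ (M.notJκ hs)]
  have ζs : ∀ s, ζ s ≠ 0 → J s ∧ ¬ T.q1 s := by
    intro s hs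
    refine ⟨?_, ?_⟩
    · by_contra h
      exact hs (ζJ s h)
    · intro h
      apply hs
      refine z1q _ ?_
      rw [M.plan.L_in]
      exact h
  have ζu : ∀ s, ζ s = t (M.inA (s, false)) + t (M.inA (T.ρ s, false)) := by
    intro s
    show t (M.inA (s, false)) + t (M.σ (M.inA (s, false))) = _
    rw [M.rot_out]
  obtain ⟨hvan, u', hu1, hu2⟩ := hFQ ζ ζκ ⟨fun s => t (M.inA (s, false)), ζu⟩ ζs
  have htr : ∀ a : R × Bool, Q a.1 → t (M.σ (M.inA a)) = t (M.inA (kA a)) := by
    intro a ha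
    refine transfer_zero M.plan (fun a => ζ a.1) t (fun x => (z1ζ x).symm) h1 a ?_
    intro x hx hxa
    refine hvan (M.L x).1 _ ?_ (M.crossTp x hx)
    rw [hxa]
    exact ha
  have t1 : ∀ s, Q s → t (M.inA (T.ρ s, false)) = t (M.inA (s, true)) := by
    intro s hs
    have := htr (s, false) hs
    rwa [M.rot_out] at this
  have t2 : ∀ s, Q s → J s → t (M.inA (T.κ s, true)) = t (M.inA (s, false)) := by
    intro s hs hJs
    have := htr (s, true) hs
    rwa [M.rot_mid s hJs] at this
  have t3 : ∀ s, Q s → ¬ J s → t (M.inA (s, true)) = t (M.inA (s, false)) := by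
    intro s hs hJs
    have := htr (s, true) hs
    rwa [M.rot_leaf s hJs] at this
  have hk := hconn (fun s => t (M.inA (s, false)) + u' s) (by
    intro s
    have e1 := ζu s
    rw [hu1 s] at e1
    show t (M.inA (T.ρ s, false)) + u' (T.ρ s) = t (M.inA (s, false)) + u' s
    apply zmod2_eq_of_add_eq_zero
    have : t (M.inA (T.ρ s, false)) + u' (T.ρ s) + (t (M.inA (s, false)) + u' s)
      = (t (M.inA (s, false)) + t (M.inA (T.ρ s, false))) + (u' s + u' (T.ρ s)) := by ring
    rw [this, ← e1, zmod2_add_self]) (by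
    intro s hJs hQs
    have e1 := t1 s hQs
    have e2 := t2 (T.κ s) (hQκ s hQs) (M.Jκ s hJs)
    rw [T.κ2] at e2
    have e3 := hu2 s hQs
    have e4 := ζu s
    rw [hu1 s] at e4
    show t (M.inA (T.κ s, false)) + u' (T.κ s) = t (M.inA (s, false)) + u' s
    rw [← e2, ← e1, ← e3]
    apply zmod2_eq_of_add_eq_zero
    have : t (M.inA (T.ρ s, false)) + u' (T.ρ s) + (t (M.inA (s, false)) + u' s)
      = (t (M.inA (s, false)) + t (M.inA (T.ρ s, false))) + (u' s + u' (T.ρ s)) := by ring
    rw [this, ← e4, zmod2_add_self])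
  have e1 := t3 r hQr hr
  have e2 := t3 (T.κ r) (hQκ r hQr) (M.notJκ hr)
  have e3 := hu2 r hQr
  have e4 := hu1 r
  rw [ζJ r hr] at e4
  have e5 := zmod2_eq_of_add_eq_zero e4.symm
  rw [e1, e2]
  rw [← e3, ← e5] at hk
  exact (add_right_cancel hk).symm

end State

section Phases

variable {R : Type} {T : Setup R}

/-- The ends of `r` are connected by the edges in `P`. -/
def Conn (T : Setup R) (P : R → Prop) (r : R) : Prop :=
  ∀ k : R → ZMod 2, (∀ s, k (T.ρ s) = k s) → (∀ s, P s → k (T.κ s) = k s) → k (T.κ r) = k r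

/-- Even sets of edges of the second graph among the complete edges consist of shared edges. -/
def InvA (T : Setup R) (J : R → Prop) : Prop :=
  ∀ ζ : R → ZMod 2, (∀ s, ζ (T.κ s) = ζ s) → (∃ u : R → ZMod 2, ∀ s, ζ s = u s + u (T.ρ s)) →
    (∀ s, ζ s ≠ 0 → J s ∧ ¬ T.q1 s) → ∀ s, ζ s ≠ 0 → ¬ T.q2 s

theorem invA_step [Finite R] {J : R → Prop} (hA : InvA T J) {r : R}
    (hc : ¬ Conn T (fun s => J s ∧ ¬ T.q1 s) r) :
    InvA T (fun s => J s ∨ s = r ∨ s = T.κ r) := by
  classical
  have := Fintype.ofFinite R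
  intro ζ h1 h2 h3
  refine hA ζ h1 h2 ?_
  unfold Conn at hc
  push Not at hc
  obtain ⟨k, k1, k2, k3⟩ := hc
  have hζr : ζ r = 0 := by
    obtain ⟨u, hu⟩ := h2
    have e1 : ∑ s, k s * ζ s = 0 := by
      have a1 : ∑ s, k s * ζ s = ∑ s, k s * u s + ∑ s, k (T.ρ s) * u (T.ρ s) := by
        rw [← Finset.sum_add_distrib]
        refine Finset.sum_congr rfl fun s _ => ?_
        rw [hu s, k1, mul_add]
      rw [a1, Equiv.sum_comp T.ρ (fun s => k s * u s), zmod2_add_self]
    have e2 : ∑ s, k s * ζ s = ∑ s ∈ ({r, T.κ r} : Finset R), k s * ζ s := by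
      rw [← Finset.sum_add_sum_compl ({r, T.κ r} : Finset R) (fun s => k s * ζ s)]
      have : ∑ s ∈ ({r, T.κ r} : Finset R)ᶜ, k s * ζ s = 0 := by
        refine Finset.sum_involution (fun s _ => T.κ s) ?_ ?_ ?_ ?_
        · intro s hs
          rw [Finset.mem_compl, Finset.mem_insert, Finset.mem_singleton, not_or] at hs
          rw [h1]
          by_cases hz : ζ s = 0
          · rw [hz]; ring
          · rcases (h3 s hz).1 with hJ | e | e
            · rw [k2 s ⟨hJ, (h3 s hz).2⟩, zmod2_add_self]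
            · exact absurd e hs.1
            · exact absurd e hs.2
        · intro s _ _
          exact T.κ1 s
        · intro s hs
          rw [Finset.mem_compl, Finset.mem_insert, Finset.mem_singleton, not_or] at hs ⊢
          refine ⟨?_, ?_⟩
          · intro e
            exact hs.2 (by rw [← e, T.κ2])
          · intro e
            apply hs.1
            rw [← T.κ2 s, e, T.κ2]
        · intro s _
          exact T.κ2 s
      rw [this, add_zero]
    rw [e2, Finset.sum_pair (T.κ1 r).symm, h1, ← add_mul, one_of_ne (Ne.symm k3), one_mul] at e1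
    exact e1
  intro s hs
  refine ⟨?_, (h3 s hs).2⟩
  rcases (h3 s hs).1 with h | h | h
  · exact h
  · rw [h] at hs
    exact absurd hζr hs
  · rw [h, h1] at hs
    exact absurd hζr hs

/-- Insertion of an edge of the second graph whose ends are connected in the second graph. -/
theorem stepB {J : R → Prop} (M : State T J) {r : R} (hr : ¬ J r) (hq : T.q2 r)
    (hc : Conn T (fun s => J s ∧ ¬ T.q1 s) r) :
    Nonempty (State T (fun s => J s ∨ s = r ∨ s = T.κ r)) := by
  refine M.insert_edge r hr hq fun t h1 h2 => ?_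
  refine M.hstar (Q := fun s => ¬ T.q1 s) ?_ hr ?_ ?_ ?_ t h1 h2
  · intro s hs h
    have := T.q1κ _ h
    rw [T.κ2] at this
    exact hs this
  · intro h
    exact T.disj r h hq
  · intro ζ z1 z2 z3
    refine ⟨?_, T.F2 ζ z1 z2 fun s hs => (z3 s hs).2⟩
    intro s s' hs h
    by_contra hne
    rcases h with h | h
    · exact hs h.1
    · exact (z3 s' hne).2 h.2
  · intro k k1 k2
    exact hc k k1 fun s hs => k2 s hs.1 hs.2

/-- Insertion of an edge of the second graph whose ends are not connected in the second graph. -/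
theorem stepA {J : R → Prop} (M : State T J) (hA : InvA T J) {r : R} (hr : ¬ J r) (hq : T.q2 r) :
    Nonempty (State T (fun s => J s ∨ s = r ∨ s = T.κ r)) := by
  by_cases hc : Conn T J r
  · refine M.insert_edge r hr hq fun t h1 h2 => ?_
    refine M.hstar (Q := fun _ => True) (fun _ _ => trivial) hr trivial ?_ ?_ t h1 h2
    · intro ζ z1 z2 z3
      have hs := hA ζ z1 z2 z3
      refine ⟨?_, ?_⟩
      · intro s s' _ h
        by_contra hne
        rcases h with h | h
        · exact hs s' hne h.2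
        · exact (z3 s' hne).2 h.2
      · obtain ⟨u, hu1, hu2⟩ := T.F0 ζ z1 z2 fun s hne => ⟨(z3 s hne).2, hs s hne⟩
        exact ⟨u, hu1, fun s _ => hu2 s⟩
    · intro k k1 k2
      exact hc k k1 fun s hs => k2 s hs trivial
  · unfold Conn at hc
    push Not at hc
    obtain ⟨k, k1, k2, k3⟩ := hc
    exact M.join_diff r hr k1 k2 k3

theorem ncard_lt [Finite R] {J : R → Prop} {r : R} (hr : ¬ J r) :
    Set.ncard {s | ¬ (J s ∨ s = r ∨ s = T.κ r)} < Set.ncard {s | ¬ J s} := by
  refine Set.ncard_lt_ncard ?_ (Set.toFinite _)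
  refine ⟨fun s hs h => hs (Or.inl h), fun h => ?_⟩
  have := h (show r ∈ {s | ¬ J s} from hr)
  exact this (Or.inr (Or.inl rfl))

theorem phaseB [Finite R] (n : ℕ) : ∀ (J : R → Prop) (_ : State T J), (∀ s, ¬ J s → T.q2 s) →
    (∀ s, ¬ J s → Conn T (fun s => J s ∧ ¬ T.q1 s) s) → Set.ncard {s | ¬ J s} ≤ n →
    Nonempty (State T (fun _ => True)) := by
  induction n with
  | zero =>
    intro J M _ _ hn
    have h0 : Set.ncard {s | ¬ J s} = 0 := by omega
    rw [Set.ncard_eq_zero] at h0
    have hJ : J = fun _ => True := by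
      funext s
      by_contra h
      have : s ∈ {s | ¬ J s} := fun h2 => h (eq_true h2)
      rw [h0] at this
      exact this
    subst hJ
    exact ⟨M⟩
  | succ n ih =>
    intro J M h1 h2 hn
    by_cases hall : ∀ s, J s
    · have hJ : J = fun _ => True := by
        funext s
        exact eq_true (hall s)
      subst hJ
      exact ⟨M⟩
    · push Not at hall
      obtain ⟨r, hr⟩ := hall
      obtain ⟨M'⟩ := stepB M hr (h1 r hr) (h2 r hr)
      refine ih _ M' (fun s hs => h1 s fun h => hs (Or.inl h)) ?_ ?_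
      · intro s hs k k1 k2
        exact h2 s (fun h => hs (Or.inl h)) k k1 fun s' hs' => k2 s' ⟨Or.inl hs'.1, hs'.2⟩
      · have := ncard_lt (T := T) hr
        omega

theorem phaseA [Finite R] (n : ℕ) : ∀ (J : R → Prop) (_ : State T J), (∀ s, ¬ J s → T.q2 s) →
    InvA T J → Set.ncard {s | ¬ J s} ≤ n →
    Nonempty (State T (fun _ => True)) := by
  induction n with
  | zero =>
    intro J M _ _ hn
    have h0 : Set.ncard {s | ¬ J s} = 0 := by omega
    rw [Set.ncard_eq_zero] at h0
    have hJ : J = fun _ => True := by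
      funext s
      by_contra h
      have : s ∈ {s | ¬ J s} := fun h2 => h (eq_true h2)
      rw [h0] at this
      exact this
    subst hJ
    exact ⟨M⟩
  | succ n ih =>
    intro J M h1 hA hn
    by_cases hall : ∀ s, ¬ J s → Conn T (fun s => J s ∧ ¬ T.q1 s) s
    · exact phaseB _ J M h1 hall le_rfl
    · push Not at hall
      obtain ⟨r, hr, hc⟩ := hall
      obtain ⟨M'⟩ := stepA M hA hr (h1 r hr)
      refine ih _ M' (fun s hs => h1 s fun h => hs (Or.inl h)) (invA_step hA hc) ?_
      have := ncard_lt (T := T) hr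
      omega

end Phases

end Pool.Agent.Lib.MP_09e2fc_co
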