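import Mathlib
import Pool.Agent.Lib.MP_09e2fc_co.Insert

/-!
# The initial state
-/

namespace Pool.Agent.Lib.MP_09e2fc_co

open Equiv

section

variable {R : Type} (T : Setup R)

theorem Setup.q2κ' {r : R} (h : ¬ T.q2 r) : ¬ T.q2 (T.κ r) := by
  intro h2
  have := T.q2κ _ h2
  rw [T.κ2] at this
  exact h this

open Classical in
/-- The rotation of the initial state, as a function. -/
noncomputable def tauF (a : R × Bool) : R × Bool :=
  if a.2 = false then (T.ρ a.1, false) else if T.q2 a.1 then a else (T.κ a.1, true)

theorem tauF_false (r : R) : tauF T (r, false) = (T.ρ r, false) := by simp [tauF]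
theorem tauF_q2 {r : R} (h : T.q2 r) : tauF T (r, true) = (r, true) := by simp [tauF, h]
theorem tauF_nq2 {r : R} (h : ¬ T.q2 r) : tauF T (r, true) = (T.κ r, true) := by simp [tauF, h]

theorem tauF_inj : Function.Injective (tauF T) := by
  rintro ⟨r, b⟩ ⟨s, c⟩ h
  cases b <;> cases c
  · rw [tauF_false, tauF_false] at h
    rw [T.ρ.injective (congrArg Prod.fst h)]
  · rw [tauF_false] at h
    by_cases hs : T.q2 s
    · rw [tauF_q2 T hs] at h
      exact absurd (congrArg Prod.snd h) (by simp)
    · rw [tauF_nq2 T hs] at h
      exact absurd (congrArg Prod.snd h) (by simp)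
  · rw [tauF_false] at h
    by_cases hs : T.q2 r
    · rw [tauF_q2 T hs] at h
      exact absurd (congrArg Prod.snd h) (by simp)
    · rw [tauF_nq2 T hs] at h
      exact absurd (congrArg Prod.snd h) (by simp)
  · by_cases hr : T.q2 r <;> by_cases hs : T.q2 s
    · rw [tauF_q2 T hr, tauF_q2 T hs] at h
      exact h
    · rw [tauF_q2 T hr, tauF_nq2 T hs] at h
      have := congrArg Prod.fst h
      simp only at this
      rw [this] at hr
      exact absurd hr (T.q2κ' hs)
    · rw [tauF_nq2 T hr, tauF_q2 T hs] at h
      have := congrArg Prod.fst h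
      simp only at this
      rw [← this] at hs
      exact absurd hs (T.q2κ' hr)
    · rw [tauF_nq2 T hr, tauF_nq2 T hs] at h
      have := congrArg Prod.fst h
      simp only at this
      rw [← T.κ2 r, this, T.κ2]

/-- The initial state: the first graph is complete. -/
noncomputable def initState [Finite R] : State T (fun r => ¬ T.q2 r) where
  S := R × Bool
  fin := inferInstance
  σ := Equiv.ofBijective (tauF T) (Finite.injective_iff_bijective.1 (tauF_inj T))
  ι := Function.Involutive.toPerm kA kA_kA
  L := id
  inA := id
  real := fun _ => True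
  plan :=
    { ι2 := kA_kA
      ι1 := fun x h => by
        have := congrArg Prod.snd h
        have h2 : (!x.2) = x.2 := this
        simp at h2
      κ2 := kA_kA
      real_in := fun _ => trivial
      L_in := fun _ => rfl
      in_L := fun _ _ => rfl
      cross_real := fun _ h => absurd trivial h
      cross_L := fun _ h => absurd trivial h
      cross4 := fun _ h => absurd trivial h
      L_ι := fun _ => rfl }
  Jκ := fun r h => T.q2κ' h
  rot_out := fun r => tauF_false T r
  rot_mid := fun r h => tauF_nq2 T h
  rot_leaf := fun r h => tauF_q2 T (not_not.1 h)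
  crossTp := fun _ h => absurd trivial h
  comp := fun _ _ _ _ h => absurd trivial h
  pos := fun _ => 0
  pos_lt := fun _ h => absurd trivial h
  jordan := by
    intro z hz hz2
    obtain ⟨t, ht⟩ := hz2
    have ht' : ∀ x, z x = t x + t (tauF T x) := ht
    have hz' : ∀ x, z (kA x) = z x := hz
    have hq2 : ∀ r, T.q2 r → z (r, false) = 0 := by
      intro r hr
      have e1 := ht' (r, true)
      rw [tauF_q2 T hr, zmod2_add_self] at e1
      rw [← e1]
      exact hz' (r, true)
    have hκ : ∀ r, z (T.κ r, false) = z (r, false) := by
      intro r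
      by_cases hr : T.q2 r
      · rw [hq2 r hr, hq2 _ (T.q2κ r hr)]
      · have e1 := ht' (r, true)
        have e2 := ht' (T.κ r, true)
        rw [tauF_nq2 T hr] at e1
        rw [tauF_nq2 T (T.q2κ' hr), T.κ2] at e2
        have e3 : z (T.κ r, false) = z (T.κ r, true) := hz' (T.κ r, true)
        have e4 : z (r, false) = z (r, true) := hz' (r, true)
        rw [e3, e4, e1, e2, add_comm]
    obtain ⟨u, hu1, hu2⟩ := T.F1 (fun r => z (r, false)) hκ
      ⟨fun r => t (r, false), fun r => by
        have := ht' (r, false)
        rwa [tauF_false] at this⟩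
      (fun r hr h => hr (hq2 r h))
    refine ⟨fun a => if a.2 = false then u a.1 else u (T.ρ a.1), ?_, ?_⟩
    · rintro ⟨r, b⟩
      show z (r, b) = (if b = false then u r else u (T.ρ r)) +
        (if (tauF T (r, b)).2 = false then u (tauF T (r, b)).1 else u (T.ρ (tauF T (r, b)).1))
      cases b with
      | false =>
        rw [tauF_false]
        simp only [if_true]
        exact hu1 r
      | true =>
        have e4 : z (r, true) = z (r, false) := (hz' (r, true)).symm
        by_cases hr : T.q2 r
        · rw [tauF_q2 T hr, e4, hq2 r hr]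
          simp [zmod2_add_self]
        · rw [tauF_nq2 T hr, e4, ← hκ]
          simp only [Bool.true_eq_false, if_false]
          rw [hu1 (T.κ r), hu2 r hr]
    · rintro ⟨r, b⟩
      show (if (tauF T (r, b)).2 = false then u (tauF T (r, b)).1 else
        u (T.ρ (tauF T (r, b)).1)) = (if (!b) = false then u r else u (T.ρ r))
      cases b with
      | false =>
        rw [tauF_false]
        simp
      | true =>
        by_cases hr : T.q2 r
        · rw [tauF_q2 T hr]
          have := hu1 r
          rw [hq2 r hr] at this
          simp [zmod2_eq_of_add_eq_zero this.symm]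
        · rw [tauF_nq2 T hr]
          have := hu2 (T.κ r) (T.q2κ' hr)
          rw [T.κ2] at this
          simp [this]

theorem exists_full [Finite R] : Nonempty (State T (fun _ => True)) := by
  refine phaseA _ _ (initState T) (fun s hs => not_not.1 hs) ?_ le_rfl
  intro ζ _ _ h s hs
  exact (h s hs).1

end

end Pool.Agent.Lib.MP_09e2fc_co
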