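import Mathlib
import Pool.Agent.Lib.MP_09e2fc_co.Init

/-!
# Removing the midpoints
-/

namespace Pool.Agent.Lib.MP_09e2fc_co

open Equiv

/-- A planar planarization of the graph described by `T`, all of whose crossing points are
crossing points of exclusive edges of different graphs. -/
structure Flat {R : Type} (T : Setup R) where
  S : Type
  fin : Finite S
  σ : Perm S
  ι : Perm S
  L : S → R
  inA : R → S
  real : S → Prop
  plan : IsPlan σ ι L T.κ inA real
  rot : ∀ r, σ (inA r) = inA (T.ρ r)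
  crossTp : ∀ x, ¬ real x → (T.q1 (L x) ∧ T.q2 (L (σ x))) ∨ (T.q2 (L x) ∧ T.q1 (L (σ x)))
  pos : S → ℕ
  pos_lt : ∀ x, ¬ real x → pos (ι (σ (σ x))) < pos x
  jordan : Jordan σ ι

namespace State

variable {R : Type} {T : Setup R} (M : State T (fun _ => True))

/-- Not starting at a midpoint. -/
def NM (x : M.S) : Prop := ∀ r, x ≠ M.inA (r, true)

theorem rm (r : R) : M.σ (M.inA (r, true)) = M.inA (T.κ r, true) := M.rot_mid r trivial

theorem NM_σ (x : M.S) : M.NM (M.σ x) ↔ M.NM x := by
  constructor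
  · rintro h r rfl
    exact h _ (M.rm r)
  · intro h r hr
    apply h (T.κ r)
    apply M.σ.injective
    rw [hr, M.rm, T.κ2]

theorem NM_of_L {x : M.S} (h : (M.L x).2 = false) : M.NM x := by
  rintro r rfl
  rw [M.plan.L_in] at h
  simp at h

theorem L_of_mid {x : M.S} (h : ¬ M.NM x) : x = M.inA ((M.L x).1, true) := by
  unfold NM at h
  push Not at h
  obtain ⟨r, hr⟩ := h
  rw [hr, M.plan.L_in]

theorem NM_ι_mid (r : R) : M.NM (M.ι (M.inA (r, true))) := by
  apply M.NM_of_L
  rw [M.plan.L_ι, M.plan.L_in]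
  rfl

open Classical in
/-- Reversal, skipping midpoints. -/
noncomputable def iF (x : M.S) : M.S :=
  if M.NM (M.ι x) then M.ι x else M.ι (M.inA (T.κ (M.L x).1, true))

theorem iF_NM (x : M.S) : M.NM (M.iF x) := by
  unfold iF
  split_ifs with h
  · exact h
  · exact M.NM_ι_mid _

theorem mid_form {x : M.S} (h : ¬ M.NM (M.ι x)) : x = M.ι (M.inA ((M.L x).1, true)) := by
  have h1 := M.L_of_mid h
  rw [M.L_ι_fst] at h1
  rw [← h1, M.plan.ι2]

theorem iF_mid (r : R) : M.iF (M.ι (M.inA (r, true))) = M.ι (M.inA (T.κ r, true)) := by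
  unfold iF
  rw [if_neg, M.L_ι_fst, M.plan.L_in]
  rw [M.plan.ι2]
  intro h
  exact h r rfl

theorem iF_iF {x : M.S} (hx : M.NM x) : M.iF (M.iF x) = x := by
  by_cases h : M.NM (M.ι x)
  · have e1 : M.iF x = M.ι x := if_pos h
    rw [e1]
    unfold iF
    rw [M.plan.ι2, if_pos hx]
  · rw [M.mid_form h, M.iF_mid, M.iF_mid, T.κ2]

/-- The reversal of the flattened planarization. -/
noncomputable def i1 : Perm {x : M.S // M.NM x} :=
  Function.Involutive.toPerm (fun x => ⟨M.iF x.1, M.iF_NM x.1⟩)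
    (fun x => Subtype.ext (M.iF_iF x.2))

/-- The rotation of the flattened planarization. -/
def s1 : Perm {x : M.S // M.NM x} := M.σ.subtypePerm M.NM_σ

theorem i1_val (x : {x : M.S // M.NM x}) : (M.i1 x).1 = M.iF x.1 := rfl
theorem s1_val (x : {x : M.S // M.NM x}) : (M.s1 x).1 = M.σ x.1 := rfl

/-- The label in the flattened planarization. -/
def L1 (x : M.S) : R := if (M.L x).2 = false then (M.L x).1 else T.κ (M.L x).1

theorem L1_of_kA {x y : M.S} (h : M.L y = kA (M.L x)) : M.L1 y = T.κ (M.L1 x) := by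
  unfold L1
  rw [h]
  rcases M.L x with ⟨r, b⟩
  cases b with
  | false => simp [kA]
  | true => simp [kA, T.κ2]

theorem L1_in (r : R) : M.L1 (M.inA (r, false)) = r := by
  unfold L1
  rw [M.plan.L_in]
  rfl

theorem L1_iF (x : M.S) : M.L1 (M.iF x) = T.κ (M.L1 x) := by
  by_cases h : M.NM (M.ι x)
  · have e1 : M.iF x = M.ι x := if_pos h
    rw [e1]
    exact M.L1_of_kA (M.plan.L_ι x)
  · rw [M.mid_form h, M.iF_mid]
    unfold L1
    rw [M.plan.L_ι, M.plan.L_in, M.plan.L_ι, M.plan.L_in]
    simp [kA]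

theorem q1L1 {x : M.S} (h : T.q1 (M.L x).1) : T.q1 (M.L1 x) := by
  unfold L1
  split_ifs
  · exact h
  · exact T.q1κ _ h

theorem q2L1 {x : M.S} (h : T.q2 (M.L x).1) : T.q2 (M.L1 x) := by
  unfold L1
  split_ifs
  · exact h
  · exact T.q2κ _ h

open Classical in
theorem jordan1 : Jordan M.s1 M.i1 := by
  intro z hz hz2
  obtain ⟨t, ht⟩ := hz2
  set z' : M.S → ZMod 2 := fun x =>
    if hx : M.NM x then z ⟨x, hx⟩ else z ⟨M.ι (M.inA ((M.L x).1, true)), M.NM_ι_mid _⟩ with hz'
  have zNM : ∀ x (hx : M.NM x), z' x = z ⟨x, hx⟩ := fun x hx => dif_pos hx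
  have zmid : ∀ r, z' (M.inA (r, true)) = z ⟨M.ι (M.inA (r, true)), M.NM_ι_mid _⟩ := by
    intro r
    have : ¬ M.NM (M.inA (r, true)) := fun h => h r rfl
    rw [hz']
    simp only [dif_neg this]
    congr 2
    rw [M.plan.L_in]
  have zκ : ∀ r, z' (M.inA (T.κ r, true)) = z' (M.inA (r, true)) := by
    intro r
    rw [zmid, zmid, ← hz]
    congr 1
    apply Subtype.ext
    rw [i1_val, M.iF_mid, T.κ2]
  have zι : ∀ x, z' (M.ι x) = z' x := by
    intro x
    by_cases hx : M.NM x
    · by_cases h : M.NM (M.ι x)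
      · rw [zNM x hx, zNM _ h, ← hz]
        congr 1
        apply Subtype.ext
        rw [i1_val]
        have e1 : M.iF (M.ι x) = M.ι (M.ι x) := if_pos (by rw [M.plan.ι2]; exact hx)
        rw [e1, M.plan.ι2]
      · have e1 := M.mid_form h
        rw [M.L_of_mid h, zmid, zNM x hx]
        congr 1
        apply Subtype.ext
        show M.ι (M.inA ((M.L (M.ι x)).1, true)) = x
        rw [M.L_ι_fst, ← e1]
    · rw [M.L_of_mid hx, zmid, zNM _ (M.NM_ι_mid _)]
  obtain ⟨t0, h1, h2⟩ := M.jordan z' zι ⟨fun x => if hx : M.NM x then t ⟨x, hx⟩ else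
      if WellOrderingRel x (M.σ x) then z' x else 0, by
    intro x
    by_cases hx : M.NM x
    · have hx' : M.NM (M.σ x) := (M.NM_σ x).2 hx
      simp only [dif_pos hx, dif_pos hx']
      rw [zNM x hx]
      exact ht ⟨x, hx⟩
    · have hx' : ¬ M.NM (M.σ x) := fun h => hx ((M.NM_σ x).1 h)
      simp only [dif_neg hx, dif_neg hx']
      have e0 := M.L_of_mid hx
      generalize (M.L x).1 = r at e0
      subst e0
      rw [M.rm, M.rm, T.κ2, zκ]
      have hne : M.inA (r, true) ≠ M.inA (T.κ r, true) := M.leaf_ne r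
      rcases trichotomous_of WellOrderingRel (M.inA (r, true)) (M.inA (T.κ r, true)) with h | h | h
      · rw [if_pos h, if_neg (fun h' => asymm h h'), add_zero]
      · exact absurd h hne
      · rw [if_pos h, if_neg (fun h' => asymm h h'), zero_add]⟩
  refine ⟨fun x => t0 x.1, fun x => ?_, fun x => ?_⟩
  · show z x = t0 x.1 + t0 (M.σ x.1)
    rw [← h1, zNM x.1 x.2]
  · show t0 (M.σ x.1) = t0 (M.iF x.1)
    by_cases h : M.NM (M.ι x.1)
    · have e1 : M.iF x.1 = M.ι x.1 := if_pos h
      rw [e1, h2]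
    · have e1 := M.mid_form h
      generalize (M.L x.1).1 = r at e1
      rw [e1, M.iF_mid, h2, M.plan.ι2, ← h2, M.rm, T.κ2]

include M in
theorem exists_flat : Nonempty (Flat T) := by
  classical
  have := M.fin
  have := Fintype.ofFinite M.S
  refine ⟨
    { S := {x : M.S // M.NM x}
      fin := inferInstance
      σ := M.s1
      ι := M.i1
      L := fun x => M.L1 x.1
      inA := fun r => ⟨M.inA (r, false), M.NM_of_L (by rw [M.plan.L_in])⟩
      real := fun x => M.real x.1
      plan :=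
        { ι2 := fun x => Subtype.ext (M.iF_iF x.2)
          ι1 := ?_
          κ2 := T.κ2
          real_in := fun _ => M.plan.real_in _
          L_in := fun r => M.L1_in r
          in_L := ?_
          cross_real := fun x h => M.plan.cross_real x.1 h
          cross_L := fun x h => M.L1_of_kA (M.plan.cross_L x.1 h)
          cross4 := fun x h => Subtype.ext (M.plan.cross4 x.1 h)
          L_ι := fun x => M.L1_iF x.1 }
      rot := fun r => Subtype.ext (M.rot_out r)
      crossTp := ?_
      pos := fun x => if (M.L x.1).2 = false then M.pos x.1 else M.pos x.1 + (∑ y, M.pos y + 1)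
      pos_lt := ?_
      jordan := M.jordan1 }⟩
  · intro x h
    have h1 := congrArg Subtype.val h
    rw [i1_val] at h1
    have h2 := M.L1_iF x.1
    rw [h1] at h2
    exact T.κ1 _ h2.symm
  · intro x hx
    apply Subtype.ext
    have h1 := M.plan.in_L x.1 hx
    have h2 : (M.L x.1).2 = false := by
      by_contra h
      rw [Bool.not_eq_false] at h
      apply x.2 (M.L x.1).1
      rw [← h]
      exact h1.symm
    show M.inA (M.L1 x.1, false) = x.1
    unfold L1
    rw [if_pos h2]
    rw [← h1]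
    congr 1
    rw [M.plan.L_in]
    exact Prod.ext rfl h2.symm
  · intro x hx
    rcases M.crossTp x.1 hx with h | h
    · exact Or.inl ⟨M.q1L1 h.1, M.q2L1 h.2⟩
    · exact Or.inr ⟨M.q2L1 h.1, M.q1L1 h.2⟩
  · intro x hx
    have hp := M.pos_lt x.1 hx
    have hL := M.plan.cross_L x.1 hx
    show (if (M.L (M.iF (M.σ (M.σ x.1)))).2 = false then M.pos (M.iF (M.σ (M.σ x.1)))
      else M.pos (M.iF (M.σ (M.σ x.1))) + (∑ y, M.pos y + 1)) <
      if (M.L x.1).2 = false then M.pos x.1 else M.pos x.1 + (∑ y, M.pos y + 1)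
    generalize M.σ (M.σ x.1) = w at *
    by_cases h : M.NM (M.ι w)
    · have e1 : M.iF w = M.ι w := if_pos h
      rw [e1, M.plan.L_ι, hL, kA_kA]
      split_ifs <;> omega
    · have e1 := M.mid_form h
      have e2 : (M.L x.1).2 = true := by
        have e3 := congrArg M.L e1
        rw [M.plan.L_ι, M.plan.L_in, hL] at e3
        have e4 := congrArg Prod.snd e3
        simpa [kA] using e4
      rw [e1, M.iF_mid, M.plan.L_ι, M.plan.L_in, e2]
      simp only [kA, Bool.not_true, if_true, Bool.true_eq_false, if_false]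
      have : M.pos (M.ι (M.inA (T.κ (M.L w).1, true))) ≤ ∑ y, M.pos y :=
        Finset.single_le_sum (fun _ _ => Nat.zero_le _) (Finset.mem_univ _)
      omega

end State

end Pool.Agent.Lib.MP_09e2fc_co
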