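import Mathlib
import Pool.Agent.Lib.MP_09e2fc_co.Flat

/-!
# Numbering the segments of an edge
-/

namespace Pool.Agent.Lib.MP_09e2fc_co

open Equiv

open Classical in
/-- The number of crossing points before a directed segment. -/
noncomputable def idxF {S : Type} (σ ι : Perm S) (real : S → Prop) (pos : S → ℕ)
    (hpos : ∀ x, ¬ real x → pos (ι (σ (σ x))) < pos x) (x : S) : ℕ :=
  if h : real x then 0 else idxF σ ι real pos hpos (ι (σ (σ x))) + 1
termination_by pos x
decreasing_by exact hpos x h

section

variable {S A : Type} {σ ι : Perm S} {L : S → A} {κ : A → A} {inA : A → S} {real : S → Prop}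

theorem exists_idx (P : IsPlan σ ι L κ inA real) (pos : S → ℕ)
    (hpos : ∀ x, ¬ real x → pos (ι (σ (σ x))) < pos x) :
    ∃ (idx : S → ℕ) (n : A → ℕ), (∀ x, idx x = 0 ↔ real x) ∧
      (∀ x, idx x + idx (ι x) = n (L x)) ∧ (∀ a, n (κ a) = n a) ∧
      (∀ x, ¬ real x → idx (σ (σ x)) + idx x = n (L x) + 1) ∧
      (∀ x y, L x = L y → idx x = idx y → x = y) ∧
      ∀ a i, i ≤ n a → ∃ x, L x = a ∧ idx x = i := by
  set idx := idxF σ ι real pos hpos with hidx
  have I1 : ∀ x, real x → idx x = 0 := by
    intro x hx
    rw [hidx, idxF, dif_pos hx]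
  have I2 : ∀ x, ¬ real x → idx x = idx (ι (σ (σ x))) + 1 := by
    intro x hx
    rw [hidx]
    conv_lhs => rw [idxF, dif_neg hx]
  have I0 : ∀ x, idx x = 0 ↔ real x := by
    intro x
    constructor
    · intro h
      by_contra hx
      rw [I2 x hx] at h
      omega
    · exact I1 x
  have Lb : ∀ x, ¬ real x → L (ι (σ (σ x))) = L x := by
    intro x hx
    rw [P.L_ι, P.cross_L x hx, P.κ2]
  have I3a : ∀ x, ¬ real x → idx (σ (σ x)) = idx (ι x) + 1 := by
    intro x hx
    rw [I2 _ (P.cross_real x hx), P.cross4 x hx]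
  have I3 : ∀ x, ¬ real x → idx (ι (σ (σ x))) + idx (ι (ι (σ (σ x)))) = idx x + idx (ι x) := by
    intro x hx
    rw [P.ι2, I3a x hx, I2 x hx]
    omega
  have I4 : ∀ m x, pos x ≤ m → idx x + idx (ι x) = idx (inA (L x)) + idx (ι (inA (L x))) := by
    intro m
    induction m with
    | zero =>
      intro x hx
      by_cases hr : real x
      · rw [P.in_L x hr]
      · have := hpos x hr
        omega
    | succ m ih =>
      intro x hx
      by_cases hr : real x
      · rw [P.in_L x hr]
      · have := hpos x hr
        rw [← I3 x hr, ih _ (by omega), Lb x hr]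
  have Iin : ∀ a, idx (inA a) = 0 := fun a => I1 _ (P.real_in a)
  have I5 : ∀ x, idx x + idx (ι x) = idx (ι (inA (L x))) := by
    intro x
    rw [I4 _ x le_rfl, Iin, zero_add]
  have I5κ : ∀ a, idx (ι (inA (κ a))) = idx (ι (inA a)) := by
    intro a
    have h1 := I5 (ι (inA a))
    rw [P.ι2, P.L_ι, P.L_in, Iin, add_zero] at h1
    exact h1.symm
  refine ⟨idx, fun a => idx (ι (inA a)), I0, I5, I5κ, ?_, ?_, ?_⟩
  · intro x hx
    rw [I3a x hx]
    have := I5 x
    show idx (ι x) + 1 + idx x = idx (ι (inA (L x))) + 1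
    omega
  · have key : ∀ m x y, idx x = m → L x = L y → idx x = idx y → x = y := by
      intro m
      induction m with
      | zero =>
        intro x y hm hL hi
        have h1 : real x := (I0 x).1 hm
        have h2 : real y := (I0 y).1 (by omega)
        rw [← P.in_L x h1, ← P.in_L y h2, hL]
      | succ m ih =>
        intro x y hm hL hi
        have h1 : ¬ real x := fun h => by
          rw [I1 x h] at hm
          omega
        have h2 : ¬ real y := fun h => by
          rw [I1 y h] at hi
          omega
        have e1 := I2 x h1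
        have e2 := I2 y h2
        have := ih (ι (σ (σ x))) (ι (σ (σ y))) (by omega) (by rw [Lb x h1, Lb y h2, hL]) (by omega)
        exact σ.injective (σ.injective (ι.injective this))
    intro x y hL hi
    exact key _ x y rfl hL hi
  · have key : ∀ a j, j ≤ idx (ι (inA a)) → ∃ x, L x = a ∧ idx x + j = idx (ι (inA a)) := by
      intro a j
      induction j with
      | zero =>
        intro _
        refine ⟨ι (inA (κ a)), ?_, ?_⟩
        · rw [P.L_ι, P.L_in, P.κ2]
        · rw [I5κ, add_zero]
      | succ j ih =>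
        intro hj
        obtain ⟨x, h1, h2⟩ := ih (by omega)
        have hx : ¬ real x := fun h => by
          rw [I1 x h] at h2
          omega
        refine ⟨ι (σ (σ x)), ?_, ?_⟩
        · rw [Lb x hx, h1]
        · have := I2 x hx
          omega
    intro a i hi
    obtain ⟨x, h1, h2⟩ := key a (idx (ι (inA a)) - i) (Nat.sub_le _ _)
    exact ⟨x, h1, by
      have : i ≤ idx (ι (inA a)) := hi
      omega⟩

end

end Pool.Agent.Lib.MP_09e2fc_co
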