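import Mathlib
import Pool.Agent.Lib.MP_09e2fc_co.Index
import Pool.Agent.Lib.MP_09e2fc_co.Rot

/-!
# From flat planarizations to drawings
-/

namespace Pool.Agent.Lib.MP_09e2fc_co

open Equiv

section

variable {V : Type} {H : SimpleGraph V}

theorem exists_drawing {T : Setup H.Dart} (hκ : ∀ d, T.κ d = d.symm)
    (hρ : ∀ d d', T.ρ.SameCycle d d' ↔ d.fst = d'.fst) (F : Flat T) :
    ∃ D : Drawing H, (∀ d, (D.rot (inDart d)).dart = T.ρ d) ∧
      ∀ d d', D.crossings d d' ≠ 0 → (T.q1 d ∧ T.q2 d') ∨ (T.q2 d ∧ T.q1 d') := by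
  classical
  have := F.fin
  have hκsymm : T.κ = SimpleGraph.Dart.symm := funext hκ
  obtain ⟨idx, nn, I0, I1, I2, I3, I4, I5⟩ := exists_idx F.plan F.pos F.pos_lt
  set n : Sym2 V → ℕ := fun e => if h : ∃ d : H.Dart, d.edge = e then nn h.choose else 0 with hn
  have hnd : ∀ d : H.Dart, n d.edge = nn d := by
    intro d
    have h : ∃ d' : H.Dart, d'.edge = d.edge := ⟨d, rfl⟩
    rw [hn]
    simp only [dif_pos h]
    rcases (SimpleGraph.dart_edge_eq_iff _ _).1 h.choose_spec with e | e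
    · rw [e]
    · rw [e, ← hκ, I2]
  have edge_q1 : ∀ d d' : H.Dart, d.edge = d'.edge → T.q1 d → T.q1 d' := by
    intro d d' h hq
    rcases (SimpleGraph.dart_edge_eq_iff _ _).1 h with e | e
    · rwa [← e]
    · have : d' = T.κ d := by rw [hκ, e, SimpleGraph.Dart.symm_symm]
      rw [this]
      exact T.q1κ _ hq
  have edge_q2 : ∀ d d' : H.Dart, d.edge = d'.edge → T.q2 d → T.q2 d' := by
    intro d d' h hq
    rcases (SimpleGraph.dart_edge_eq_iff _ _).1 h with e | e
    · rwa [← e]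
    · have : d' = T.κ d := by rw [hκ, e, SimpleGraph.Dart.symm_symm]
      rw [this]
      exact T.q2κ _ hq
  set Ef : F.S → Seg H n := fun x => ⟨(F.L x, idx x), by
    show idx x ≤ n (F.L x).edge
    rw [hnd, ← I1]
    exact Nat.le_add_right _ _⟩ with hEf
  have Ef_dart : ∀ x, (Ef x).dart = F.L x := fun x => rfl
  have Ef_idx : ∀ x, (Ef x).idx = idx x := fun x => rfl
  have hbij : Function.Bijective Ef := by
    constructor
    · intro x y h
      exact I4 x y (congrArg Seg.dart h) (congrArg Seg.idx h)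
    · intro y
      obtain ⟨x, h1, h2⟩ := I5 y.dart y.idx (by rw [← hnd]; exact y.idx_le)
      exact ⟨x, Seg.ext' h1 h2⟩
  set E : F.S ≃ Seg H n := Equiv.ofBijective Ef hbij with hE
  have E_dart : ∀ x, (E x).dart = F.L x := fun x => rfl
  have E_idx : ∀ x, (E x).idx = idx x := fun x => rfl
  set rot : Perm (Seg H n) := E.permCongr F.σ with hrot
  have rotE : ∀ x, rot (E x) = E (F.σ x) := by
    intro x
    rw [hrot, Equiv.permCongr_apply, Equiv.symm_apply_apply]
  have flipE : ∀ x, flip H n (E x) = E (F.ι x) := by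
    intro x
    refine Seg.ext' ?_ ?_
    · rw [flip_dart, E_dart, E_dart, F.plan.L_ι, hκ]
    · rw [flip_idx, E_dart, E_idx, E_idx, hnd, ← I1 x]
      omega
  have Ein : ∀ d : H.Dart, E (F.inA d) = inDart d := by
    intro d
    refine Seg.ext' ?_ ?_
    · rw [E_dart, F.plan.L_in, inDart_dart]
    · rw [E_idx, (I0 _).2 (F.plan.real_in d), inDart_idx]
  have rot_in : ∀ d : H.Dart, rot (inDart d) = inDart (T.ρ d) := by
    intro d
    rw [← Ein, rotE, F.rot, Ein]
  have rot_pow : ∀ (k : ℤ) (d : H.Dart), (rot ^ k) (inDart d) = inDart ((T.ρ ^ k) d) := by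
    intro k
    induction k with
    | zero => intro d; simp
    | succ k ih =>
      intro d
      rw [zpow_add_one, Perm.mul_apply, rot_in, ih, zpow_add_one, Perm.mul_apply]
    | pred k ih =>
      intro d
      have h1 : rot⁻¹ (inDart d) = inDart (T.ρ⁻¹ d) := by
        rw [Perm.inv_eq_iff_eq, rot_in]
        simp
      rw [zpow_sub_one, Perm.mul_apply, h1, ih, zpow_sub_one, Perm.mul_apply]
  have hnr : ∀ y : F.S, (E y).idx ≠ 0 → ¬ F.real y := by
    intro y h h2
    exact h ((E_idx y).trans ((I0 y).2 h2))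
  have hnE : ∀ x : Seg H n, ∃ y, E y = x := fun x => ⟨E.symm x, E.apply_symm_apply x⟩
  refine ⟨
    { n := n
      rot := rot
      rot_vertex := ?_
      rot_crossing := ?_
      simple := ?_
      sphere := ?_ }, ?_, ?_⟩
  · intro x y hx
    have hx' : x = inDart x.dart := Seg.ext' rfl hx
    constructor
    · rintro ⟨k, hk⟩
      rw [hx', rot_pow] at hk
      rw [← hk]
      refine ⟨rfl, ?_⟩
      rw [inDart_dart]
      exact ((hρ _ _).1 ⟨k, rfl⟩).symm
    · rintro ⟨h1, h2⟩
      have hy' : y = inDart y.dart := Seg.ext' rfl h1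
      obtain ⟨k, hk⟩ := (hρ x.dart y.dart).2 h2.symm
      refine ⟨k, ?_⟩
      rw [hx', rot_pow, hk, ← hy']
  · intro x hx
    obtain ⟨y, rfl⟩ := hnE x
    have hy := hnr y hx
    rw [rotE, rotE, E_dart, E_idx, E_dart, E_idx]
    refine ⟨?_, ?_⟩
    · rw [F.plan.cross_L y hy, hκ]
    · rw [hnd]
      exact I3 y hy
  · intro x hx h
    obtain ⟨y, rfl⟩ := hnE x
    have hy := hnr y hx
    rw [rotE, E_dart, E_dart] at h
    rcases F.crossTp y hy with hc | hc
    · exact T.disj _ hc.1 (edge_q2 _ _ h hc.2)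
    · exact T.disj _ (edge_q1 _ _ h hc.2) hc.1
  · have hfin : Finite (Seg H n) := Finite.of_equiv _ E
    refine (isSphereMap_iff_jordan (σ := rot) flip_flip flip_ne).2 ?_
    intro z hz hz2
    obtain ⟨t, ht⟩ := hz2
    obtain ⟨t0, h1, h2⟩ := F.jordan (fun x => z (E x)) (fun x => by rw [← flipE, hz])
      ⟨fun x => t (E x), fun x => by
        show z (E x) = t (E x) + t (E (F.σ x))
        rw [← rotE]
        exact ht _⟩
    refine ⟨fun x => t0 (E.symm x), fun x => ?_, fun x => ?_⟩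
    · obtain ⟨y, rfl⟩ := hnE x
      rw [rotE]
      simp only [Equiv.symm_apply_apply]
      exact h1 y
    · obtain ⟨y, rfl⟩ := hnE x
      rw [rotE, flipE]
      simp only [Equiv.symm_apply_apply]
      exact h2 y
  · intro d
    show (rot (inDart d)).dart = T.ρ d
    rw [rot_in, inDart_dart]
  · intro d d' h
    obtain ⟨⟨x, hx1, hx2, hx3⟩⟩ := (Nat.card_ne_zero.1 h).1
    obtain ⟨y, rfl⟩ := hnE x
    have hy := hnr y hx2
    have hx3' : (rot (E y)).dart.edge = d'.edge := hx3
    rw [rotE, E_dart] at hx3'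
    rw [E_dart] at hx1
    subst hx1
    rcases F.crossTp y hy with hc | hc
    · exact Or.inl ⟨hc.1, edge_q2 _ _ hx3' hc.2⟩
    · exact Or.inr ⟨hc.1, edge_q1 _ _ hx3' hc.2⟩

end

end Pool.Agent.Lib.MP_09e2fc_co
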