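import Mathlib
import Pool.Agent.Lib.MP_09e2fc_co.Final

/-!
# The Hanani–Tutte theorem for simultaneous embeddings, all pairs of edges
-/

namespace Pool.Agent.Lib.MP_09e2fc_co

open Equiv

section

variable {V : Type} {H : SimpleGraph V} [Finite V]

open Classical in
theorem Drawing.isCyc_of [Fintype H.Dart] (D : Drawing H) {ζ : H.Dart → ZMod 2}
    (h1 : ∀ d, ζ d.symm = ζ d) (h2 : ∃ u : H.Dart → ZMod 2, ∀ d, ζ d = u d + u (D.rho d)) :
    IsCyc ζ := by
  refine ⟨h1, fun K => ?_⟩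
  obtain ⟨u, hu⟩ := h2
  have e1 : ∑ d, K d.fst * ζ d = ∑ d, K d.fst * u d + ∑ d, K (D.rho d).fst * u (D.rho d) := by
    rw [← Finset.sum_add_distrib]
    refine Finset.sum_congr rfl fun d _ => ?_
    rw [hu d, D.rho_fst, mul_add]
  rw [e1, Equiv.sum_comp D.rho (fun d => K d.fst * u d), zmod2_add_self]

theorem Drawing.faceFun' (D : Drawing H) {ζ : H.Dart → ZMod 2} (h1 : ∀ d, ζ d.symm = ζ d)
    (h2 : ∃ u : H.Dart → ZMod 2, ∀ d, ζ d = u d + u (D.rho d)) :
    ∃ u : H.Dart → ZMod 2, (∀ d, ζ d = u d + u (D.rho d)) ∧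
      ∀ d, (∀ d', ζ d' ≠ 0 → ¬ Odd (D.crossings d d')) → u (D.rho d) = u d.symm := by
  classical
  have := Fintype.ofFinite H.Dart
  obtain ⟨u, hu1, hu2⟩ := D.faceFun (D.isCyc_of h1 h2)
  exact ⟨u, hu1, fun d hd => hu2 d fun d' hd' => Nat.not_odd_iff_even.1 (hd d' hd')⟩

end

section

variable {V : Type} [Finite V] {G₁ G₂ : SimpleGraph V}

/-- The abstract data of a drawing with the parity property. -/
noncomputable def setupOf (D : Drawing (G₁ ⊔ G₂))
    (h : ∀ d d', Odd (D.crossings d d') → ExclusivePair G₁ G₂ d d') :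
    Setup (G₁ ⊔ G₂).Dart where
  κ := SimpleGraph.Dart.symm
  ρ := D.rho
  q1 := fun d => d.edge ∉ G₂.edgeSet
  q2 := fun d => d.edge ∉ G₁.edgeSet
  κ2 := SimpleGraph.Dart.symm_symm
  κ1 := fun d => SimpleGraph.Dart.symm_ne d
  q1κ := fun d hd => by rwa [SimpleGraph.Dart.edge_symm]
  q2κ := fun d hd => by rwa [SimpleGraph.Dart.edge_symm]
  disj := fun d h1 h2 => by
    have := d.edge_mem
    rw [SimpleGraph.edgeSet_sup] at this
    rcases this with h3 | h3
    · exact h2 h3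
    · exact h1 h3
  F0 := fun ζ h1 h2 h3 => by
    obtain ⟨u, hu1, hu2⟩ := D.faceFun' h1 h2
    refine ⟨u, hu1, fun d => hu2 d fun d' hd' hodd => ?_⟩
    rcases h d d' hodd with h4 | h4
    · exact (h3 d' hd').2 h4.2
    · exact (h3 d' hd').1 h4.2
  F1 := fun ζ h1 h2 h3 => by
    obtain ⟨u, hu1, hu2⟩ := D.faceFun' h1 h2
    refine ⟨u, hu1, fun d hd => hu2 d fun d' hd' hodd => ?_⟩
    rcases h d d' hodd with h4 | h4
    · exact h3 d' hd' h4.2
    · exact hd h4.1
  F2 := fun ζ h1 h2 h3 => by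
    obtain ⟨u, hu1, hu2⟩ := D.faceFun' h1 h2
    refine ⟨u, hu1, fun d hd => hu2 d fun d' hd' hodd => ?_⟩
    rcases h d d' hodd with h4 | h4
    · exact hd h4.1
    · exact h3 d' hd' h4.2

theorem exists_sefe_of_parity (D : Drawing (G₁ ⊔ G₂))
    (h : ∀ d d', Odd (D.crossings d d') → ExclusivePair G₁ G₂ d d') :
    ∃ D' : Drawing (G₁ ⊔ G₂), (∀ d, (D'.rot (inDart d)).dart = (D.rot (inDart d)).dart) ∧
      ∀ d d', D'.crossings d d' ≠ 0 → ExclusivePair G₁ G₂ d d' := by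
  obtain ⟨M⟩ := exists_full (setupOf D h)
  obtain ⟨F⟩ := M.exists_flat
  obtain ⟨D', hr, hD'⟩ := exists_drawing (T := setupOf D h) (fun _ => rfl) (fun d d' => by
    constructor
    · intro h1
      have : Finite (G₁ ⊔ G₂).Dart := inferInstance
      obtain ⟨k, hk⟩ := h1.exists_nat_pow_eq
      rw [← hk]
      clear hk
      induction k with
      | zero => rfl
      | succ k ih =>
        rw [pow_succ', Perm.mul_apply, ih]
        exact (D.rho_fst _).symm
    · intro h1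
      exact D.rho_sameCycle h1) F
  exact ⟨D', hr, fun d d' hne => hD' d d' hne⟩

end

end Pool.Agent.Lib.MP_09e2fc_co
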